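import Pool.Agent.OH246.Defs

/-! Module A2: the Schur test for `κ`. -/

open scoped BigOperators ComplexOrder Matrix InnerProductSpace Topology ENNReal
open Filter MeasureTheory

noncomputable section

namespace OH246

section A2aux
variable {m ι : Type*} [Fintype m] [Fintype ι]

private theorem a2_hsq_nonneg (u : Matrix m m ℂ) : 0 ≤ hsq u :=
  Finset.sum_nonneg fun _ _ => Finset.sum_nonneg fun _ _ => by positivity

private theorem a2_hsn_nonneg (u : Matrix m m ℂ) : 0 ≤ hsn u := Real.sqrt_nonneg _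

private theorem a2_hsn_sq (u : Matrix m m ℂ) : hsn u ^ 2 = hsq u :=
  Real.sq_sqrt (a2_hsq_nonneg u)

private theorem a2_hsq_tr (u : Matrix m m ℂ) : (uᴴ * u).trace = ((hsq u : ℝ) : ℂ) := by
  rw [Matrix.trace_mul_comm]
  simp only [hsq, Matrix.trace, Matrix.diag_apply, Matrix.mul_apply, Matrix.conjTranspose_apply]
  push_cast
  refine Finset.sum_congr rfl fun i _ => Finset.sum_congr rfl fun j _ => ?_
  rw [Complex.star_def, Complex.mul_conj, Complex.normSq_eq_norm_sq]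
  push_cast
  rfl

private theorem a2_cs (v x : Matrix m m ℂ) : ‖(vᴴ * x).trace‖ ≤ hsn v * hsn x := by
  have e1 : hsq v = ∑ q : m × m, ‖v q.2 q.1‖ ^ 2 := by
    rw [Fintype.sum_prod_type]; unfold hsq; exact Finset.sum_comm
  have e2 : hsq x = ∑ q : m × m, ‖x q.2 q.1‖ ^ 2 := by
    rw [Fintype.sum_prod_type]; unfold hsq; exact Finset.sum_comm
  have e3 : (vᴴ * x).trace = ∑ q : m × m, star (v q.2 q.1) * x q.2 q.1 := by
    rw [Fintype.sum_prod_type]; rfl
  rw [hsn, hsn, e1, e2, e3]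
  calc ‖∑ q : m × m, star (v q.2 q.1) * x q.2 q.1‖
      ≤ ∑ q : m × m, ‖v q.2 q.1‖ * ‖x q.2 q.1‖ := by
        refine (norm_sum_le _ _).trans (le_of_eq ?_)
        exact Finset.sum_congr rfl fun q _ => by rw [norm_mul, norm_star]
    _ ≤ _ := Real.sum_mul_le_sqrt_mul_sqrt _ _ _

private theorem a2_hsn_add (x y : Matrix m m ℂ) : hsn (x + y) ≤ hsn x + hsn y := by
  have h1 : hsq (x + y) ≤ (hsn x + hsn y) ^ 2 := by
    have h2 : ((hsq (x + y) : ℝ) : ℂ) = (((hsq x : ℝ) : ℂ) + (xᴴ * y).trace) +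
        ((yᴴ * x).trace + ((hsq y : ℝ) : ℂ)) := by
      rw [← a2_hsq_tr, ← a2_hsq_tr, ← a2_hsq_tr, Matrix.conjTranspose_add, Matrix.add_mul,
        Matrix.mul_add, Matrix.mul_add, Matrix.trace_add, Matrix.trace_add, Matrix.trace_add]
    have h3 : hsq (x + y) = (hsq x + ((xᴴ * y).trace).re) + (((yᴴ * x).trace).re + hsq y) := by
      have := congrArg Complex.re h2
      simpa using this
    have h4 := (Complex.re_le_norm _).trans (a2_cs x y)
    have h5 := (Complex.re_le_norm _).trans (a2_cs y x)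
    rw [h3, ← a2_hsn_sq x, ← a2_hsn_sq y]
    nlinarith
  calc hsn (x + y) ≤ Real.sqrt ((hsn x + hsn y) ^ 2) := Real.sqrt_le_sqrt h1
    _ = hsn x + hsn y := Real.sqrt_sq (add_nonneg (a2_hsn_nonneg x) (a2_hsn_nonneg y))

private theorem a2_hsn_smul (c : ℂ) (x : Matrix m m ℂ) : hsn (c • x) = ‖c‖ * hsn x := by
  have : hsq (c • x) = ‖c‖ ^ 2 * hsq x := by
    unfold hsq
    rw [Finset.mul_sum]
    refine Finset.sum_congr rfl fun i _ => ?_
    rw [Finset.mul_sum]
    refine Finset.sum_congr rfl fun j _ => ?_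
    rw [Matrix.smul_apply, smul_eq_mul, norm_mul]; ring
  rw [hsn, this, Real.sqrt_mul (by positivity), Real.sqrt_sq (norm_nonneg _)]; rfl

private def a2T (z : ι → Matrix m m ℂ) : Matrix m m ℂ →ₗ[ℂ] Matrix m m ℂ where
  toFun u := ∑ p, z p * u * (z p)ᴴ
  map_add' x y := by
    rw [← Finset.sum_add_distrib]
    exact Finset.sum_congr rfl fun p _ => by rw [Matrix.mul_add, Matrix.add_mul]
  map_smul' c x := by
    rw [RingHom.id_apply, Finset.smul_sum]
    exact Finset.sum_congr rfl fun p _ => by rw [Matrix.mul_smul, Matrix.smul_mul]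

private def a2T' (z : ι → Matrix m m ℂ) : Matrix m m ℂ →ₗ[ℂ] Matrix m m ℂ where
  toFun u := ∑ p, (z p)ᴴ * u * z p
  map_add' x y := by
    rw [← Finset.sum_add_distrib]
    exact Finset.sum_congr rfl fun p _ => by rw [Matrix.mul_add, Matrix.add_mul]
  map_smul' c x := by
    rw [RingHom.id_apply, Finset.smul_sum]
    exact Finset.sum_congr rfl fun p _ => by rw [Matrix.mul_smul, Matrix.smul_mul]

private theorem a2T_apply (z : ι → Matrix m m ℂ) (u : Matrix m m ℂ) :
    a2T z u = ∑ p, z p * u * (z p)ᴴ := rfl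

private theorem a2T'_apply (z : ι → Matrix m m ℂ) (u : Matrix m m ℂ) :
    a2T' z u = ∑ p, (z p)ᴴ * u * z p := rfl

private theorem a2_adj (z : ι → Matrix m m ℂ) (u v : Matrix m m ℂ) :
    (vᴴ * a2T z u).trace = ((a2T' z v)ᴴ * u).trace := by
  rw [a2T_apply, a2T'_apply, Matrix.mul_sum, Matrix.conjTranspose_sum, Matrix.sum_mul,
    Matrix.trace_sum, Matrix.trace_sum]
  refine Finset.sum_congr rfl fun p _ => ?_
  rw [Matrix.conjTranspose_mul, Matrix.conjTranspose_mul, Matrix.conjTranspose_conjTranspose]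
  rw [← Matrix.mul_assoc, ← Matrix.mul_assoc, Matrix.trace_mul_comm]
  simp only [Matrix.mul_assoc]

private theorem a2_T_psd (z : ι → Matrix m m ℂ) {u : Matrix m m ℂ} (hu : u.PosSemidef) :
    (a2T z u).PosSemidef := by
  rw [a2T_apply]
  exact Matrix.posSemidef_sum _ fun p _ => hu.mul_mul_conjTranspose_same (z p)

private theorem a2_T'_psd (z : ι → Matrix m m ℂ) {u : Matrix m m ℂ} (hu : u.PosSemidef) :
    (a2T' z u).PosSemidef := by
  rw [a2T'_apply]
  exact Matrix.posSemidef_sum _ fun p _ => hu.conjTranspose_mul_mul_same (z p)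

end A2aux

section A2
variable {m ι : Type*} [Fintype m] [DecidableEq m] [Fintype ι]

private theorem a2_affine {g : Matrix m m ℂ} (hg : g.IsHermitian) (a b : ℝ)
    (h : ∀ i, 0 ≤ a * hg.eigenvalues i + b) : (a • g + b • (1 : Matrix m m ℂ)).PosSemidef := by
  set U : Matrix m m ℂ := (hg.eigenvectorUnitary : Matrix m m ℂ) with hU
  have hUU' : U * Uᴴ = 1 := by
    have := Unitary.coe_mul_star_self hg.eigenvectorUnitary
    simpa [Matrix.star_eq_conjTranspose] using this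
  have hspec : g = U * Matrix.diagonal (fun i => (hg.eigenvalues i : ℂ)) * Uᴴ := by
    have := hg.spectral_theorem
    rw [Unitary.conjStarAlgAut_apply] at this
    exact this
  have hd : (Matrix.diagonal (fun i => ((a * hg.eigenvalues i + b : ℝ) : ℂ))).PosSemidef := by
    rw [Matrix.posSemidef_diagonal_iff]
    intro i
    exact_mod_cast h i
  have h2 := hd.mul_mul_conjTranspose_same U
  have h3 : U * Matrix.diagonal (fun i => ((a * hg.eigenvalues i + b : ℝ) : ℂ)) * Uᴴ =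
      a • g + b • (1 : Matrix m m ℂ) := by
    have h4 : Matrix.diagonal (fun i => ((a * hg.eigenvalues i + b : ℝ) : ℂ)) =
        a • Matrix.diagonal (fun i => (hg.eigenvalues i : ℂ)) + b • (1 : Matrix m m ℂ) := by
      rw [← Matrix.diagonal_one, ← Matrix.diagonal_smul, ← Matrix.diagonal_smul,
        Matrix.diagonal_add]
      congr 1
      funext i
      simp
    rw [h4, Matrix.mul_add, Matrix.add_mul, Matrix.mul_smul, Matrix.smul_mul, ← hspec,
      Matrix.mul_smul, Matrix.smul_mul, Matrix.mul_one, hUU']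
  rw [← h3]
  exact h2

private theorem a2_dom {α h : Matrix m m ℂ} (hα : α.PosDef) (hh : h.PosSemidef) :
    ∃ c : ℝ, 0 ≤ c ∧ (c • α - h).PosSemidef := by
  have hαp : ∀ i, 0 < hα.isHermitian.eigenvalues i := hα.eigenvalues_pos
  set c1 : ℝ := ∑ i, (hα.isHermitian.eigenvalues i)⁻¹ with hc1
  have hc10 : 0 ≤ c1 := Finset.sum_nonneg fun i _ => (inv_pos.2 (hαp i)).le
  set c2 : ℝ := ∑ i, |hh.isHermitian.eigenvalues i| with hc2
  have hc20 : 0 ≤ c2 := Finset.sum_nonneg fun i _ => abs_nonneg _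
  have k1 := a2_affine hα.isHermitian c1 (-1) (by
    intro i
    have h1 : (hα.isHermitian.eigenvalues i)⁻¹ ≤ c1 :=
      Finset.single_le_sum (f := fun i => (hα.isHermitian.eigenvalues i)⁻¹)
        (fun j _ => (inv_pos.2 (hαp j)).le) (Finset.mem_univ i)
    have h2 : (hα.isHermitian.eigenvalues i)⁻¹ * hα.isHermitian.eigenvalues i = 1 :=
      inv_mul_cancel₀ (hαp i).ne'
    nlinarith [mul_le_mul_of_nonneg_right h1 (hαp i).le])
  have k2 := a2_affine hh.isHermitian (-1) c2 (by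
    intro i
    have h1 : |hh.isHermitian.eigenvalues i| ≤ c2 :=
      Finset.single_le_sum (f := fun i => |hh.isHermitian.eigenvalues i|)
        (fun j _ => abs_nonneg _) (Finset.mem_univ i)
    have h2 := le_abs_self (hh.isHermitian.eigenvalues i)
    linarith)
  refine ⟨c2 * c1, mul_nonneg hc20 hc10, ?_⟩
  have k3 := (k1.smul hc20).add k2
  have : (c2 • (c1 • α + (-1 : ℝ) • (1 : Matrix m m ℂ)) +
      ((-1 : ℝ) • h + c2 • (1 : Matrix m m ℂ))) = (c2 * c1) • α - h := by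
    rw [smul_add, smul_smul, smul_smul]
    simp only [neg_smul, one_smul, mul_neg, mul_one]
    abel
  rw [this] at k3
  exact k3

private theorem a2_trace_mul {x y : Matrix m m ℂ} (hx : x.PosSemidef) (hy : y.PosSemidef) :
    0 ≤ ((x * y).trace).re := by
  obtain ⟨k, w, rfl⟩ := Matrix.posSemidef_iff_eq_sum_vecMulVec.1 hy
  rw [Matrix.mul_sum, Matrix.trace_sum, Complex.re_sum]
  refine Finset.sum_nonneg fun i _ => ?_
  rw [Matrix.mul_vecMulVec, Matrix.trace_vecMulVec, dotProduct_comm]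
  exact (Complex.le_def.1 (hx.dotProduct_mulVec_nonneg (w i))).1

private theorem a2_hsn_le {x y : Matrix m m ℂ} (hx : x.PosSemidef) (hy : y.PosSemidef)
    (hxy : (y - x).PosSemidef) : hsn x ≤ hsn y := by
  have h1 := a2_trace_mul hx hxy
  have h2 := a2_trace_mul hxy hy
  rw [Matrix.mul_sub, Matrix.trace_sub, Complex.sub_re] at h1
  rw [Matrix.sub_mul, Matrix.trace_sub, Complex.sub_re] at h2
  have e1 : ((x * x).trace).re = hsq x := by
    have := a2_hsq_tr x
    rw [hx.isHermitian.eq] at this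
    rw [this]; simp
  have e2 : ((y * y).trace).re = hsq y := by
    have := a2_hsq_tr y
    rw [hy.isHermitian.eq] at this
    rw [this]; simp
  exact Real.sqrt_le_sqrt (by linarith)

private theorem a2_pol (x : Matrix m m ℂ) :
    x = (4 : ℂ)⁻¹ • ((1 + x)ᴴ * (1 + x)) + (-(4 : ℂ)⁻¹) • ((1 - x)ᴴ * (1 - x)) +
      (-(4 : ℂ)⁻¹ * Complex.I) • ((1 + Complex.I • x)ᴴ * (1 + Complex.I • x)) +
      ((4 : ℂ)⁻¹ * Complex.I) • ((1 - Complex.I • x)ᴴ * (1 - Complex.I • x)) := by
  simp only [Matrix.conjTranspose_add, Matrix.conjTranspose_sub, Matrix.conjTranspose_one,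
    Matrix.conjTranspose_smul, Complex.star_def, Complex.conj_I, Matrix.mul_add, Matrix.add_mul,
    Matrix.mul_sub, Matrix.sub_mul, Matrix.mul_one, Matrix.one_mul,
    Matrix.mul_smul, smul_smul, smul_add, smul_sub, neg_smul]
  ext i j
  simp only [Matrix.add_apply, Matrix.sub_apply, Matrix.neg_apply, Matrix.smul_apply, smul_eq_mul]
  ring_nf
  simp only [Complex.I_sq]
  ring

private theorem a2_growth {z : ι → Matrix m m ℂ} {α β : Matrix m m ℂ} (hα : α.PosDef)
    {κ : ℝ} (hκ : 0 ≤ κ)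
    (h1 : (κ • β - a2T z α).PosSemidef) (h2 : (κ • α - a2T' z β).PosSemidef)
    (x : Matrix m m ℂ) :
    ∃ K : ℝ, ∀ n : ℕ, hsn (((a2T' z ∘ₗ a2T z) ^ n) x) ≤ K * (κ ^ 2) ^ n := by
  set S := a2T' z ∘ₗ a2T z with hS
  have hSpsd : ∀ u : Matrix m m ℂ, u.PosSemidef → (S u).PosSemidef := fun u hu =>
    a2_T'_psd z (a2_T_psd z hu)
  have hSn : ∀ n : ℕ, ∀ u : Matrix m m ℂ, u.PosSemidef → ((S ^ n) u).PosSemidef := by
    intro n
    induction n with
    | zero => intro u hu; simpa using hu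
    | succ n ih =>
      intro u hu
      rw [pow_succ, Module.End.mul_apply]
      exact ih _ (hSpsd u hu)
  have hreal : ∀ (f : Matrix m m ℂ →ₗ[ℂ] Matrix m m ℂ) (r : ℝ) (u : Matrix m m ℂ),
      f (r • u) = r • f u := fun f r u => by
    have e : ∀ v : Matrix m m ℂ, r • v = (r : ℂ) • v := fun v => by
      ext i j; simp
    rw [e, e, map_smul]
  have hSα : ((κ ^ 2) • α - S α).PosSemidef := by
    have k1 := a2_T'_psd z h1
    rw [map_sub, hreal] at k1
    have k2 := (h2.smul hκ).add k1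
    have : κ • (κ • α - a2T' z β) + (κ • a2T' z β - a2T' z (a2T z α)) =
        (κ ^ 2) • α - S α := by
      rw [smul_sub, smul_smul, hS, LinearMap.comp_apply, pow_two]
      abel
    rw [this] at k2
    exact k2
  have hSnα : ∀ n : ℕ, ((κ ^ 2) ^ n • α - (S ^ n) α).PosSemidef := by
    intro n
    induction n with
    | zero => simpa using Matrix.PosSemidef.zero
    | succ n ih =>
      have k1 := hSn n _ hSα
      rw [map_sub, hreal] at k1
      have k2 := (ih.smul (sq_nonneg κ)).add k1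
      have : (κ ^ 2) • ((κ ^ 2) ^ n • α - (S ^ n) α) +
          ((κ ^ 2) • (S ^ n) α - (S ^ n) (S α)) = (κ ^ 2) ^ (n + 1) • α - (S ^ (n + 1)) α := by
        rw [smul_sub, smul_smul, pow_succ S, Module.End.mul_apply, ← pow_succ']
        abel
      rw [this] at k2
      exact k2
  -- PSD case
  have hpsd : ∀ u : Matrix m m ℂ, u.PosSemidef → ∃ K : ℝ, ∀ n : ℕ,
      hsn ((S ^ n) u) ≤ K * (κ ^ 2) ^ n := by
    intro u hu
    obtain ⟨c, hc, hcu⟩ := a2_dom hα hu
    refine ⟨c * hsn α, fun n => ?_⟩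
    have k1 := hSn n _ hcu
    rw [map_sub, hreal] at k1
    have k2 := ((hSnα n).smul hc).add k1
    have k3 : (c * (κ ^ 2) ^ n) • α - (S ^ n) u = c • ((κ ^ 2) ^ n • α - (S ^ n) α) +
        (c • (S ^ n) α - (S ^ n) u) := by
      rw [smul_sub, smul_smul]
      abel
    rw [← k3] at k2
    have hc' : 0 ≤ c * (κ ^ 2) ^ n := mul_nonneg hc (by positivity)
    have k4 := a2_hsn_le (hSn n u hu) (hα.posSemidef.smul hc') k2
    have k5 : hsn ((c * (κ ^ 2) ^ n) • α) = (c * (κ ^ 2) ^ n) * hsn α := by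
      have e : (c * (κ ^ 2) ^ n) • α = ((c * (κ ^ 2) ^ n : ℝ) : ℂ) • α := by
        ext i j; simp
      rw [e, a2_hsn_smul, Complex.norm_real, Real.norm_eq_abs, abs_of_nonneg hc']
    rw [k5] at k4
    calc _ ≤ _ := k4
      _ = _ := by ring
  have hadd : ∀ u v : Matrix m m ℂ, (∃ K : ℝ, ∀ n : ℕ, hsn ((S ^ n) u) ≤ K * (κ ^ 2) ^ n) →
      (∃ K : ℝ, ∀ n : ℕ, hsn ((S ^ n) v) ≤ K * (κ ^ 2) ^ n) →
      ∃ K : ℝ, ∀ n : ℕ, hsn ((S ^ n) (u + v)) ≤ K * (κ ^ 2) ^ n := by
    rintro u v ⟨K1, hK1⟩ ⟨K2, hK2⟩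
    refine ⟨K1 + K2, fun n => ?_⟩
    rw [map_add]
    have := a2_hsn_add ((S ^ n) u) ((S ^ n) v)
    have a1 := hK1 n
    have a2 := hK2 n
    rw [add_mul]; linarith
  have hsm : ∀ (c : ℂ) (u : Matrix m m ℂ), (∃ K : ℝ, ∀ n : ℕ, hsn ((S ^ n) u) ≤ K * (κ ^ 2) ^ n) →
      ∃ K : ℝ, ∀ n : ℕ, hsn ((S ^ n) (c • u)) ≤ K * (κ ^ 2) ^ n := by
    rintro c u ⟨K1, hK1⟩
    refine ⟨‖c‖ * K1, fun n => ?_⟩
    rw [map_smul, a2_hsn_smul, mul_assoc]
    exact mul_le_mul_of_nonneg_left (hK1 n) (norm_nonneg _)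
  rw [a2_pol x]
  refine hadd _ _ (hadd _ _ (hadd _ _ ?_ ?_) ?_) ?_ <;>
    exact hsm _ _ (hpsd _ (Matrix.posSemidef_conjTranspose_mul_self _))

private theorem a2_root {r q K : ℝ} (hr : 0 ≤ r) (hq : 0 ≤ q)
    (h : ∀ i : ℕ, r ^ (2 ^ i) ≤ K * q ^ (2 ^ i)) : r ≤ q := by
  by_contra hcon
  push Not at hcon
  have hr0 : 0 < r := lt_of_le_of_lt hq hcon
  set y := q / r with hy
  have hy0 : 0 ≤ y := div_nonneg hq hr0.le
  have hy1 : y < 1 := (div_lt_one hr0).2 hcon
  have hK : 0 < |K| + 1 := by positivity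
  obtain ⟨n, hn⟩ := exists_pow_lt_of_lt_one (inv_pos.2 hK) hy1
  have h1 : y ^ (2 ^ n) ≤ y ^ n := pow_le_pow_of_le_one hy0 hy1.le (Nat.lt_two_pow_self).le
  have h2 : y ^ (2 ^ n) < (|K| + 1)⁻¹ := lt_of_le_of_lt h1 hn
  have h3 : q ^ (2 ^ n) = y ^ (2 ^ n) * r ^ (2 ^ n) := by
    rw [← mul_pow, hy, div_mul_cancel₀ _ hr0.ne']
  have h4 := h n
  have hrn : 0 < r ^ (2 ^ n) := pow_pos hr0 _
  rw [h3, ← mul_assoc] at h4
  have h5 : 1 ≤ K * y ^ (2 ^ n) := by
    by_contra h6
    push Not at h6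
    nlinarith
  have h7 : K * y ^ (2 ^ n) ≤ (|K| + 1) * y ^ (2 ^ n) :=
    mul_le_mul_of_nonneg_right (by linarith [le_abs_self K]) (by positivity)
  have h8 : (|K| + 1) * y ^ (2 ^ n) < (|K| + 1) * (|K| + 1)⁻¹ := mul_lt_mul_of_pos_left h2 hK
  rw [mul_inv_cancel₀ hK.ne'] at h8
  linarith

/-- the Schur test. -/
theorem schur_test {z : ι → Matrix m m ℂ} {α β : Matrix m m ℂ} (hα : α.PosDef) (hβ : β.PosDef)
    {κ : ℝ} (hκ : 0 ≤ κ)
    (h1 : (κ • β - ∑ p, z p * α * (z p)ᴴ).PosSemidef)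
    (h2 : (κ • α - ∑ p, (z p)ᴴ * β * z p).PosSemidef) : KappaLE z κ := by
  have _ := hβ
  intro u v
  have e1 : ∑ p, (vᴴ * z p * u * (z p)ᴴ).trace = (vᴴ * a2T z u).trace := by
    rw [a2T_apply, Matrix.mul_sum, Matrix.trace_sum]
    refine Finset.sum_congr rfl fun p _ => ?_
    simp only [Matrix.mul_assoc]
  rw [e1]
  have hT : hsn (a2T z u) ≤ κ * hsn u := by
    set S := a2T' z ∘ₗ a2T z with hS
    have hsa : ∀ x y : Matrix m m ℂ, (xᴴ * S y).trace = ((S x)ᴴ * y).trace := by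
      intro x y
      have k1 : (xᴴ * S y).trace = ((a2T z x)ᴴ * a2T z y).trace := by
        have := a2_adj z (u := x) (v := a2T z y)
        have h3 := congrArg star this
        rw [← Matrix.trace_conjTranspose, ← Matrix.trace_conjTranspose,
          Matrix.conjTranspose_mul, Matrix.conjTranspose_mul, Matrix.conjTranspose_conjTranspose,
          Matrix.conjTranspose_conjTranspose] at h3
        exact h3.symm
      have k2 : ((a2T z x)ᴴ * a2T z y).trace = ((S x)ᴴ * y).trace := a2_adj z y (a2T z x)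
      rw [k1, k2]
    have hsan : ∀ (n : ℕ) (x y : Matrix m m ℂ),
        (xᴴ * (S ^ n) y).trace = (((S ^ n) x)ᴴ * y).trace := by
      intro n
      induction n with
      | zero => intro x y; simp
      | succ n ih =>
        intro x y
        rw [pow_succ', Module.End.mul_apply, hsa, ih, ← Module.End.mul_apply (S ^ n) S,
          ← pow_succ, pow_succ']
    have hstep : ∀ n : ℕ, hsn ((S ^ n) u) ^ 2 ≤ hsn u * hsn ((S ^ (2 * n)) u) := by
      intro n
      have k1 : (((S ^ n) u)ᴴ * (S ^ n) u).trace = (uᴴ * (S ^ (2 * n)) u).trace := by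
        rw [← hsan, two_mul, pow_add, Module.End.mul_apply]
      rw [a2_hsq_tr] at k1
      have k2 := a2_cs u ((S ^ (2 * n)) u)
      rw [← k1, Complex.norm_real, Real.norm_eq_abs, abs_of_nonneg (a2_hsq_nonneg _)] at k2
      rw [a2_hsn_sq]
      exact k2
    have hTu : hsn (a2T z u) ^ 2 ≤ hsn u * hsn (S u) := by
      have k1 : (uᴴ * S u).trace = ((a2T z u)ᴴ * a2T z u).trace := by
        rw [hsa, a2_adj z u (a2T z u)]; rfl
      rw [a2_hsq_tr] at k1
      have k2 := a2_cs u (S u)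
      rw [k1, Complex.norm_real, Real.norm_eq_abs, abs_of_nonneg (a2_hsq_nonneg _)] at k2
      rw [a2_hsn_sq]
      exact k2
    by_cases hu : hsn u = 0
    · rw [hu, zero_mul] at hTu
      have : hsn (a2T z u) = 0 := by
        have := le_antisymm hTu (sq_nonneg _)
        exact pow_eq_zero_iff (two_ne_zero) |>.1 this
      rw [this, hu, mul_zero]
    · have hu0 : 0 < hsn u := lt_of_le_of_ne (a2_hsn_nonneg u) (Ne.symm hu)
      obtain ⟨K, hK⟩ := a2_growth (β := β) hα hκ h1 h2 u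
      set r := hsn (S u) / hsn u with hr
      have hr0 : 0 ≤ r := div_nonneg (a2_hsn_nonneg _) hu0.le
      have hchain : ∀ i : ℕ, r ^ (2 ^ i) ≤ hsn ((S ^ (2 ^ i)) u) / hsn u := by
        intro i
        induction i with
        | zero => simp [hr]
        | succ i ih =>
          have k1 := hstep (2 ^ i)
          have k2 : (hsn ((S ^ (2 ^ i)) u) / hsn u) ^ 2 ≤ hsn ((S ^ (2 * 2 ^ i)) u) / hsn u := by
            rw [div_pow, div_le_div_iff₀ (by positivity) hu0]
            nlinarith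
          rw [pow_succ, pow_mul, mul_comm (2 ^ i) 2]
          exact (pow_le_pow_left₀ (by positivity) ih 2).trans k2
      have hrq : r ≤ κ ^ 2 := by
        refine a2_root (K := K / hsn u) hr0 (sq_nonneg κ) fun i => (hchain i).trans ?_
        rw [div_mul_eq_mul_div]
        exact div_le_div_of_nonneg_right (hK (2 ^ i)) hu0.le
      have k3 : hsn (S u) ≤ κ ^ 2 * hsn u := by
        rw [hr, div_le_iff₀ hu0] at hrq
        exact hrq
      have k4 : hsn (a2T z u) ^ 2 ≤ (κ * hsn u) ^ 2 := by nlinarith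
      exact (pow_le_pow_iff_left₀ (a2_hsn_nonneg _) (mul_nonneg hκ hu0.le) two_ne_zero).1 k4
  calc ‖(vᴴ * a2T z u).trace‖ ≤ hsn v * hsn (a2T z u) := a2_cs _ _
    _ ≤ hsn v * (κ * hsn u) := mul_le_mul_of_nonneg_left hT (a2_hsn_nonneg v)
    _ = κ * (hsn u * hsn v) := by ring

end A2

end OH246
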