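import Pool.Agent.OH246.Defs
import Pool.Agent.OH246.Schur

/-! Module A3: the dual norm. -/

open scoped BigOperators ComplexOrder Matrix InnerProductSpace Topology ENNReal
open Filter MeasureTheory

noncomputable section

namespace OH246

section A3aux
variable {m k ι : Type*} [Fintype m] [Fintype k] [Fintype ι]

private theorem a3_hsq_nonneg (u : Matrix m k ℂ) : 0 ≤ hsq u :=
  Finset.sum_nonneg fun _ _ => Finset.sum_nonneg fun _ _ => by positivity

private theorem a3_hsq_tr (u : Matrix m k ℂ) : ((hsq u : ℝ) : ℂ) = (u * uᴴ).trace := by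
  simp only [hsq, Matrix.trace, Matrix.diag_apply, Matrix.mul_apply, Matrix.conjTranspose_apply]
  push_cast
  refine Finset.sum_congr rfl fun i _ => Finset.sum_congr rfl fun j _ => ?_
  rw [Complex.star_def, Complex.mul_conj, Complex.normSq_eq_norm_sq]
  push_cast
  rfl

private theorem a3_cs (S : ι → Matrix m k ℂ) (T : ι → Matrix k m ℂ) :
    ‖∑ p, (S p * T p).trace‖ ^ 2 ≤ (∑ p, hsq (S p)) * (∑ p, hsq (T p)) := by
  have e1 : ∑ p, hsq (S p) = ∑ q : ι × (m × k), ‖S q.1 q.2.1 q.2.2‖ ^ 2 := by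
    rw [Fintype.sum_prod_type]
    refine Finset.sum_congr rfl fun p _ => ?_
    rw [Fintype.sum_prod_type]; rfl
  have e2 : ∑ p, hsq (T p) = ∑ q : ι × (m × k), ‖T q.1 q.2.2 q.2.1‖ ^ 2 := by
    rw [Fintype.sum_prod_type]
    refine Finset.sum_congr rfl fun p _ => ?_
    rw [Fintype.sum_prod_type, Finset.sum_comm]; rfl
  have e3 : ∑ p, (S p * T p).trace = ∑ q : ι × (m × k), S q.1 q.2.1 q.2.2 * T q.1 q.2.2 q.2.1 := by
    rw [Fintype.sum_prod_type]
    refine Finset.sum_congr rfl fun p _ => ?_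
    rw [Fintype.sum_prod_type]; rfl
  rw [e1, e2, e3]
  have h1 : ‖∑ q : ι × (m × k), S q.1 q.2.1 q.2.2 * T q.1 q.2.2 q.2.1‖
      ≤ ∑ q : ι × (m × k), ‖S q.1 q.2.1 q.2.2‖ * ‖T q.1 q.2.2 q.2.1‖ := by
    refine (norm_sum_le _ _).trans (le_of_eq ?_)
    exact Finset.sum_congr rfl fun q _ => norm_mul _ _
  have h2 := Finset.sum_mul_sq_le_sq_mul_sq (Finset.univ : Finset (ι × (m × k)))
    (fun q => ‖S q.1 q.2.1 q.2.2‖) (fun q => ‖T q.1 q.2.2 q.2.1‖)
  exact (pow_le_pow_left₀ (norm_nonneg _) h1 2).trans h2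

open scoped MatrixOrder in
private theorem a3_root [DecidableEq m] {A : Matrix m m ℂ} (hA : A.PosSemidef) :
    ∃ c : Matrix m m ℂ, A = cᴴ * c := by
  obtain ⟨c, hc⟩ := CStarAlgebra.nonneg_iff_eq_star_mul_self.mp
    (Matrix.nonneg_iff_posSemidef.mpr hA)
  exact ⟨c, hc⟩

private theorem a3_entry [DecidableEq m] {z : ι → Matrix m m ℂ} {κ : ℝ} (hz : KappaLE z κ)
    (i j : m) : ∑ p, ‖z p i j‖ ^ 2 ≤ κ := by
  have h := hz (Matrix.single j j 1) (Matrix.single i i 1)
  have h1 : ∀ a : m, hsn (Matrix.single a a (1 : ℂ)) = 1 := by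
    intro a
    have : hsq (Matrix.single a a (1 : ℂ)) = 1 := by
      unfold hsq
      rw [Finset.sum_eq_single a, Finset.sum_eq_single a]
      · simp
      · intro b _ hb; simp [Ne.symm hb]
      · simp
      · intro b _ hb
        refine Finset.sum_eq_zero fun c _ => ?_
        simp [Ne.symm hb]
      · simp
    rw [hsn, this, Real.sqrt_one]
  rw [h1, h1, mul_one, mul_one] at h
  have h2 : ∀ p, ((Matrix.single i i (1 : ℂ))ᴴ * z p * Matrix.single j j 1 * (z p)ᴴ).trace =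
      ((‖z p i j‖ ^ 2 : ℝ) : ℂ) := by
    intro p
    rw [Matrix.conjTranspose_single, star_one, Matrix.mul_assoc, Matrix.mul_assoc,
      Matrix.trace_single_mul, one_smul]
    have : (z p * (Matrix.single j j (1 : ℂ) * (z p)ᴴ) : Matrix m m ℂ) i i =
        z p i j * star (z p i j) := by
      rw [← Matrix.mul_assoc, Matrix.mul_apply, Finset.sum_eq_single j]
      · rw [Matrix.mul_single_apply_same, mul_one, Matrix.conjTranspose_apply]
      · intro b _ hb
        rw [Matrix.mul_single_apply_of_ne (hbj := hb), zero_mul]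
      · simp
    rw [this, Complex.star_def, Complex.mul_conj, Complex.normSq_eq_norm_sq]
  rw [Finset.sum_congr rfl fun p _ => h2 p, ← Complex.ofReal_sum, Complex.norm_real,
    Real.norm_of_nonneg (Finset.sum_nonneg fun _ _ => by positivity)] at h
  exact h

end A3aux

section A
variable {m k ι : Type*} [Fintype m] [DecidableEq m] [Fintype k] [DecidableEq k] [Fintype ι]

theorem bddAbove_dualSet (w : ι → Matrix m m ℂ) : BddAbove (dualSet w) := by
  refine ⟨∑ p, ∑ i, ∑ j, ‖w p i j‖, ?_⟩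
  rintro r ⟨z, hz, rfl⟩
  refine (norm_sum_le _ _).trans (Finset.sum_le_sum fun p _ => ?_)
  rw [Matrix.trace]
  refine (norm_sum_le _ _).trans (Finset.sum_le_sum fun i _ => ?_)
  rw [Matrix.diag_apply, Matrix.mul_apply]
  refine (norm_sum_le _ _).trans (Finset.sum_le_sum fun j _ => ?_)
  rw [norm_mul]
  have h1 : ‖z p j i‖ ^ 2 ≤ 1 :=
    (Finset.single_le_sum (f := fun p => ‖z p j i‖ ^ 2) (fun _ _ => by positivity)
      (Finset.mem_univ p)).trans (a3_entry hz j i)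
  have h2 : ‖z p j i‖ ≤ 1 := by
    nlinarith [norm_nonneg (z p j i)]
  exact mul_le_of_le_one_right (norm_nonneg _) h2

theorem le_dualNorm (w z : ι → Matrix m m ℂ) {κ : ℝ} (hκ : 0 ≤ κ) (hz : KappaLE z κ) :
    ‖∑ p, (w p * z p).trace‖ ≤ Real.sqrt κ * dualNorm w := by
  rcases hκ.eq_or_lt with h0 | hpos
  · subst h0
    have hz0 : ∀ p, z p = 0 := by
      intro p
      ext i j
      have h1 : ‖z p i j‖ ^ 2 ≤ 0 :=
        (Finset.single_le_sum (f := fun p => ‖z p i j‖ ^ 2) (fun _ _ => by positivity)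
          (Finset.mem_univ p)).trans (a3_entry hz i j)
      have h2 : ‖z p i j‖ = 0 := by nlinarith [norm_nonneg (z p i j), sq_nonneg ‖z p i j‖]
      simpa using h2
    simp [hz0]
  · have hs : 0 < Real.sqrt κ := Real.sqrt_pos.mpr hpos
    have hs2 : Real.sqrt κ * Real.sqrt κ = κ := Real.mul_self_sqrt hκ
    set s : ℝ := Real.sqrt κ with hsdef
    let z' : ι → Matrix m m ℂ := fun p => ((s⁻¹ : ℝ) : ℂ) • z p
    have hz' : KappaLE z' 1 := by
      intro u v
      have h := hz u v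
      have e : ∀ p, (vᴴ * z' p * u * (z' p)ᴴ).trace =
          ((κ⁻¹ : ℝ) : ℂ) * (vᴴ * z p * u * (z p)ᴴ).trace := by
        intro p
        simp only [z', Matrix.conjTranspose_smul, Matrix.mul_smul, Matrix.smul_mul,
          Matrix.trace_smul, smul_eq_mul, ← mul_assoc]
        congr 1
        rw [← hs2, Complex.star_def, Complex.conj_ofReal, ← Complex.ofReal_mul, mul_inv]
      rw [Finset.sum_congr rfl fun p _ => e p, ← Finset.mul_sum, norm_mul, Complex.norm_real,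
        Real.norm_of_nonneg (inv_nonneg.mpr hκ), one_mul]
      rw [inv_mul_le_iff₀ hpos]
      exact h
    have h1 : ‖∑ p, (w p * z' p).trace‖ ≤ dualNorm w :=
      le_csSup (bddAbove_dualSet w) ⟨z', hz', rfl⟩
    have e : ∑ p, (w p * z' p).trace = ((s⁻¹ : ℝ) : ℂ) * ∑ p, (w p * z p).trace := by
      rw [Finset.mul_sum]
      refine Finset.sum_congr rfl fun p _ => ?_
      simp only [z', Matrix.mul_smul, Matrix.trace_smul, smul_eq_mul]
    rw [e, norm_mul, Complex.norm_real, Real.norm_of_nonneg (inv_nonneg.mpr hs.le),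
      inv_mul_le_iff₀ hs] at h1
    exact h1

theorem trace_le_dualNorm {w : ι → Matrix m m ℂ} {A B : Matrix m m ℂ} (hA : A.PosDef)
    (hB : B.PosDef) {κ : ℝ} (hκ : 0 ≤ κ) (h1 : (κ • A⁻¹ - A * Hof' w B * A).PosSemidef)
    (h2 : (κ • B⁻¹ - B * Hof w A * B).PosSemidef) :
    ((Hof w A * B).trace).re ≤ Real.sqrt κ * dualNorm w := by
  have hAh : Aᴴ = A := hA.isHermitian
  have hBh : Bᴴ = B := hB.isHermitian
  have hAu : IsUnit A.det := (Matrix.isUnit_iff_isUnit_det A).mp hA.isUnit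
  have hBu : IsUnit B.det := (Matrix.isUnit_iff_isUnit_det B).mp hB.isUnit
  let z : ι → Matrix m m ℂ := fun p => A * (w p)ᴴ * B
  have hzc : ∀ p, (z p)ᴴ = B * w p * A := by
    intro p
    simp only [z, Matrix.conjTranspose_mul, Matrix.conjTranspose_conjTranspose, hAh, hBh,
      Matrix.mul_assoc]
  have k1 : ∑ p, z p * B⁻¹ * (z p)ᴴ = A * Hof' w B * A := by
    rw [Hof', Finset.mul_sum, Finset.sum_mul]
    refine Finset.sum_congr rfl fun p _ => ?_
    rw [hzc]
    calc A * (w p)ᴴ * B * B⁻¹ * (B * w p * A)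
        = A * (w p)ᴴ * (B * B⁻¹) * (B * w p * A) := by simp only [Matrix.mul_assoc]
      _ = A * ((w p)ᴴ * B * w p) * A := by
          rw [Matrix.mul_nonsing_inv _ hBu, Matrix.mul_one]; simp only [Matrix.mul_assoc]
  have k2 : ∑ p, (z p)ᴴ * A⁻¹ * z p = B * Hof w A * B := by
    rw [Hof, Finset.mul_sum, Finset.sum_mul]
    refine Finset.sum_congr rfl fun p _ => ?_
    rw [hzc]
    calc B * w p * A * A⁻¹ * (A * (w p)ᴴ * B)
        = B * w p * (A * A⁻¹) * (A * (w p)ᴴ * B) := by simp only [Matrix.mul_assoc]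
      _ = B * (w p * A * (w p)ᴴ) * B := by
          rw [Matrix.mul_nonsing_inv _ hAu, Matrix.mul_one]; simp only [Matrix.mul_assoc]
  have hz : KappaLE z κ := by
    refine schur_test (α := B⁻¹) (β := A⁻¹) hB.inv hA.inv hκ ?_ ?_
    · rw [k1]; exact h1
    · rw [k2]; exact h2
  have h3 := le_dualNorm w z hκ hz
  have e : ∑ p, (w p * z p).trace = (Hof w A * B).trace := by
    rw [Hof, Finset.sum_mul, Matrix.trace_sum]
    refine Finset.sum_congr rfl fun p _ => ?_
    simp only [z, Matrix.mul_assoc]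
  rw [e] at h3
  exact (Complex.re_le_norm _).trans h3

theorem dualNorm_sq_le {w : ι → Matrix m m ℂ} {A B : Matrix m m ℂ} (hA : A.PosDef)
    (hB : B.PosDef) :
    dualNorm w ^ 2 ≤ ((Hof w A * B).trace).re * (hsn A⁻¹ * hsn B⁻¹) := by
  have hAu : IsUnit A.det := (Matrix.isUnit_iff_isUnit_det A).mp hA.isUnit
  have hBu : IsUnit B.det := (Matrix.isUnit_iff_isUnit_det B).mp hB.isUnit
  obtain ⟨c, hc⟩ := a3_root hA.posSemidef
  obtain ⟨e, he⟩ := a3_root hB.posSemidef
  have hcu : IsUnit c.det := by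
    rw [hc, Matrix.det_mul] at hAu
    exact isUnit_of_mul_isUnit_right hAu
  have heu : IsUnit e.det := by
    rw [he, Matrix.det_mul] at hBu
    exact isUnit_of_mul_isUnit_right hBu
  have hcu' : IsUnit (cᴴ).det := by
    rw [Matrix.det_conjTranspose]; exact hcu.star
  have hNe : ((∑ p, hsq (e * w p * cᴴ) : ℝ) : ℂ) = (Hof w A * B).trace := by
    rw [Hof, Finset.sum_mul, Matrix.trace_sum]
    push_cast
    refine Finset.sum_congr rfl fun p _ => ?_
    rw [a3_hsq_tr, hc, he]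
    simp only [Matrix.conjTranspose_mul, Matrix.conjTranspose_conjTranspose]
    rw [show e * w p * cᴴ * (c * ((w p)ᴴ * eᴴ)) = e * (w p * (cᴴ * c) * (w p)ᴴ * eᴴ) by
      simp only [Matrix.mul_assoc], Matrix.trace_mul_comm]
    simp only [Matrix.mul_assoc]
  have hN : ∑ p, hsq (e * w p * cᴴ) = ((Hof w A * B).trace).re := by
    rw [← hNe, Complex.ofReal_re]
  have hNn : 0 ≤ ((Hof w A * B).trace).re := by
    rw [← hN]; exact Finset.sum_nonneg fun p _ => a3_hsq_nonneg _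
  have hpos : 0 ≤ ((Hof w A * B).trace).re * (hsn A⁻¹ * hsn B⁻¹) :=
    mul_nonneg hNn (mul_nonneg (Real.sqrt_nonneg _) (Real.sqrt_nonneg _))
  have key : ∀ r ∈ dualSet w, r ≤ Real.sqrt (((Hof w A * B).trace).re * (hsn A⁻¹ * hsn B⁻¹)) := by
    rintro r ⟨z, hz, rfl⟩
    refine Real.le_sqrt_of_sq_le ?_
    have hcs := a3_cs (fun p => e * w p * cᴴ) (fun p => (cᴴ)⁻¹ * z p * e⁻¹)
    have e1 : ∀ p, ((e * w p * cᴴ) * ((cᴴ)⁻¹ * z p * e⁻¹)).trace = (w p * z p).trace := by
      intro p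
      rw [show (e * w p * cᴴ) * ((cᴴ)⁻¹ * z p * e⁻¹) = e * (w p * (cᴴ * (cᴴ)⁻¹) * z p * e⁻¹) by
        simp only [Matrix.mul_assoc], Matrix.trace_mul_comm, Matrix.mul_nonsing_inv _ hcu',
        Matrix.mul_one, Matrix.mul_assoc, Matrix.nonsing_inv_mul _ heu, Matrix.mul_one]
    rw [Finset.sum_congr rfl fun p _ => e1 p, hN] at hcs
    refine hcs.trans (mul_le_mul_of_nonneg_left ?_ hNn)
    have h4 := hz B⁻¹ A⁻¹
    have hAh : (A⁻¹)ᴴ = A⁻¹ := hA.inv.isHermitian
    rw [hAh, one_mul] at h4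
    have e2 : ((∑ p, hsq ((cᴴ)⁻¹ * z p * e⁻¹) : ℝ) : ℂ) =
        ∑ p, (A⁻¹ * z p * B⁻¹ * (z p)ᴴ).trace := by
      push_cast
      refine Finset.sum_congr rfl fun p _ => ?_
      rw [a3_hsq_tr, hc, he, Matrix.mul_inv_rev, Matrix.mul_inv_rev]
      simp only [Matrix.conjTranspose_mul, Matrix.conjTranspose_nonsing_inv,
        Matrix.conjTranspose_conjTranspose]
      rw [show (cᴴ)⁻¹ * z p * e⁻¹ * ((eᴴ)⁻¹ * ((z p)ᴴ * c⁻¹)) =
        ((cᴴ)⁻¹ * z p * (e⁻¹ * (eᴴ)⁻¹) * (z p)ᴴ) * c⁻¹ by simp only [Matrix.mul_assoc],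
        Matrix.trace_mul_comm]
      simp only [Matrix.mul_assoc]
    rw [← e2, Complex.norm_real, Real.norm_of_nonneg
      (Finset.sum_nonneg fun p _ => a3_hsq_nonneg _)] at h4
    rw [mul_comm (hsn B⁻¹)] at h4
    exact h4
  have hle : dualNorm w ≤ Real.sqrt (((Hof w A * B).trace).re * (hsn A⁻¹ * hsn B⁻¹)) := by
    refine csSup_le ⟨0, fun _ => 0, ?_, by simp⟩ key
    intro u v
    simp
    exact mul_nonneg (Real.sqrt_nonneg _) (Real.sqrt_nonneg _)
  have hd0 : 0 ≤ dualNorm w := by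
    refine le_csSup (bddAbove_dualSet w) ⟨fun _ => 0, ?_, by simp⟩
    intro u v
    simp
    exact mul_nonneg (Real.sqrt_nonneg _) (Real.sqrt_nonneg _)
  calc dualNorm w ^ 2 ≤ (Real.sqrt (((Hof w A * B).trace).re * (hsn A⁻¹ * hsn B⁻¹))) ^ 2 :=
        pow_le_pow_left₀ hd0 hle 2
    _ = _ := Real.sq_sqrt hpos

end A

end OH246
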