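import Pool.Agent.OH246.Defs

/-! Module A1: the Cauchy–Schwarz inequality for `κ` and `KappaLE ↔ kap ≤ κ`. -/

open scoped BigOperators ComplexOrder Matrix InnerProductSpace Topology ENNReal
open Filter MeasureTheory

noncomputable section

namespace OH246

section A1aux
variable {m k l ι : Type*} [Fintype m] [Fintype k] [Fintype l] [Fintype ι]

private theorem a1_hsq_nonneg (u : Matrix m k ℂ) : 0 ≤ hsq u :=
  Finset.sum_nonneg fun _ _ => Finset.sum_nonneg fun _ _ => by positivity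

private theorem a1_hsq_cT (u : Matrix m k ℂ) : hsq uᴴ = hsq u := by
  simp only [hsq, Matrix.conjTranspose_apply, norm_star]
  exact Finset.sum_comm

private theorem a1_hsq_T (u : Matrix m k ℂ) : hsq uᵀ = hsq u := by
  simp only [hsq, Matrix.transpose_apply]
  exact Finset.sum_comm

private theorem a1_hsq_tr (u : Matrix m k ℂ) : ((hsq u : ℝ) : ℂ) = (u * uᴴ).trace := by
  simp only [hsq, Matrix.trace, Matrix.diag_apply, Matrix.mul_apply, Matrix.conjTranspose_apply]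
  push_cast
  refine Finset.sum_congr rfl fun i _ => Finset.sum_congr rfl fun j _ => ?_
  rw [Complex.star_def, Complex.mul_conj, Complex.normSq_eq_norm_sq]
  push_cast
  rfl

private theorem a1_hsq_gram (a : Matrix m k ℂ) : hsq (aᴴ * a) = hsq (a * aᴴ) := by
  have h : ((hsq (aᴴ * a) : ℝ) : ℂ) = ((hsq (a * aᴴ) : ℝ) : ℂ) := by
    rw [a1_hsq_tr, a1_hsq_tr]
    simp only [Matrix.conjTranspose_mul, Matrix.conjTranspose_conjTranspose]
    rw [Matrix.mul_assoc, Matrix.trace_mul_comm aᴴ, Matrix.mul_assoc]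
    simp only [Matrix.mul_assoc]
  exact_mod_cast h

private theorem a1_cs (S : ι → Matrix m k ℂ) (T : ι → Matrix k m ℂ) :
    ‖∑ p, (S p * T p).trace‖ ≤ Real.sqrt (∑ p, hsq (S p)) * Real.sqrt (∑ p, hsq (T p)) := by
  have e1 : ∑ p, hsq (S p) = ∑ q : ι × (m × k), ‖S q.1 q.2.1 q.2.2‖ ^ 2 := by
    rw [Fintype.sum_prod_type]
    refine Finset.sum_congr rfl fun p _ => ?_
    rw [Fintype.sum_prod_type]; rfl
  have e2 : ∑ p, hsq (T p) = ∑ q : ι × (m × k), ‖T q.1 q.2.2 q.2.1‖ ^ 2 := by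
    rw [Fintype.sum_prod_type]
    refine Finset.sum_congr rfl fun p _ => ?_
    rw [Fintype.sum_prod_type, ← a1_hsq_T]; rfl
  have e3 : ∑ p, (S p * T p).trace = ∑ q : ι × (m × k), S q.1 q.2.1 q.2.2 * T q.1 q.2.2 q.2.1 := by
    rw [Fintype.sum_prod_type]
    refine Finset.sum_congr rfl fun p _ => ?_
    rw [Fintype.sum_prod_type]; rfl
  rw [e1, e2, e3]
  calc ‖∑ q : ι × (m × k), S q.1 q.2.1 q.2.2 * T q.1 q.2.2 q.2.1‖
      ≤ ∑ q : ι × (m × k), ‖S q.1 q.2.1 q.2.2‖ * ‖T q.1 q.2.2 q.2.1‖ := by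
        refine (norm_sum_le _ _).trans (le_of_eq ?_)
        exact Finset.sum_congr rfl fun q _ => norm_mul _ _
    _ ≤ _ := Real.sum_mul_le_sqrt_mul_sqrt _ _ _

/-- factorisation `ξ = a₁ a₂` with `‖a₁a₁*‖₂, ‖a₂*a₂‖₂ ≤ ‖ξ‖₂`. -/
private theorem a1_factor [DecidableEq m] (ξ : Matrix m k ℂ) :
    ∃ (a₁ : Matrix m m ℂ) (a₂ : Matrix m k ℂ), ξ = a₁ * a₂ ∧
      hsq (a₁ * a₁ᴴ) ≤ hsq ξ ∧ hsq (a₂ᴴ * a₂) ≤ hsq ξ := by
  have hps : (ξ * ξᴴ).PosSemidef := Matrix.posSemidef_self_mul_conjTranspose ξ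
  have hH := hps.isHermitian
  set U : Matrix m m ℂ := (hH.eigenvectorUnitary : Matrix m m ℂ) with hU
  set lam : m → ℝ := hH.eigenvalues with hlam
  have hlam0 : ∀ i, 0 ≤ lam i := hps.eigenvalues_nonneg
  have hUU : Uᴴ * U = 1 := by
    have := Unitary.coe_star_mul_self hH.eigenvectorUnitary
    simpa [Matrix.star_eq_conjTranspose] using this
  have hUU' : U * Uᴴ = 1 := by
    have := Unitary.coe_mul_star_self hH.eigenvectorUnitary
    simpa [Matrix.star_eq_conjTranspose] using this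
  have hspec : ξ * ξᴴ = U * Matrix.diagonal (fun i => (lam i : ℂ)) * Uᴴ := by
    have := hH.spectral_theorem
    rw [Unitary.conjStarAlgAut_apply] at this
    exact this
  set s : m → ℝ := fun i => Real.sqrt (Real.sqrt (lam i)) with hs
  have hs4 : ∀ i, s i * s i = Real.sqrt (lam i) := fun i =>
    Real.mul_self_sqrt (Real.sqrt_nonneg _)
  have hs0 : ∀ i, s i = 0 → lam i = 0 := by
    intro i hi
    have h1 := hs4 i
    rw [hi, mul_zero] at h1
    have h2 := Real.mul_self_sqrt (hlam0 i)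
    rw [← h1, mul_zero] at h2
    exact h2.symm
  set D : Matrix m m ℂ := Matrix.diagonal (fun i => (s i : ℂ)) with hD
  set E : Matrix m m ℂ := Matrix.diagonal (fun i => ((s i)⁻¹ : ℂ)) with hE
  have hDs : Dᴴ = D := by
    rw [hD, Matrix.diagonal_conjTranspose]
    congr 1
    funext i
    simp
  have hEs : Eᴴ = E := by
    rw [hE, Matrix.diagonal_conjTranspose]
    congr 1
    funext i
    simp
  have hsum : ((∑ i, lam i : ℝ) : ℂ) = (hsq ξ : ℝ) := by
    rw [a1_hsq_tr, hspec, Matrix.mul_assoc, Matrix.trace_mul_comm, Matrix.mul_assoc, hUU,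
      Matrix.mul_one, Matrix.trace_diagonal]
    push_cast
    rfl
  have hsum' : ∑ i, lam i = hsq ξ := by exact_mod_cast hsum
  have hdiag : ∀ f : m → ℝ, hsq (Matrix.diagonal (fun i => (f i : ℂ))) = ∑ i, f i ^ 2 := by
    intro f
    unfold hsq
    refine Finset.sum_congr rfl fun i _ => ?_
    rw [Finset.sum_eq_single i]
    · simp
    · intro j _ hj
      rw [Matrix.diagonal_apply_ne _ (Ne.symm hj)]
      simp
    · simp
  refine ⟨U * D, E * Uᴴ * ξ, ?_, ?_, ?_⟩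
  · -- ξ = U D E U* ξ
    set P : Matrix m m ℂ := U * (1 - D * E) * Uᴴ with hP
    have hzero : P * ξ = 0 := by
      have h1 : (P * ξ) * (P * ξ)ᴴ = 0 := by
        have h2 : (P * ξ) * (P * ξ)ᴴ = P * (ξ * ξᴴ) * Pᴴ := by
          rw [Matrix.conjTranspose_mul]
          simp only [Matrix.mul_assoc]
        have h3 : P * (ξ * ξᴴ) = 0 := by
          rw [hspec, hP]
          have : U * (1 - D * E) * Uᴴ * (U * Matrix.diagonal (fun i => (lam i : ℂ)) * Uᴴ) =
              U * ((1 - D * E) * (Uᴴ * U) * Matrix.diagonal (fun i => (lam i : ℂ))) * Uᴴ := by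
            simp only [Matrix.mul_assoc]
          rw [this, hUU, Matrix.mul_one]
          have h0 : (1 - D * E) * Matrix.diagonal (fun i => (lam i : ℂ)) = 0 := by
            rw [hD, hE, Matrix.diagonal_mul_diagonal, ← Matrix.diagonal_one, Matrix.diagonal_sub,
              Matrix.diagonal_mul_diagonal, ← Matrix.diagonal_zero]
            congr 1
            funext i
            by_cases hi : s i = 0
            · rw [hs0 i hi]; simp
            · have : (s i : ℂ) ≠ 0 := by exact_mod_cast hi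
              rw [mul_inv_cancel₀ this]; simp
          rw [h0]; simp
        rw [h2, h3, Matrix.zero_mul]
      exact Matrix.self_mul_conjTranspose_eq_zero.1 h1
    have hP2 : P * ξ = ξ - U * D * (E * Uᴴ * ξ) := by
      rw [hP]
      have : U * (1 - D * E) * Uᴴ * ξ = (U * Uᴴ) * ξ - U * D * (E * Uᴴ * ξ) := by
        rw [Matrix.mul_sub, Matrix.sub_mul, Matrix.sub_mul, Matrix.mul_one]
        simp only [Matrix.mul_assoc]
      rw [this, hUU', Matrix.one_mul]
    rw [hP2] at hzero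
    exact sub_eq_zero.1 hzero
  · rw [← a1_hsq_gram]
    have h1 : (U * D)ᴴ * (U * D) = Matrix.diagonal (fun i => ((Real.sqrt (lam i) : ℝ) : ℂ)) := by
      rw [Matrix.conjTranspose_mul, hDs]
      have : D * Uᴴ * (U * D) = D * (Uᴴ * U) * D := by simp only [Matrix.mul_assoc]
      rw [this, hUU, Matrix.mul_one, hD, Matrix.diagonal_mul_diagonal]
      congr 1
      funext i
      rw [← hs4 i]; push_cast; rfl
    rw [h1, hdiag, ← hsum']
    exact le_of_eq (Finset.sum_congr rfl fun i _ => Real.sq_sqrt (hlam0 i))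
  · rw [a1_hsq_gram]
    have h1 : (E * Uᴴ * ξ) * (E * Uᴴ * ξ)ᴴ =
        Matrix.diagonal (fun i => ((Real.sqrt (lam i) : ℝ) : ℂ)) := by
      have h2 : (E * Uᴴ * ξ) * (E * Uᴴ * ξ)ᴴ = E * Uᴴ * (ξ * ξᴴ) * (U * E) := by
        rw [Matrix.conjTranspose_mul, Matrix.conjTranspose_mul, Matrix.conjTranspose_conjTranspose,
          hEs]
        simp only [Matrix.mul_assoc]
      rw [h2, hspec]
      have h3 : E * Uᴴ * (U * Matrix.diagonal (fun i => (lam i : ℂ)) * Uᴴ) * (U * E) =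
          E * (Uᴴ * U) * Matrix.diagonal (fun i => (lam i : ℂ)) * (Uᴴ * U) * E := by
        simp only [Matrix.mul_assoc]
      rw [h3, hUU, Matrix.mul_one, Matrix.mul_one, hE, Matrix.diagonal_mul_diagonal,
        Matrix.diagonal_mul_diagonal]
      congr 1
      funext i
      by_cases hi : s i = 0
      · rw [hi, hs0 i hi]; simp
      · have h4 : (s i : ℂ) ≠ 0 := by exact_mod_cast hi
        have h5 : (lam i : ℂ) = (s i : ℂ) * s i * (s i * s i) := by
          have : lam i = (s i * s i) * (s i * s i) := by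
            rw [hs4, Real.mul_self_sqrt (hlam0 i)]
          rw [this]; push_cast; ring
        rw [← hs4 i, h5]
        push_cast
        field_simp
    rw [h1, hdiag, ← hsum']
    exact le_of_eq (Finset.sum_congr rfl fun i _ => Real.sq_sqrt (hlam0 i))

private theorem a1_form {z : ι → Matrix m m ℂ} {κ : ℝ} (hz : KappaLE z κ)
    (a : Matrix m l ℂ) (b : Matrix m k ℂ) {s t : ℝ} (hκ : 0 ≤ κ)
    (ha : hsq (a * aᴴ) ≤ s) (hb : hsq (b * bᴴ) ≤ t) :
    ∑ p, hsq (bᴴ * z p * a) ≤ κ * (Real.sqrt s * Real.sqrt t) := by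
  have h1 : ((∑ p, hsq (bᴴ * z p * a) : ℝ) : ℂ) =
      ∑ p, ((b * bᴴ)ᴴ * z p * (a * aᴴ) * (z p)ᴴ).trace := by
    push_cast
    refine Finset.sum_congr rfl fun p _ => ?_
    rw [a1_hsq_tr]
    simp only [Matrix.conjTranspose_mul, Matrix.conjTranspose_conjTranspose]
    rw [show bᴴ * z p * a * (aᴴ * ((z p)ᴴ * b)) = (bᴴ * z p * a * aᴴ * (z p)ᴴ) * b by
      simp only [Matrix.mul_assoc], Matrix.trace_mul_comm]
    simp only [Matrix.mul_assoc]
  have h2 : ∑ p, hsq (bᴴ * z p * a) ≤ κ * (hsn (a * aᴴ) * hsn (b * bᴴ)) := by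
    have h3 := hz (a * aᴴ) (b * bᴴ)
    rw [← h1, Complex.norm_real] at h3
    exact (le_abs_self _).trans h3
  refine h2.trans (mul_le_mul_of_nonneg_left ?_ hκ)
  exact mul_le_mul (Real.sqrt_le_sqrt ha) (Real.sqrt_le_sqrt hb) (Real.sqrt_nonneg _)
    (Real.sqrt_nonneg _)

end A1aux

section A
variable {m k ι : Type*} [Fintype m] [DecidableEq m] [Fintype k] [DecidableEq k] [Fintype ι]

/-- MODULE A1 (file KappaCS.lean). -/
theorem kappaCS {z : ι → Matrix m m ℂ} {x : ι → Matrix k k ℂ} {κ κ' : ℝ} (hκ : 0 ≤ κ)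
    (hκ' : 0 ≤ κ') (hz : KappaLE z κ) (hx : KappaLE x κ') (ξ η : Matrix m k ℂ) :
    ‖∑ p, (ηᴴ * z p * ξ * (x p)ᵀ).trace‖ ≤ Real.sqrt (κ * κ') * (hsn ξ * hsn η) := by
  obtain ⟨a₁, a₂, hξ, ha₁, ha₂⟩ := a1_factor ξ
  obtain ⟨b₁, b₂, hη, hb₁, hb₂⟩ := a1_factor η
  have h1 : ∑ p, (ηᴴ * z p * ξ * (x p)ᵀ).trace =
      ∑ p, ((b₁ᴴ * z p * a₁) * (a₂ * (x p)ᵀ * b₂ᴴ)).trace := by
    refine Finset.sum_congr rfl fun p _ => ?_
    conv_lhs => rw [hξ, hη]
    rw [Matrix.conjTranspose_mul]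
    rw [show b₂ᴴ * b₁ᴴ * z p * (a₁ * a₂) * (x p)ᵀ = b₂ᴴ * (b₁ᴴ * z p * a₁ * (a₂ * (x p)ᵀ)) by
      simp only [Matrix.mul_assoc], Matrix.trace_mul_comm]
    simp only [Matrix.mul_assoc]
  rw [h1]
  refine (a1_cs _ _).trans ?_
  have hA : ∑ p, hsq (b₁ᴴ * z p * a₁) ≤ κ * (hsn ξ * hsn η) := a1_form hz a₁ b₁ hκ ha₁ hb₁
  have hB : ∑ p, hsq (a₂ * (x p)ᵀ * b₂ᴴ) ≤ κ' * (hsn ξ * hsn η) := by
    have e1 : ∀ p, hsq (a₂ * (x p)ᵀ * b₂ᴴ) = hsq ((b₂ᵀ)ᴴ * x p * a₂ᵀ) := by
      intro p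
      rw [← a1_hsq_T, Matrix.transpose_mul, Matrix.transpose_mul, Matrix.transpose_transpose,
        Matrix.conjTranspose_transpose, ← Matrix.mul_assoc]
      rfl
    have e2 : ∀ c : Matrix m k ℂ, hsq (cᵀ * (cᵀ)ᴴ) = hsq (cᴴ * c) := by
      intro c
      rw [← a1_hsq_T (cᴴ * c), Matrix.transpose_mul]
      rfl
    rw [Finset.sum_congr rfl fun p _ => e1 p]
    exact a1_form hx a₂ᵀ b₂ᵀ hκ' (by rw [e2]; exact ha₂) (by rw [e2]; exact hb₂)
  have h0 : 0 ≤ hsn ξ * hsn η := mul_nonneg (Real.sqrt_nonneg _) (Real.sqrt_nonneg _)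
  calc Real.sqrt (∑ p, hsq (b₁ᴴ * z p * a₁)) * Real.sqrt (∑ p, hsq (a₂ * (x p)ᵀ * b₂ᴴ))
      ≤ Real.sqrt (κ * (hsn ξ * hsn η)) * Real.sqrt (κ' * (hsn ξ * hsn η)) :=
        mul_le_mul (Real.sqrt_le_sqrt hA) (Real.sqrt_le_sqrt hB) (Real.sqrt_nonneg _)
          (Real.sqrt_nonneg _)
    _ = Real.sqrt (κ * κ') * (hsn ξ * hsn η) := by
        rw [← Real.sqrt_mul (mul_nonneg hκ h0),
          show κ * (hsn ξ * hsn η) * (κ' * (hsn ξ * hsn η)) =
            (κ * κ') * (hsn ξ * hsn η) ^ 2 by ring,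
          Real.sqrt_mul (mul_nonneg hκ hκ'), Real.sqrt_sq h0]

private theorem a1_kron (z : ι → Matrix m m ℂ) (u : EuclideanSpace ℂ (m × m)) (a b : m) :
    (Matrix.toEuclideanCLM (n := m × m) (𝕜 := ℂ)
      (∑ p, kron2 (z p) ((z p).map (starRingEnd ℂ))) u) (a, b) =
      ∑ p, (z p * (Matrix.of fun i j => u (i, j)) * (z p)ᴴ) a b := by
  rw [Matrix.ofLp_toEuclideanCLM]
  simp only [Matrix.mulVec, dotProduct, Matrix.sum_apply, Finset.sum_mul]
  rw [Finset.sum_comm]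
  refine Finset.sum_congr rfl fun p _ => ?_
  rw [Fintype.sum_prod_type, Finset.sum_comm]
  simp only [Matrix.mul_apply, Finset.sum_mul]
  refine Finset.sum_congr rfl fun j _ => Finset.sum_congr rfl fun i _ => ?_
  simp only [kron2, Matrix.of_apply, Matrix.map_apply, Matrix.conjTranspose_apply,
    Complex.star_def]
  ring

private theorem a1_inner (z : ι → Matrix m m ℂ) (u v : EuclideanSpace ℂ (m × m)) :
    ⟪v, Matrix.toEuclideanCLM (n := m × m) (𝕜 := ℂ)
      (∑ p, kron2 (z p) ((z p).map (starRingEnd ℂ))) u⟫_ℂ =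
      ∑ p, ((Matrix.of fun i j => v (i, j))ᴴ * z p * (Matrix.of fun i j => u (i, j)) *
        (z p)ᴴ).trace := by
  rw [PiLp.inner_apply, Fintype.sum_prod_type]
  simp only [a1_kron, RCLike.inner_apply, Finset.sum_mul]
  rw [Finset.sum_congr rfl fun a _ => Finset.sum_comm, Finset.sum_comm]
  refine Finset.sum_congr rfl fun p _ => ?_
  rw [show (Matrix.of fun i j => v (i, j))ᴴ * z p * (Matrix.of fun i j => u (i, j)) * (z p)ᴴ =
    (Matrix.of fun i j => v (i, j))ᴴ * (z p * (Matrix.of fun i j => u (i, j)) * (z p)ᴴ) by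
      simp only [Matrix.mul_assoc]]
  simp only [Matrix.trace, Matrix.diag_apply]
  rw [Finset.sum_comm]
  refine Finset.sum_congr rfl fun b _ => ?_
  rw [Matrix.mul_apply]
  refine Finset.sum_congr rfl fun a _ => ?_
  simp only [Matrix.conjTranspose_apply, Matrix.of_apply, Complex.star_def]
  ring

omit [DecidableEq m] in
private theorem a1_norm (u : EuclideanSpace ℂ (m × m)) :
    hsn (Matrix.of fun i j => u (i, j)) = ‖u‖ := by
  rw [EuclideanSpace.norm_eq, Fintype.sum_prod_type]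
  rfl

/-- MODULE A1. -/
theorem kappaLE_iff (z : ι → Matrix m m ℂ) {κ : ℝ} (hκ : 0 ≤ κ) : KappaLE z κ ↔ kap z ≤ κ := by
  set T := Matrix.toEuclideanCLM (n := m × m) (𝕜 := ℂ)
    (∑ p, kron2 (z p) ((z p).map (starRingEnd ℂ))) with hT
  have hk : kap z = ‖T‖ := rfl
  rw [hk]
  constructor
  · intro h
    refine ContinuousLinearMap.opNorm_le_bound _ hκ fun u => ?_
    have h1 := h (Matrix.of fun i j => u (i, j)) (Matrix.of fun i j => (T u) (i, j))
    rw [← a1_inner z u (T u), a1_norm, a1_norm, ← hT, inner_self_eq_norm_sq_to_K] at h1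
    have h2 : ‖T u‖ ^ 2 ≤ κ * (‖u‖ * ‖T u‖) := by
      refine le_trans (le_of_eq ?_) h1
      rw [norm_pow]
      simp
    by_cases h0 : ‖T u‖ = 0
    · rw [h0]; positivity
    · have h3 : 0 < ‖T u‖ := lt_of_le_of_ne (norm_nonneg _) (Ne.symm h0)
      have h4 : ‖T u‖ * ‖T u‖ ≤ (κ * ‖u‖) * ‖T u‖ := by nlinarith
      exact le_of_mul_le_mul_right h4 h3
  · intro h u v
    set u' : EuclideanSpace ℂ (m × m) := WithLp.toLp 2 fun q => u q.1 q.2 with hu'
    set v' : EuclideanSpace ℂ (m × m) := WithLp.toLp 2 fun q => v q.1 q.2 with hv'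
    have eu : (Matrix.of fun i j => u' (i, j)) = u := rfl
    have ev : (Matrix.of fun i j => v' (i, j)) = v := rfl
    have h1 := a1_inner z u' v'
    rw [eu, ev] at h1
    have nu := a1_norm u'
    have nv := a1_norm v'
    rw [eu] at nu
    rw [ev] at nv
    rw [← h1, nu, nv, ← hT]
    calc ‖⟪v', T u'⟫_ℂ‖ ≤ ‖v'‖ * ‖T u'‖ := norm_inner_le_norm _ _
      _ ≤ ‖v'‖ * (‖T‖ * ‖u'‖) := by
          exact mul_le_mul_of_nonneg_left (T.le_opNorm _) (norm_nonneg _)
      _ ≤ ‖v'‖ * (κ * ‖u'‖) := by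
          exact mul_le_mul_of_nonneg_left
            (mul_le_mul_of_nonneg_right h (norm_nonneg _)) (norm_nonneg _)
      _ = κ * (‖u'‖ * ‖v'‖) := by ring

end A

end OH246
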