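import Pool.Agent.OH246.Defs
import Pool.Agent.OH246.KappaCS
import Pool.Agent.OH246.DualNorm

/-!
# OH246, module A4: from the dual norm to the complete isometry
-/

open scoped BigOperators ComplexOrder Matrix InnerProductSpace Topology ENNReal
open Filter MeasureTheory

noncomputable section

set_option linter.unusedSectionVars false

namespace OH246

section CI

variable {m k ι : Type*} [Fintype m] [DecidableEq m] [Fintype k] [DecidableEq k] [Fintype ι]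

/-- the vector of a matrix -/
private def cvec (ξ : Matrix m k ℂ) : EuclideanSpace ℂ (k × m) :=
  WithLp.toLp 2 fun s => ξ s.2 s.1

private theorem norm_cvec (ξ : Matrix m k ℂ) : ‖cvec ξ‖ = hsn ξ := by
  rw [EuclideanSpace.norm_eq, hsn, hsq]
  congr 1
  rw [Fintype.sum_prod_type, Finset.sum_comm]
  rfl

private theorem cvec_surj (v : EuclideanSpace ℂ (k × m)) :
    ∃ ξ : Matrix m k ℂ, cvec ξ = v :=
  ⟨Matrix.of fun i j => v (j, i), by ext s; rfl⟩

private theorem inner_cvec (x : Matrix k k ℂ) (z : Matrix m m ℂ) (ξ η : Matrix m k ℂ) :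
    ⟪cvec η, Matrix.toEuclideanCLM (n := k × m) (𝕜 := ℂ) (kron2 x z) (cvec ξ)⟫_ℂ =
      (ηᴴ * z * ξ * xᵀ).trace := by
  have h1 : ∀ s : k × m, (Matrix.toEuclideanCLM (n := k × m) (𝕜 := ℂ) (kron2 x z) (cvec ξ)) s =
      ∑ t : k × m, x s.1 t.1 * z s.2 t.2 * ξ t.2 t.1 := by
    intro s
    rfl
  rw [PiLp.inner_apply]
  simp only [h1]
  rw [Fintype.sum_prod_type, Matrix.trace]
  refine Finset.sum_congr rfl fun i _ => ?_
  rw [Matrix.diag_apply, Matrix.mul_apply]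
  simp only [Matrix.mul_apply, Matrix.transpose_apply, Matrix.conjTranspose_apply,
    Finset.sum_mul]
  simp only [RCLike.inner_apply, Fintype.sum_prod_type, Finset.sum_mul, cvec]
  rw [Finset.sum_comm]
  refine Finset.sum_congr rfl fun j _ => ?_
  rw [Finset.sum_comm]
  refine Finset.sum_congr rfl fun l _ => ?_
  refine Finset.sum_congr rfl fun p _ => ?_
  rw [← starRingEnd_apply]
  ring

private theorem inner_cvec_sum (x : ι → Matrix k k ℂ) (z : ι → Matrix m m ℂ)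
    (ξ η : Matrix m k ℂ) :
    ⟪cvec η, Matrix.toEuclideanCLM (n := k × m) (𝕜 := ℂ) (∑ p, kron2 (x p) (z p))
      (cvec ξ)⟫_ℂ = ∑ p, (ηᴴ * z p * ξ * (x p)ᵀ).trace := by
  rw [map_sum, sum_apply, inner_sum]
  exact Finset.sum_congr rfl fun p _ => inner_cvec _ _ _ _

private theorem trace_cycle (x : Matrix k k ℂ) (z : Matrix m m ℂ) (ξ η : Matrix m k ℂ) :
    (ηᴴ * z * ξ * xᵀ).trace = (ξ * xᵀ * ηᴴ * z).trace := by
  rw [Matrix.mul_assoc (ηᴴ * z), Matrix.trace_mul_comm, ← Matrix.mul_assoc]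

private theorem le_opn (x : ι → Matrix k k ℂ) (z : ι → Matrix m m ℂ) (ξ η : Matrix m k ℂ) :
    ‖∑ p, (ηᴴ * z p * ξ * (x p)ᵀ).trace‖ ≤
      opn (∑ p, kron2 (x p) (z p)) * (hsn ξ * hsn η) := by
  rw [← inner_cvec_sum, ← norm_cvec ξ, ← norm_cvec η]
  refine (norm_inner_le_norm _ _).trans ?_
  have h := (Matrix.toEuclideanCLM (n := k × m) (𝕜 := ℂ)
    (∑ p, kron2 (x p) (z p))).le_opNorm (cvec ξ)
  calc _ ≤ ‖cvec η‖ * (opn (∑ p, kron2 (x p) (z p)) * ‖cvec ξ‖) :=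
        mul_le_mul_of_nonneg_left h (norm_nonneg _)
    _ = _ := by ring

private theorem opn_le {x : ι → Matrix k k ℂ} {z : ι → Matrix m m ℂ} {C : ℝ} (hC : 0 ≤ C)
    (h : ∀ ξ η : Matrix m k ℂ, ‖∑ p, (ηᴴ * z p * ξ * (x p)ᵀ).trace‖ ≤ C * (hsn ξ * hsn η)) :
    opn (∑ p, kron2 (x p) (z p)) ≤ C := by
  refine ContinuousLinearMap.opNorm_le_bound _ hC fun v => ?_
  obtain ⟨ξ, rfl⟩ := cvec_surj v
  obtain ⟨η, hη⟩ := cvec_surj (Matrix.toEuclideanCLM (n := k × m) (𝕜 := ℂ)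
    (∑ p, kron2 (x p) (z p)) (cvec ξ))
  have h1 := h ξ η
  rw [← inner_cvec_sum, hη, ← norm_cvec ξ, ← norm_cvec η, hη] at h1
  rw [inner_self_eq_norm_sq_to_K] at h1
  set T := ‖Matrix.toEuclideanCLM (n := k × m) (𝕜 := ℂ) (∑ p, kron2 (x p) (z p)) (cvec ξ)‖
    with hT
  have h2 : ‖((T : ℝ) : ℂ) ^ 2‖ = T ^ 2 := by
    rw [norm_pow, Complex.norm_real, Real.norm_eq_abs, sq_abs]
  have h3 : T ^ 2 ≤ C * (‖cvec ξ‖ * T) := by
    rw [← h2]; exact h1
  have hT0 : 0 ≤ T := norm_nonneg _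
  rcases hT0.eq_or_lt with h0 | h0
  · rw [← h0]; positivity
  · have h4 : T * T ≤ C * ‖cvec ξ‖ * T := by nlinarith
    exact le_of_mul_le_mul_right h4 h0

private theorem opn_nonneg (M : Matrix m m ℂ) : 0 ≤ opn M := norm_nonneg _

private theorem hsn_conj (u : Matrix m k ℂ) : hsn (u.map (starRingEnd ℂ)) = hsn u := by
  simp [hsn, hsq]

private theorem kappaLE_conj {z : ι → Matrix m m ℂ} {κ : ℝ} (h : KappaLE z κ) :
    KappaLE (fun p => (z p).map (starRingEnd ℂ)) κ := by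
  intro u v
  have h1 := h (u.map (starRingEnd ℂ)) (v.map (starRingEnd ℂ))
  rw [hsn_conj, hsn_conj] at h1
  refine le_trans (le_of_eq ?_) h1
  rw [← RCLike.norm_conj (∑ p, ((v.map (starRingEnd ℂ))ᴴ * z p * u.map (starRingEnd ℂ) *
    (z p)ᴴ).trace), map_sum]
  congr 1
  refine Finset.sum_congr rfl fun p _ => ?_
  simp only [Matrix.trace, Matrix.diag_apply, Matrix.mul_apply, Matrix.conjTranspose_apply,
    Matrix.map_apply, map_sum, map_mul, ← starRingEnd_apply, Complex.conj_conj]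

end CI

/-- Upper bound, Step 6 (a), (b). -/
private theorem trace_le_sqrt_kap {m k ι : Type*} [Fintype m] [DecidableEq m] [Fintype k]
    [DecidableEq k] [Fintype ι] (x : ι → Matrix k k ℂ) {z : ι → Matrix m m ℂ}
    (hz : KappaLE z 1) (ξ η : Matrix m k ℂ) :
    ‖∑ p, (ηᴴ * z p * ξ * (x p)ᵀ).trace‖ ≤ Real.sqrt (kap x) * (hsn ξ * hsn η) := by
  have h0 : 0 ≤ kap x := opn_nonneg _
  have h := kappaCS zero_le_one h0 hz ((kappaLE_iff x h0).2 le_rfl) ξ η
  rwa [one_mul] at h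

/-- MODULE A4. -/
theorem ci_of_core {ι : Type*} [Fintype ι] (Q : (m : ℕ) → Set (ι → Matrix (Fin m) (Fin m) ℂ))
    (hQ : ∀ (m : ℕ) (w : ι → Matrix (Fin m) (Fin m) ℂ),
      IsLUB {r | ∃ z ∈ Q m, r = ‖∑ p, (w p * z p).trace‖} (dualNorm w))
    (n : ℕ) (x : ι → Matrix (Fin n) (Fin n) ℂ) :
    IsLUB {r | ∃ m : ℕ, ∃ z ∈ Q m, r = opn (∑ p, kron2 (x p) (z p))} (Real.sqrt (kap x)) := by
  have hkap : 0 ≤ kap x := opn_nonneg _
  constructor
  · rintro r ⟨m, z, hz, rfl⟩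
    refine opn_le (Real.sqrt_nonneg _) fun ξ η => ?_
    have h1 : ‖∑ p, ((ξ * (x p)ᵀ * ηᴴ) * z p).trace‖ ≤
        dualNorm (fun p => ξ * (x p)ᵀ * ηᴴ) := (hQ m _).1 ⟨z, hz, rfl⟩
    have h2 : dualNorm (fun p => ξ * (x p)ᵀ * ηᴴ) ≤ Real.sqrt (kap x) * (hsn ξ * hsn η) := by
      refine Real.sSup_le ?_ ?_
      · rintro r ⟨z', hz', rfl⟩
        have h3 := trace_le_sqrt_kap x hz' ξ η
        simp only [trace_cycle] at h3
        exact h3
      · exact mul_nonneg (Real.sqrt_nonneg _)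
          (mul_nonneg (Real.sqrt_nonneg _) (Real.sqrt_nonneg _))
    simp only [trace_cycle]
    exact h1.trans h2
  · intro B hB
    -- the bound is nonnegative
    have hB0 : 0 ≤ B := by
      obtain ⟨r, z, hz, -⟩ := (hQ n 0).nonempty
      exact (opn_nonneg _).trans (hB ⟨n, z, hz, rfl⟩)
    have h1 : ∀ ξ η : Matrix (Fin n) (Fin n) ℂ,
        dualNorm (fun p => ξ * (x p)ᵀ * ηᴴ) ≤ B * (hsn ξ * hsn η) := by
      intro ξ η
      refine (hQ n _).2 ?_
      rintro r ⟨z, hz, rfl⟩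
      have h2 := le_opn x z ξ η
      simp only [trace_cycle] at h2
      exact h2.trans (mul_le_mul_of_nonneg_right (hB ⟨n, z, hz, rfl⟩)
        (mul_nonneg (Real.sqrt_nonneg _) (Real.sqrt_nonneg _)))
    have h2 : KappaLE (fun p => (x p).map (starRingEnd ℂ)) (kap x) :=
      kappaLE_conj ((kappaLE_iff x hkap).2 le_rfl)
    have h3 : kap x ≤ Real.sqrt (kap x) * B := by
      refine opn_le (x := x) (z := fun p => (x p).map (starRingEnd ℂ))
        (mul_nonneg (Real.sqrt_nonneg _) hB0) fun ξ η => ?_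
      have h4 := le_dualNorm (fun p => ξ * (x p)ᵀ * ηᴴ) _ hkap h2
      have h5 := mul_le_mul_of_nonneg_left (h1 ξ η) (Real.sqrt_nonneg (kap x))
      simp only [trace_cycle]
      rw [mul_assoc]
      exact h4.trans h5
    rcases hkap.eq_or_lt with h0 | h0
    · rw [← h0, Real.sqrt_zero]; exact hB0
    · have hs : 0 < Real.sqrt (kap x) := Real.sqrt_pos.2 h0
      have h6 : Real.sqrt (kap x) * Real.sqrt (kap x) = kap x := Real.mul_self_sqrt hkap
      rw [← h6] at h3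
      have h7 : Real.sqrt (Real.sqrt (kap x) * Real.sqrt (kap x)) = Real.sqrt (kap x) := by
        rw [h6]
      rw [h7] at h3
      exact le_of_mul_le_mul_left h3 hs

end OH246
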