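import Pool.Agent.OH246.Defs

open scoped BigOperators ComplexOrder Matrix InnerProductSpace Topology ENNReal
open Filter MeasureTheory

noncomputable section

namespace OH246

attribute [local instance] CStarAlgebra.spectralOrder CStarAlgebra.spectralOrderedRing

private theorem csE_int {x : ℝ} (hx : 0 ≤ x) :
    ∫ y in Set.Ioi (0 : ℝ), x / (y ^ 2 + x) = Real.pi / 2 * Real.sqrt x := by
  rcases hx.eq_or_lt with h | h
  · subst h; simp
  · set s := Real.sqrt x with hs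
    have hs0 : 0 < s := Real.sqrt_pos.mpr h
    have hsq : s ^ 2 = x := Real.sq_sqrt hx
    have h1 : ∀ y : ℝ, x / (y ^ 2 + x) = (1 + (s⁻¹ * y) ^ 2)⁻¹ := by
      intro y
      rw [← hsq]
      field_simp
      ring
    simp_rw [h1]
    have := integral_comp_mul_left_Ioi (fun t : ℝ => (1 + t ^ 2)⁻¹) 0 (inv_pos.mpr hs0)
    rw [this, mul_zero, integral_Ioi_inv_one_add_sq]
    simp only [Real.arctan_zero, sub_zero, smul_eq_mul, inv_inv, abs_of_pos hs0]
    ring

private theorem csE_bound {x y K : ℝ} (hx : 0 ≤ x) (hK : x ≤ K) (hy : 0 < y) :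
    ‖x / (y ^ 2 + x)‖ ≤ (1 + K) * (1 + y ^ 2)⁻¹ := by
  have h1 : 0 < y ^ 2 + x := by positivity
  have h2 : 0 < 1 + y ^ 2 := by positivity
  rw [Real.norm_of_nonneg (div_nonneg hx h1.le), ← div_eq_mul_inv, div_le_div_iff₀ h1 h2]
  have h3 : x * y ^ 2 ≤ K * y ^ 2 := mul_le_mul_of_nonneg_right hK (by positivity)
  have h4 : 0 ≤ K * x := mul_nonneg (hx.trans hK) hx
  nlinarith [sq_nonneg y]

section
variable {𝔐 : Type*} [CStarAlgebra 𝔐] (T : 𝔐 →ₗ[ℂ] ℂ) (Tpos : ∀ x, 0 ≤ T (star x * x))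

include Tpos

private theorem csE_nonneg {x : 𝔐} (hx : 0 ≤ x) : 0 ≤ T x := by
  obtain ⟨s, rfl⟩ := CStarAlgebra.nonneg_iff_eq_star_mul_self.mp hx
  exact Tpos s

private theorem csE_cont : Continuous T := by
  let f : 𝔐 →ₚ[ℂ] ℂ := PositiveLinearMap.mk₀ T (fun x hx => csE_nonneg T Tpos hx)
  obtain ⟨C, hC⟩ := PositiveLinearMap.exists_norm_apply_le f
  exact (LinearMap.mkContinuousOfExistsBound T ⟨C, hC⟩).continuous

private theorem csE_mono {x y : 𝔐} (hxy : x ≤ y) : (T x).re ≤ (T y).re := by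
  have h : 0 ≤ T (y - x) := csE_nonneg T Tpos (sub_nonneg.mpr hxy)
  have h2 := (Complex.le_def.mp h).1
  rw [map_sub] at h2
  simpa using h2

end

theorem cstar_trace {𝔐 : Type*} [CStarAlgebra 𝔐] (T : 𝔐 →ₗ[ℂ] ℂ)
    (Tpos : ∀ x, 0 ≤ T (star x * x)) (X : 𝔐) :
    ∃ R : ℝ → 𝔐, (∀ y : ℝ, 0 < y → (((y : ℂ) ^ 2) • (1 : 𝔐) + X * star X) * R y = 1 ∧
      R y * (((y : ℂ) ^ 2) • (1 : 𝔐) + X * star X) = 1) ∧
    ContinuousOn (fun y : ℝ => (T (1 - ((y : ℂ) ^ 2) • R y)).re) (Set.Ioi 0) ∧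
    ∀ e > 0, ∃ Q P b c : 𝔐, Q * P = X ∧
      (T (star Q * Q)).re ≤ 2 / Real.pi * (∫ y in Set.Ioi (0 : ℝ), (T (1 - ((y : ℂ) ^ 2) • R y)).re) + e ∧
      (T (P * star P)).re ≤ 2 / Real.pi * (∫ y in Set.Ioi (0 : ℝ), (T (1 - ((y : ℂ) ^ 2) • R y)).re) + e ∧
      star b * b + star c * c = 1 ∧
      2 / Real.pi * (∫ y in Set.Ioi (0 : ℝ), (T (1 - ((y : ℂ) ^ 2) • R y)).re) - e ≤
        (T (X * b)).re := by
  set a : 𝔐 := X * star X with ha
  have ha0 : 0 ≤ a := mul_star_self_nonneg X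
  have hsa : IsSelfAdjoint a := .of_nonneg ha0
  have hsp : ∀ x ∈ spectrum ℝ a, 0 ≤ x := fun x hx => spectrum_nonneg_of_nonneg ha0 hx
  have hspK : ∀ x ∈ spectrum ℝ a, x ≤ ‖a‖ * ‖(1 : 𝔐)‖ := by
    intro x hx
    exact (le_abs_self x).trans (by simpa using spectrum.norm_le_norm_mul_of_mem hx)
  -- the shifted element
  have hshift : ∀ y : ℝ, ((y : ℂ) ^ 2) • (1 : 𝔐) + a = cfc (fun x : ℝ => y ^ 2 + x) a := by
    intro y
    rw [cfc_const_add _ _ a (by fun_prop), cfc_id' ℝ a, Algebra.algebraMap_eq_smul_one]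
    congr 1
    rw [← Complex.coe_smul]
    norm_num
  let R : ℝ → 𝔐 := fun y => cfc (fun x : ℝ => (y ^ 2 + x)⁻¹) a
  have hcR : ∀ y : ℝ, 0 < y → ContinuousOn (fun x : ℝ => (y ^ 2 + x)⁻¹) (spectrum ℝ a) := by
    intro y hy
    refine ContinuousOn.inv₀ (by fun_prop) ?_
    intro x hx
    have := hsp x hx
    positivity
  have hR1 : ∀ y : ℝ, 0 < y → cfc (fun x : ℝ => y ^ 2 + x) a * R y = 1 := by
    intro y hy
    rw [← cfc_mul _ _ a (by fun_prop) (hcR y hy)]
    rw [← cfc_const_one ℝ a]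
    refine cfc_congr ?_
    intro x hx
    have h := hsp x hx
    have : y ^ 2 + x ≠ 0 := by positivity
    exact mul_inv_cancel₀ this
  have hR2 : ∀ y : ℝ, 0 < y → R y * cfc (fun x : ℝ => y ^ 2 + x) a = 1 := by
    intro y hy
    rw [← cfc_mul _ _ a (hcR y hy) (by fun_prop)]
    rw [← cfc_const_one ℝ a]
    refine cfc_congr ?_
    intro x hx
    have h := hsp x hx
    have : y ^ 2 + x ≠ 0 := by positivity
    exact inv_mul_cancel₀ this
  have hf : ∀ y : ℝ, 0 < y → 1 - ((y : ℂ) ^ 2) • R y = cfc (fun x : ℝ => x / (y ^ 2 + x)) a := by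
    intro y hy
    have e1 : ((y : ℂ) ^ 2) • R y = cfc (fun x : ℝ => y ^ 2 * (y ^ 2 + x)⁻¹) a := by
      rw [cfc_const_mul _ _ a (hcR y hy), ← Complex.coe_smul]
      norm_num [R]
    rw [e1, ← cfc_const_one ℝ a, ← cfc_sub (fun _ => (1 : ℝ)) (fun x : ℝ => y ^ 2 * (y ^ 2 + x)⁻¹)
      a (by fun_prop) (continuousOn_const.mul (hcR y hy))]
    refine cfc_congr ?_
    intro x hx
    have h := hsp x hx
    have : y ^ 2 + x ≠ 0 := by positivity
    simp only
    field_simp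
    ring
  have hTc : Continuous T := csE_cont T Tpos
  have hfc : ContinuousOn (Function.uncurry fun (y x : ℝ) => x / (y ^ 2 + x))
      (Set.Ioi 0 ×ˢ spectrum ℝ a) := by
    refine ContinuousOn.div (by fun_prop) (by fun_prop) ?_
    rintro ⟨y, x⟩ ⟨hy, hx⟩
    have h := hsp x hx
    have hy' : 0 < y := hy
    simp only
    positivity
  let Tc : 𝔐 →L[ℂ] ℂ := ⟨T, hTc⟩
  let L : 𝔐 →L[ℝ] ℝ := Complex.reCLM.comp (Tc.restrictScalars ℝ)
  have hL : ∀ x, L x = (T x).re := fun x => rfl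
  have hbint : HasFiniteIntegral (fun y : ℝ => (1 + ‖a‖ * ‖(1 : 𝔐)‖) * (1 + y ^ 2)⁻¹)
      (volume.restrict (Set.Ioi 0)) :=
    ((integrable_inv_one_add_sq.const_mul (1 + ‖a‖ * ‖(1 : 𝔐)‖)).restrict).hasFiniteIntegral
  have hbd : ∀ᵐ y ∂(volume.restrict (Set.Ioi (0 : ℝ))), ∀ x ∈ spectrum ℝ a,
      ‖x / (y ^ 2 + x)‖ ≤ (1 + ‖a‖ * ‖(1 : 𝔐)‖) * (1 + y ^ 2)⁻¹ := by
    refine ae_restrict_of_forall_mem measurableSet_Ioi ?_
    intro y hy x hx
    exact csE_bound (hsp x hx) (hspK x hx) hy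
  have hint : IntegrableOn (fun y : ℝ => cfc (fun x : ℝ => x / (y ^ 2 + x)) a) (Set.Ioi 0) :=
    integrableOn_cfc measurableSet_Ioi (fun (y x : ℝ) => x / (y ^ 2 + x)) _ a hfc hbd hbint
  have hcfi : cfc (fun x : ℝ => ∫ y in Set.Ioi (0 : ℝ), x / (y ^ 2 + x)) a =
      ∫ y in Set.Ioi (0 : ℝ), cfc (fun x : ℝ => x / (y ^ 2 + x)) a :=
    cfc_setIntegral measurableSet_Ioi (fun (y x : ℝ) => x / (y ^ 2 + x)) _ a hfc hbd hbint
  have hsqrt : cfc (fun x : ℝ => ∫ y in Set.Ioi (0 : ℝ), x / (y ^ 2 + x)) a =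
      (Real.pi / 2) • cfc (fun x : ℝ => Real.sqrt x) a := by
    rw [← cfc_smul _ _ a (by fun_prop)]
    refine cfc_congr ?_
    intro x hx
    simp only [smul_eq_mul]
    exact csE_int (hsp x hx)
  have hI : (∫ y in Set.Ioi (0 : ℝ), (T (1 - ((y : ℂ) ^ 2) • R y)).re) =
      Real.pi / 2 * L (cfc (fun x : ℝ => Real.sqrt x) a) := by
    have e1 : (∫ y in Set.Ioi (0 : ℝ), (T (1 - ((y : ℂ) ^ 2) • R y)).re) =
        ∫ y in Set.Ioi (0 : ℝ), L (cfc (fun x : ℝ => x / (y ^ 2 + x)) a) := by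
      refine setIntegral_congr_fun measurableSet_Ioi ?_
      intro y hy
      simp only [hf y hy, hL]
    rw [e1, L.integral_comp_comm hint, ← hcfi, hsqrt, map_smul, smul_eq_mul]
  have hI2 : 2 / Real.pi * (∫ y in Set.Ioi (0 : ℝ), (T (1 - ((y : ℂ) ^ 2) • R y)).re) =
      L (cfc (fun x : ℝ => Real.sqrt x) a) := by
    rw [hI]
    have := Real.pi_pos
    field_simp
  refine ⟨R, fun y hy => ⟨?_, ?_⟩, ?_, ?_⟩
  · rw [hshift]; exact hR1 y hy
  · rw [hshift]; exact hR2 y hy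
  · have hRc : ContinuousOn R (Set.Ioi 0) := by
      intro y hy
      refine ContinuousAt.continuousWithinAt ?_
      have hy' : 0 < y := hy
      let u : 𝔐ˣ := ⟨((y : ℂ) ^ 2) • (1 : 𝔐) + a, R y, by rw [hshift]; exact hR1 y hy',
        by rw [hshift]; exact hR2 y hy'⟩
      have h1 : ContinuousAt (fun z : ℝ => Ring.inverse (((z : ℂ) ^ 2) • (1 : 𝔐) + a)) y := by
        have h2 : ContinuousAt Ring.inverse (u : 𝔐) := NormedRing.inverse_continuousAt u
        have h3 : ContinuousAt (fun z : ℝ => ((z : ℂ) ^ 2) • (1 : 𝔐) + a) y := by fun_prop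
        exact ContinuousAt.comp (f := fun z : ℝ => ((z : ℂ) ^ 2) • (1 : 𝔐) + a) h2 h3
      refine h1.congr ?_
      filter_upwards [Ioi_mem_nhds hy'] with z hz
      have hz' : 0 < z := hz
      let v : 𝔐ˣ := ⟨((z : ℂ) ^ 2) • (1 : 𝔐) + a, R z, by rw [hshift]; exact hR1 z hz',
        by rw [hshift]; exact hR2 z hz'⟩
      exact Ring.inverse_unit v
    have h5 : ContinuousOn (fun y : ℝ => 1 - ((y : ℂ) ^ 2) • R y) (Set.Ioi 0) := by
      refine continuousOn_const.sub (ContinuousOn.smul (by fun_prop) hRc)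
    exact L.continuous.comp_continuousOn h5
  · intro e he
    rw [hI2]
    have hT1 : 0 ≤ (T 1).re := by
      have := (Complex.le_def.mp (Tpos 1)).1
      simpa using this
    set η : ℝ := e / ((T 1).re + 1) with hη
    have hη0 : 0 < η := by positivity
    have hηe : η * (T 1).re ≤ e := by
      rw [hη, div_mul_eq_mul_div, div_le_iff₀ (by positivity)]
      nlinarith
    have hu : ∀ x ∈ spectrum ℝ a, 0 < Real.sqrt (x + η ^ 2) := fun x hx =>
      Real.sqrt_pos.mpr (by have := hsp x hx; positivity)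
    have husq : ∀ x ∈ spectrum ℝ a, Real.sqrt (x + η ^ 2) * Real.sqrt (x + η ^ 2) = x + η ^ 2 :=
      fun x hx => Real.mul_self_sqrt (by have := hsp x hx; positivity)
    have hc1 : ContinuousOn (fun x : ℝ => (Real.sqrt (x + η ^ 2))⁻¹) (spectrum ℝ a) :=
      ContinuousOn.inv₀ (by fun_prop) (fun x hx => (hu x hx).ne')
    have hc2 : ContinuousOn (fun x : ℝ => (Real.sqrt (Real.sqrt (x + η ^ 2)))⁻¹)
        (spectrum ℝ a) :=
      ContinuousOn.inv₀ (by fun_prop) (fun x hx => (Real.sqrt_pos.mpr (hu x hx)).ne')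
    have hc3 : ContinuousOn (fun x : ℝ => Real.sqrt (η ^ 2 * (x + η ^ 2)⁻¹)) (spectrum ℝ a) := by
      refine ContinuousOn.sqrt (continuousOn_const.mul (ContinuousOn.inv₀ (by fun_prop) ?_))
      intro x hx
      have := hsp x hx
      positivity
    have hc4 : ContinuousOn (fun x : ℝ => x * (Real.sqrt (x + η ^ 2))⁻¹) (spectrum ℝ a) :=
      continuousOn_id.mul hc1
    have hXg : ∀ g : ℝ → ℝ, ContinuousOn g (spectrum ℝ a) →
        a * cfc g a = cfc (fun x => x * g x) a := by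
      intro g hg
      rw [cfc_mul _ _ a (by fun_prop) hg, cfc_id' ℝ a]
    have hstar : ∀ g : ℝ → ℝ, star (cfc g a) = cfc g a := fun g =>
      (IsSelfAdjoint.cfc (f := g) (a := a)).star_eq
    -- key values
    have hPP : ∀ g : ℝ → ℝ, ContinuousOn g (spectrum ℝ a) →
        cfc g a * X * star (cfc g a * X) = cfc (fun x => g x * (x * g x)) a := by
      intro g hg
      rw [star_mul, hstar, cfc_mul g (fun x => x * g x) a hg (continuousOn_id.mul hg),
        ← hXg g hg, ha]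
      simp only [mul_assoc]
    have hmonoR : ∀ f g : ℝ → ℝ, ContinuousOn f (spectrum ℝ a) → ContinuousOn g (spectrum ℝ a) →
        (∀ x ∈ spectrum ℝ a, f x ≤ g x) → L (cfc f a) ≤ L (cfc g a) := by
      intro f g hf' hg' hfg
      exact csE_mono T Tpos (cfc_mono hfg hf' hg')
    have hLadd : ∀ f : ℝ → ℝ, ContinuousOn f (spectrum ℝ a) → ∀ r : ℝ,
        L (cfc (fun x => f x + r) a) = L (cfc f a) + r * (T 1).re := by
      intro f hf' r
      rw [cfc_add_const _ _ a hf', map_add, Algebra.algebraMap_eq_smul_one, map_smul, hL 1,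
        smul_eq_mul]
    refine ⟨cfc (fun x : ℝ => Real.sqrt (Real.sqrt (x + η ^ 2))) a,
      cfc (fun x : ℝ => (Real.sqrt (Real.sqrt (x + η ^ 2)))⁻¹) a * X,
      star X * cfc (fun x : ℝ => (Real.sqrt (x + η ^ 2))⁻¹) a,
      cfc (fun x : ℝ => Real.sqrt (η ^ 2 * (x + η ^ 2)⁻¹)) a, ?_, ?_, ?_, ?_, ?_⟩
    · rw [← mul_assoc, ← cfc_mul _ _ a (by fun_prop) hc2]
      have : cfc (fun x : ℝ => Real.sqrt (Real.sqrt (x + η ^ 2)) *
          (Real.sqrt (Real.sqrt (x + η ^ 2)))⁻¹) a = 1 := by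
        rw [← cfc_const_one ℝ a]
        refine cfc_congr ?_
        intro x hx
        exact mul_inv_cancel₀ (Real.sqrt_pos.mpr (hu x hx)).ne'
      rw [this, one_mul]
    · have e1 : star (cfc (fun x : ℝ => Real.sqrt (Real.sqrt (x + η ^ 2))) a) *
          cfc (fun x : ℝ => Real.sqrt (Real.sqrt (x + η ^ 2))) a =
          cfc (fun x : ℝ => Real.sqrt (x + η ^ 2)) a := by
        rw [hstar, ← cfc_mul _ _ a (by fun_prop) (by fun_prop)]
        refine cfc_congr ?_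
        intro x hx
        exact Real.mul_self_sqrt (hu x hx).le
      rw [e1, ← hL]
      calc L (cfc (fun x : ℝ => Real.sqrt (x + η ^ 2)) a)
          ≤ L (cfc (fun x : ℝ => Real.sqrt x + η) a) := by
            refine hmonoR _ _ (by fun_prop) (by fun_prop) ?_
            intro x hx
            have h0 := hsp x hx
            rw [Real.sqrt_le_left (by positivity)]
            nlinarith [Real.sq_sqrt h0, Real.sqrt_nonneg x]
        _ = L (cfc (fun x : ℝ => Real.sqrt x) a) + η * (T 1).re := hLadd _ (by fun_prop) η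
        _ ≤ _ := by linarith
    · rw [hPP _ hc2, ← hL]
      have : L (cfc (fun x : ℝ => (Real.sqrt (Real.sqrt (x + η ^ 2)))⁻¹ *
          (x * (Real.sqrt (Real.sqrt (x + η ^ 2)))⁻¹)) a) ≤
          L (cfc (fun x : ℝ => Real.sqrt x) a) := by
        refine hmonoR _ _ (hc2.mul (continuousOn_id.mul hc2)) (by fun_prop) ?_
        intro x hx
        have h0 := hsp x hx
        have h1 := hu x hx
        have h2 : (Real.sqrt (Real.sqrt (x + η ^ 2)))⁻¹ *
          (x * (Real.sqrt (Real.sqrt (x + η ^ 2)))⁻¹) = x / Real.sqrt (x + η ^ 2) := by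
          rw [mul_left_comm, ← mul_inv, Real.mul_self_sqrt h1.le, div_eq_mul_inv]
        rw [h2, div_le_iff₀ h1]
        calc x = Real.sqrt x * Real.sqrt x := (Real.mul_self_sqrt h0).symm
          _ ≤ Real.sqrt x * Real.sqrt (x + η ^ 2) := by
            gcongr
            nlinarith
      linarith
    · rw [star_mul, star_star, hstar, hstar]
      have e1 : cfc (fun x : ℝ => (Real.sqrt (x + η ^ 2))⁻¹) a * X *
          (star X * cfc (fun x : ℝ => (Real.sqrt (x + η ^ 2))⁻¹) a) =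
          cfc (fun x : ℝ => (Real.sqrt (x + η ^ 2))⁻¹ * (x * (Real.sqrt (x + η ^ 2))⁻¹)) a := by
        rw [cfc_mul _ (fun x => x * (Real.sqrt (x + η ^ 2))⁻¹) a hc1 hc4, ← hXg _ hc1, ha]
        simp only [mul_assoc]
      rw [e1, ← cfc_mul _ _ a hc3 hc3,
        ← cfc_add a (fun x : ℝ => (Real.sqrt (x + η ^ 2))⁻¹ * (x * (Real.sqrt (x + η ^ 2))⁻¹))
          (fun x : ℝ => Real.sqrt (η ^ 2 * (x + η ^ 2)⁻¹) * Real.sqrt (η ^ 2 * (x + η ^ 2)⁻¹))
          (hc1.mul hc4) (hc3.mul hc3),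
        ← cfc_const_one ℝ a]
      refine cfc_congr ?_
      intro x hx
      have h0 := hsp x hx
      have h1 := hu x hx
      have h3 : 0 < x + η ^ 2 := by positivity
      simp only
      rw [Real.mul_self_sqrt (by positivity), mul_left_comm, ← mul_inv, husq x hx]
      field_simp
    · have e1 : X * (star X * cfc (fun x : ℝ => (Real.sqrt (x + η ^ 2))⁻¹) a) =
          cfc (fun x : ℝ => x * (Real.sqrt (x + η ^ 2))⁻¹) a := by
        rw [← mul_assoc, ← ha, hXg _ hc1]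
      rw [e1, ← hL]
      have : L (cfc (fun x : ℝ => Real.sqrt x + (-η)) a) ≤
          L (cfc (fun x : ℝ => x * (Real.sqrt (x + η ^ 2))⁻¹) a) := by
        refine hmonoR _ _ (by fun_prop) hc4 ?_
        intro x hx
        have h0 := hsp x hx
        have h1 := hu x hx
        have h2 : Real.sqrt x ≤ Real.sqrt (x + η ^ 2) := Real.sqrt_le_sqrt (by nlinarith)
        have h3 : η ≤ Real.sqrt (x + η ^ 2) := Real.le_sqrt_of_sq_le (by nlinarith)
        rw [← div_eq_mul_inv, le_div_iff₀ h1]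
        have h4 := husq x hx
        nlinarith [Real.sqrt_nonneg x]
      rw [hLadd _ (by fun_prop)] at this
      linarith

end OH246
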