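import Pool.Agent.OH246.Defs

open scoped BigOperators ComplexOrder Matrix InnerProductSpace Topology ENNReal
open Filter MeasureTheory

noncomputable section

namespace OH246

/-- sequences of finite trace norm -/
def Model.V (M : Model) : Type :=
  {x : ∀ k, M.A k // ∃ C : ℝ, ∀ k, (M.t k (star (x k) * x k)).re ≤ C}

/-- bounded sequences -/
def Model.Bd (M : Model) : StarSubalgebra ℂ (∀ k, M.A k) where
  carrier := {b | ∃ C : ℝ, ∀ k, ‖b k‖ ≤ C}
  mul_mem' := by
    rintro a b ⟨C, hC⟩ ⟨D, hD⟩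
    refine ⟨C * D, fun k => (norm_mul_le _ _).trans ?_⟩
    exact mul_le_mul (hC k) (hD k) (norm_nonneg _) ((norm_nonneg _).trans (hC k))
  add_mem' := by
    rintro a b ⟨C, hC⟩ ⟨D, hD⟩
    exact ⟨C + D, fun k => (norm_add_le _ _).trans (add_le_add (hC k) (hD k))⟩
  algebraMap_mem' := by
    intro r
    refine ⟨‖r‖ * 1, fun k => ?_⟩
    rw [Pi.algebraMap_apply, Algebra.algebraMap_eq_smul_one, norm_smul]
    refine mul_le_mul_of_nonneg_left ?_ (norm_nonneg _)
    rcases subsingleton_or_nontrivial (M.A k) with h | h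
    · rw [Subsingleton.elim (1 : M.A k) 0, norm_zero]; exact zero_le_one
    · exact (CStarRing.norm_one (E := M.A k)).le
  star_mem' := by
    rintro a ⟨C, hC⟩
    exact ⟨C, fun k => by simpa using hC k⟩


end OH246
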