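import Pool.Agent.OH246.GDefs

/-!
# The ultraproduct Hilbert space (module G1)

For a sequence of C⋆-algebras `A k` with positive functionals `t k` we take the sequences `x` with
`t k (star (x k) * x k)` bounded, with the semi-inner product
`⟪x, y⟫ = lim t k (star (x k) * y k)` along the hyperfilter, and complete it.  Bounded sequences act
by left multiplication.
-/

open scoped BigOperators ComplexOrder Matrix InnerProductSpace Topology ENNReal
open Filter MeasureTheory

noncomputable section

namespace OH246

section one
variable {A : Type*} [CStarAlgebra A] (t : A →ₗ[ℂ] ℂ)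

private theorem g1_symm (tp : ∀ x, 0 ≤ t (star x * x)) (x y : A) :
    (starRingEnd ℂ) (t (star y * x)) = t (star x * y) := by
  have h0x := (Complex.nonneg_iff.mp (tp x)).2
  have h0y := (Complex.nonneg_iff.mp (tp y)).2
  have h1 := (Complex.nonneg_iff.mp (tp (x + y))).2
  have h2 := (Complex.nonneg_iff.mp (tp (x + Complex.I • y))).2
  have e1 : star (x + y) * (x + y) = star x * x + star x * y + star y * x + star y * y := by
    rw [star_add]; noncomm_ring
  have e2 : star (x + Complex.I • y) * (x + Complex.I • y) =
      star x * x + Complex.I • (star x * y) - Complex.I • (star y * x) + star y * y := by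
    have : (star Complex.I : ℂ) = -Complex.I := by simp
    rw [star_add, star_smul, this]
    simp only [add_mul, mul_add, smul_mul_assoc, mul_smul_comm, smul_smul, neg_smul, smul_add,
      neg_mul, Complex.I_mul_I, one_smul, neg_neg, smul_neg]
    abel
  rw [e1] at h1
  rw [e2] at h2
  simp only [map_add, map_sub, map_smul, smul_eq_mul, Complex.add_im, Complex.sub_im,
    Complex.mul_im, Complex.I_re, Complex.I_im, zero_mul, one_mul, zero_add] at h1 h2
  apply Complex.ext
  · rw [Complex.conj_re]; linarith
  · rw [Complex.conj_im]; linarith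

private theorem g1_bound (tp : ∀ x, 0 ≤ t (star x * x)) (x y : A) :
    ‖t (star x * y)‖ ≤ (t (star x * x)).re + (t (star y * y)).re := by
  have hs := g1_symm t tp x y
  have key : ∀ c : ℂ, 0 ≤ (t (star x * x)).re + 2 * (c * t (star x * y)).re +
      ‖c‖ ^ 2 * (t (star y * y)).re := by
    intro c
    have h := (Complex.nonneg_iff.mp (tp (x + c • y))).1
    have e : star (x + c • y) * (x + c • y) =
        star x * x + c • (star x * y) + (starRingEnd ℂ c) • (star y * x) +
          ((starRingEnd ℂ c) * c) • (star y * y) := by
      rw [star_add, star_smul]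
      simp only [add_mul, mul_add, smul_mul_assoc, mul_smul_comm, smul_smul, smul_add,
        RCLike.star_def, mul_comm c]
      abel
    rw [e] at h
    simp only [map_add, map_smul, smul_eq_mul, Complex.add_re] at h
    have e3 : ((starRingEnd ℂ c) * t (star y * x)).re = (c * t (star x * y)).re := by
      rw [← hs, ← Complex.conj_re, map_mul, Complex.conj_conj]
    have e4 : ((starRingEnd ℂ c) * c * t (star y * y)).re = ‖c‖ ^ 2 * (t (star y * y)).re := by
      rw [← Complex.normSq_eq_conj_mul_self, Complex.re_ofReal_mul, Complex.normSq_eq_norm_sq]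
    rw [e3, e4] at h
    linarith
  have k1 := key 1
  have k2 := key (-1)
  have k3 := key Complex.I
  have k4 := key (-Complex.I)
  simp only [one_mul, norm_one, one_pow, neg_mul, Complex.neg_re, norm_neg, Complex.norm_I,
    Complex.mul_re, Complex.I_re, Complex.I_im, zero_mul, zero_sub] at k1 k2 k3 k4
  have hre : |(t (star x * y)).re| ≤ ((t (star x * x)).re + (t (star y * y)).re) / 2 := by
    rw [abs_le]; constructor <;> linarith
  have him : |(t (star x * y)).im| ≤ ((t (star x * x)).re + (t (star y * y)).re) / 2 := by
    rw [abs_le]; constructor <;> linarith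
  calc ‖t (star x * y)‖ ≤ |(t (star x * y)).re| + |(t (star x * y)).im| :=
        Complex.norm_le_abs_re_add_abs_im _
    _ ≤ _ := by linarith

private theorem g1_left (tp : ∀ x, 0 ≤ t (star x * x)) (b x : A) :
    (t (star (b * x) * (b * x))).re ≤ ‖b‖ ^ 2 * (t (star x * x)).re := by
  let _ : PartialOrder A := CStarAlgebra.spectralOrder A
  have _ : StarOrderedRing A := CStarAlgebra.spectralOrderedRing A
  have h1 : star b * b ≤ algebraMap ℝ A (‖b‖ ^ 2) := by
    have := CStarAlgebra.star_mul_le_algebraMap_norm_sq (a := b)
    simpa using this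
  have h2 : 0 ≤ algebraMap ℝ A (‖b‖ ^ 2) - star b * b := sub_nonneg.mpr h1
  obtain ⟨c, hc⟩ := CStarAlgebra.nonneg_iff_eq_star_mul_self.mp h2
  have h3 := (Complex.nonneg_iff.mp (tp (c * x))).1
  have e : star (c * x) * (c * x) =
      ((‖b‖ ^ 2 : ℝ) : ℂ) • (star x * x) - star (b * x) * (b * x) := by
    rw [star_mul, mul_assoc, ← mul_assoc (star c) c x, ← hc, sub_mul, mul_sub, star_mul]
    congr 1
    · rw [Algebra.algebraMap_eq_smul_one, smul_mul_assoc, one_mul, mul_smul_comm,
        Complex.coe_smul]
    · noncomm_ring
  rw [e, map_sub, map_smul, smul_eq_mul, Complex.sub_re, Complex.re_ofReal_mul] at h3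
  linarith

end one

private theorem g1_lim {f : ℕ → ℂ} {C : ℝ} (h : ∀ k, ‖f k‖ ≤ C) :
    ∃ z, Tendsto f (hyperfilter ℕ : Filter ℕ) (𝓝 z) := by
  have hc : IsCompact (Metric.closedBall (0 : ℂ) C) := isCompact_closedBall 0 C
  obtain ⟨z, -, hz⟩ := hc.ultrafilter_le_nhds ((hyperfilter ℕ).map f) (by
    rw [le_principal_iff, Ultrafilter.mem_coe, Ultrafilter.mem_map]
    have : f ⁻¹' Metric.closedBall (0 : ℂ) C = Set.univ := by
      ext k; simp [h k]
    rw [this]; exact univ_mem)
  exact ⟨z, hz⟩

variable (M : Model)

/-- the space of sequences of finite trace norm as a submodule of the product. -/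
def G1Sub : Submodule ℂ (∀ k, M.A k) where
  carrier := {x | ∃ C : ℝ, ∀ k, (M.t k (star (x k) * x k)).re ≤ C}
  zero_mem' := ⟨0, fun k => by simp⟩
  add_mem' := by
    rintro x y ⟨C, hC⟩ ⟨D, hD⟩
    refine ⟨2 * C + 2 * D, fun k => ?_⟩
    have h := (Complex.nonneg_iff.mp (M.t_pos k (x k - y k))).1
    have e : star ((x + y) k) * (x + y) k = (2 : ℂ) • (star (x k) * x k) +
        (2 : ℂ) • (star (y k) * y k) - star (x k - y k) * (x k - y k) := by
      simp only [Pi.add_apply, star_add, star_sub, two_smul]
      noncomm_ring
    rw [e]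
    simp only [map_sub, map_add, map_smul, smul_eq_mul, Complex.sub_re, Complex.add_re]
    have h2 : ∀ z : ℂ, ((2 : ℂ) * z).re = 2 * z.re := fun z => by simp
    rw [h2, h2]
    have := hC k
    have := hD k
    linarith
  smul_mem' := by
    rintro c x ⟨C, hC⟩
    refine ⟨‖c‖ ^ 2 * C, fun k => ?_⟩
    have e : star ((c • x) k) * (c • x) k = ((‖c‖ ^ 2 : ℝ) : ℂ) • (star (x k) * x k) := by
      simp only [Pi.smul_apply, star_smul, smul_mul_assoc, mul_smul_comm, smul_smul]
      congr 1
      rw [RCLike.star_def, Complex.mul_conj, Complex.normSq_eq_norm_sq]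
    rw [e, map_smul, smul_eq_mul, Complex.re_ofReal_mul]
    exact mul_le_mul_of_nonneg_left (hC k) (by positivity)

/-- type copy of the submodule, so that it does not carry the product topology. -/
def G1V : Type := G1Sub M

instance : AddCommGroup (G1V M) := inferInstanceAs (AddCommGroup (G1Sub M))
instance : Module ℂ (G1V M) := inferInstanceAs (Module ℂ (G1Sub M))

/-- the underlying sequence -/
def G1V.seq (x : G1V M) : ∀ k, M.A k := (show G1Sub M from x).1

variable {M}

private theorem seq_add (x y : G1V M) (k : ℕ) : G1V.seq M (x + y) k = G1V.seq M x k + G1V.seq M y k :=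
  rfl

private theorem seq_smul (c : ℂ) (x : G1V M) (k : ℕ) : G1V.seq M (c • x) k = c • G1V.seq M x k :=
  rfl

private theorem seq_bdd (x : G1V M) :
    ∃ C : ℝ, ∀ k, (M.t k (star (G1V.seq M x k) * G1V.seq M x k)).re ≤ C :=
  (show G1Sub M from x).2

private theorem seq_ext {x y : G1V M} (h : ∀ k, G1V.seq M x k = G1V.seq M y k) : x = y :=
  Subtype.ext (funext h)

/-- the semi-inner product -/
def g1inner (x y : G1V M) : ℂ :=
  limUnder (hyperfilter ℕ : Filter ℕ) (fun k => M.t k (star (G1V.seq M x k) * G1V.seq M y k))

private theorem g1inner_tendsto (x y : G1V M) :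
    Tendsto (fun k => M.t k (star (G1V.seq M x k) * G1V.seq M y k)) (hyperfilter ℕ : Filter ℕ)
      (𝓝 (g1inner x y)) := by
  obtain ⟨C, hC⟩ := seq_bdd x
  obtain ⟨D, hD⟩ := seq_bdd y
  exact tendsto_nhds_limUnder (g1_lim (C := C + D) fun k =>
    (g1_bound (M.t k) (M.t_pos k) _ _).trans (add_le_add (hC k) (hD k)))

/-- the semi-inner product space structure -/
abbrev g1core (M : Model) : PreInnerProductSpace.Core ℂ (G1V M) where
  inner x y := g1inner x y
  conj_inner_symm x y := by
    have h1 := (Complex.continuous_conj.tendsto _).comp (g1inner_tendsto y x)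
    have h2 := g1inner_tendsto x y
    refine tendsto_nhds_unique h1 (h2.congr fun k => ?_)
    exact (g1_symm (M.t k) (M.t_pos k) _ _).symm
  re_inner_nonneg x := by
    have h := (Complex.continuous_re.tendsto _).comp (g1inner_tendsto x x)
    exact ge_of_tendsto' h fun k => (Complex.nonneg_iff.mp (M.t_pos k _)).1
  add_left x y z := by
    have h := g1inner_tendsto (x + y) z
    have h' := (g1inner_tendsto x z).add (g1inner_tendsto y z)
    refine tendsto_nhds_unique h (h'.congr fun k => ?_)
    rw [seq_add, star_add, add_mul, map_add]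
  smul_left x y c := by
    have h := g1inner_tendsto (c • x) y
    have h' := (g1inner_tendsto x y).const_mul ((starRingEnd ℂ) c)
    refine tendsto_nhds_unique h (h'.congr fun k => ?_)
    rw [seq_smul, star_smul, smul_mul_assoc, map_smul, smul_eq_mul, RCLike.star_def]

instance : SeminormedAddCommGroup (G1V M) :=
  InnerProductSpace.Core.toSeminormedAddCommGroup (c := g1core M)
instance : InnerProductSpace ℂ (G1V M) :=
  InnerProductSpace.ofCore (g1core M)

private theorem inner_def' (x y : G1V M) : ⟪x, y⟫_ℂ = g1inner x y := rfl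

private theorem norm_sq' (x : G1V M) : ‖x‖ ^ 2 = (g1inner x x).re := by
  rw [← inner_def', ← inner_self_eq_norm_sq (𝕜 := ℂ)]; rfl

/-- left multiplication by a bounded sequence, as a linear map -/
def g1lin (b : M.Bd) : G1V M →ₗ[ℂ] G1V M where
  toFun x := (show G1Sub M from ⟨fun k => b.1 k * G1V.seq M x k, by
    obtain ⟨C, hC⟩ := seq_bdd x
    obtain ⟨D, hD⟩ := b.2
    refine ⟨D ^ 2 * C, fun k => ?_⟩
    refine (g1_left (M.t k) (M.t_pos k) _ _).trans ?_
    have h0 := (Complex.nonneg_iff.mp (M.t_pos k (G1V.seq M x k))).1
    have := hC k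
    have h1 := hD k
    have h2 := norm_nonneg (b.1 k)
    exact mul_le_mul (pow_le_pow_left₀ h2 h1 2) this h0 (by positivity)⟩)
  map_add' x y := seq_ext fun k => mul_add _ _ _
  map_smul' c x := seq_ext fun k => mul_smul_comm _ _ _

private theorem g1lin_seq (b : M.Bd) (x : G1V M) (k : ℕ) :
    G1V.seq M (g1lin b x) k = b.1 k * G1V.seq M x k := rfl

private theorem g1lin_bound (b : M.Bd) : ∃ D : ℝ, ∀ x : G1V M, ‖g1lin b x‖ ≤ D * ‖x‖ := by
  obtain ⟨D, hD⟩ := b.2
  have hD0 : 0 ≤ D := (norm_nonneg _).trans (hD 0)
  refine ⟨D, fun x => ?_⟩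
  rw [← sq_le_sq₀ (norm_nonneg _) (by positivity), mul_pow, norm_sq', norm_sq']
  have h1 := (Complex.continuous_re.tendsto _).comp (g1inner_tendsto (g1lin b x) (g1lin b x))
  have h2 := ((Complex.continuous_re.tendsto _).comp (g1inner_tendsto x x)).const_mul (D ^ 2)
  refine le_of_tendsto_of_tendsto' h1 h2 fun k => ?_
  simp only [Function.comp_apply, g1lin_seq]
  refine (g1_left (M.t k) (M.t_pos k) _ _).trans ?_
  have h0 := (Complex.nonneg_iff.mp (M.t_pos k (G1V.seq M x k))).1
  exact mul_le_mul_of_nonneg_right (pow_le_pow_left₀ (norm_nonneg _) (hD k) 2) h0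

/-- left multiplication as a continuous linear map -/
def g1left (b : M.Bd) : G1V M →L[ℂ] G1V M :=
  (g1lin b).mkContinuousOfExistsBound (g1lin_bound b)

private theorem g1left_seq (b : M.Bd) (x : G1V M) (k : ℕ) :
    G1V.seq M (g1left b x) k = b.1 k * G1V.seq M x k := rfl

open UniformSpace Completion in
/-- the representation -/
def g1rep (M : Model) : M.Bd →⋆ₐ[ℂ] (Completion (G1V M) →L[ℂ] Completion (G1V M)) where
  toFun b := (g1left b).completion
  map_one' := by
    ext c
    induction c using induction_on with
      | hp => apply isClosed_eq <;> fun_prop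
      | ih c =>
        simp only [ContinuousLinearMap.completion_apply_coe, one_apply_eq_self]
        congr 1
        exact seq_ext fun k => by rw [g1left_seq]; exact one_mul _
  map_zero' := by
    ext c
    induction c using induction_on with
      | hp => apply isClosed_eq <;> fun_prop
      | ih c =>
        simp only [ContinuousLinearMap.completion_apply_coe, zero_apply]
        rw [← Completion.coe_zero]
        congr 1
        exact seq_ext fun k => by rw [g1left_seq]; exact zero_mul _
  map_add' a b := by
    ext c
    induction c using induction_on with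
      | hp => apply isClosed_eq <;> fun_prop
      | ih c =>
        simp only [ContinuousLinearMap.completion_apply_coe, add_apply]
        rw [← Completion.coe_add]
        congr 1
        exact seq_ext fun k => by rw [g1left_seq]; exact add_mul _ _ _
  map_mul' a b := by
    ext c
    induction c using induction_on with
      | hp => apply isClosed_eq <;> fun_prop
      | ih c =>
        simp only [ContinuousLinearMap.completion_apply_coe, mul_apply_eq_comp]
        congr 1
        exact seq_ext fun k => by rw [g1left_seq]; exact mul_assoc _ _ _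
  commutes' r := by
    ext c
    induction c using induction_on with
      | hp => apply isClosed_eq <;> fun_prop
      | ih c =>
        rw [Algebra.algebraMap_eq_smul_one r (A := Completion (G1V M) →L[ℂ] Completion (G1V M))]
        simp only [ContinuousLinearMap.completion_apply_coe, smul_apply,
          one_apply_eq_self]
        rw [← Completion.coe_smul]
        congr 1
        refine seq_ext fun k => ?_
        rw [g1left_seq, seq_smul]
        have : (algebraMap ℂ M.Bd r).1 k = r • (1 : M.A k) := by
          rw [← Algebra.algebraMap_eq_smul_one]; rfl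
        rw [this, smul_mul_assoc, one_mul]
  map_star' a := by
    refine (ContinuousLinearMap.eq_adjoint_iff (g1left (star a)).completion
      (g1left a).completion).mpr ?_
    intro x y
    induction x, y using induction_on₂ with
    | hp => apply isClosed_eq <;> fun_prop
    | ih x y =>
      simp only [ContinuousLinearMap.completion_apply_coe, Completion.inner_coe, inner_def']
      refine tendsto_nhds_unique (g1inner_tendsto _ _) ((g1inner_tendsto _ _).congr fun k => ?_)
      rw [g1left_seq, g1left_seq]
      have : (star a).1 k = star (a.1 k) := rfl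
      rw [this, star_mul, star_star, mul_assoc]

/-- the class of a sequence in the semi-inner product space -/
def g1vec (x : M.V) : G1V M := show G1Sub M from ⟨x.1, x.2⟩

private theorem g1vec_surj : Function.Surjective (g1vec (M := M)) :=
  fun x => ⟨⟨(show G1Sub M from x).1, (show G1Sub M from x).2⟩, rfl⟩

/-- MODULE G1 (file Ultra.lean): the ultraproduct Hilbert space. -/
theorem ultra_exists (M : Model) :
    ∃ (H : Type) (_ : NormedAddCommGroup H) (_ : InnerProductSpace ℂ H) (_ : CompleteSpace H)
      (π : M.Bd →⋆ₐ[ℂ] (H →L[ℂ] H)) (vec : M.V → H), DenseRange vec ∧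
      ∀ (x y : M.V) (b : M.Bd),
        Tendsto (fun k => M.t k (star (x.1 k) * (b.1 k * y.1 k))) (hyperfilter ℕ : Filter ℕ)
          (𝓝 ⟪vec x, π b (vec y)⟫_ℂ) := by
  refine ⟨UniformSpace.Completion (G1V M), inferInstance, inferInstance, inferInstance, g1rep M,
    fun x => (g1vec x : UniformSpace.Completion (G1V M)), ?_, ?_⟩
  · have h := UniformSpace.Completion.denseRange_coe (α := G1V M)
    refine h.mono ?_
    rintro _ ⟨x, rfl⟩
    obtain ⟨y, rfl⟩ := g1vec_surj x
    exact ⟨y, rfl⟩
  · intro x y b
    have e : g1rep M b (g1vec y : UniformSpace.Completion (G1V M)) =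
        ((g1left b (g1vec y) : G1V M) : UniformSpace.Completion (G1V M)) :=
      ContinuousLinearMap.completion_apply_coe _ _
    have e2 : ⟪(g1vec x : UniformSpace.Completion (G1V M)),
        g1rep M b (g1vec y : UniformSpace.Completion (G1V M))⟫_ℂ =
        g1inner (g1vec x) (g1left b (g1vec y)) := by
      rw [e, UniformSpace.Completion.inner_coe, inner_def']
    rw [e2]
    exact g1inner_tendsto (g1vec x) (g1left b (g1vec y))

end OH246
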