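import Pool.Agent.OH246.Defs
import Pool.Agent.OH246.GDefs

/-! Two finite sums of vector functionals that agree on a unital star subalgebra agree on its
double commutant. -/

open scoped BigOperators ComplexOrder Matrix InnerProductSpace Topology ENNReal
open Filter MeasureTheory

noncomputable section

namespace OH246

section VN
variable {H : Type*} [NormedAddCommGroup H] [InnerProductSpace ℂ H]
variable {κ : Type*} [Fintype κ]

/-- the diagonal operator `diag(T,...,T)` on `H^κ`. -/
private def dgo (κ : Type*) [Fintype κ] (T : H →L[ℂ] H) :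
    PiLp 2 (fun _ : κ => H) →L[ℂ] PiLp 2 (fun _ : κ => H) :=
  ((PiLp.continuousLinearEquiv 2 ℂ (fun _ : κ => H)).symm : (∀ _ : κ, H) →L[ℂ] _) ∘L
    (ContinuousLinearMap.pi fun i => T ∘L ContinuousLinearMap.proj i) ∘L
    ((PiLp.continuousLinearEquiv 2 ℂ (fun _ : κ => H)) : _ →L[ℂ] (∀ _ : κ, H))

private lemma dgo_apply (T : H →L[ℂ] H) (v : PiLp 2 (fun _ : κ => H)) (i : κ) :
    dgo κ T v i = T (v i) := rfl

/-- the inclusion of the `j`-th summand. -/
private def inj [DecidableEq κ] (j : κ) : H →L[ℂ] PiLp 2 (fun _ : κ => H) :=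
  ((PiLp.continuousLinearEquiv 2 ℂ (fun _ : κ => H)).symm : (∀ _ : κ, H) →L[ℂ] _) ∘L
    (ContinuousLinearMap.single ℂ (fun _ : κ => H) j)

omit [Fintype κ] in
private lemma inj_apply [DecidableEq κ] (j : κ) (x : H) (i : κ) :
    inj (κ := κ) j x i = (Pi.single j x : κ → H) i := rfl

private lemma dgo_inj [DecidableEq κ] (T : H →L[ℂ] H) (j : κ) (x : H) :
    dgo κ T (inj j x) = inj j (T x) := by
  ext i
  rw [dgo_apply, inj_apply, inj_apply]
  by_cases h : i = j
  · subst h; simp
  · simp [Pi.single_eq_of_ne h]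

private lemma sum_inj [DecidableEq κ] (v : PiLp 2 (fun _ : κ => H)) :
    ∑ j, inj (κ := κ) j (v j) = v := by
  ext i
  rw [WithLp.ofLp_sum, Finset.sum_apply, Finset.sum_eq_single i]
  · rw [inj_apply]; simp
  · intro j _ hj
    rw [inj_apply]
    simp [Pi.single_eq_of_ne hj.symm]
  · intro h; exact absurd (Finset.mem_univ i) h

variable [CompleteSpace H]

private lemma inner_dgo (T : H →L[ℂ] H) (u v : PiLp 2 (fun _ : κ => H)) :
    ⟪u, dgo κ T v⟫_ℂ = ⟪dgo κ (star T) u, v⟫_ℂ := by
  simp only [PiLp.inner_apply, dgo_apply, ContinuousLinearMap.star_eq_adjoint]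
  exact Finset.sum_congr rfl fun i _ => (ContinuousLinearMap.adjoint_inner_left T (v i) (u i)).symm

/-- the submodule `{(A η_i)_i : A ∈ S}`. -/
private def orb (S : StarSubalgebra ℂ (H →L[ℂ] H)) (v : PiLp 2 (fun _ : κ => H)) :
    Submodule ℂ (PiLp 2 (fun _ : κ => H)) where
  carrier := {u | ∃ A ∈ S, u = dgo κ A v}
  add_mem' := by
    rintro _ _ ⟨A, hA, rfl⟩ ⟨B, hB, rfl⟩
    refine ⟨A + B, S.add_mem hA hB, ?_⟩
    ext i
    simp [dgo_apply]
  zero_mem' := by
    refine ⟨0, S.zero_mem, ?_⟩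
    ext i
    simp [dgo_apply]
  smul_mem' := by
    rintro c _ ⟨A, hA, rfl⟩
    refine ⟨c • A, S.smul_mem hA c, ?_⟩
    ext i
    simp [dgo_apply]

private lemma orb_closure_map (S : StarSubalgebra ℂ (H →L[ℂ] H)) (v : PiLp 2 (fun _ : κ => H))
    {A : H →L[ℂ] H} (hA : A ∈ S) {u : PiLp 2 (fun _ : κ => H)}
    (hu : u ∈ (orb S v).topologicalClosure) : dgo κ A u ∈ (orb S v).topologicalClosure := by
  have h1 : (orb S v).topologicalClosure ≤
      ((orb S v).topologicalClosure).comap (dgo κ A : _ →ₗ[ℂ] _) := by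
    refine Submodule.topologicalClosure_minimal _ ?_ ?_
    · rintro _ ⟨B, hB, rfl⟩
      rw [Submodule.mem_comap]
      refine Submodule.le_topologicalClosure _ ⟨A * B, S.mul_mem hA hB, ?_⟩
      ext i
      simp [dgo_apply]
    · exact (Submodule.isClosed_topologicalClosure _).preimage (dgo κ A).continuous
  exact h1 hu

private lemma proj_comm (S : StarSubalgebra ℂ (H →L[ℂ] H)) (v : PiLp 2 (fun _ : κ => H))
    {A : H →L[ℂ] H} (hA : A ∈ S) (u : PiLp 2 (fun _ : κ => H)) :
    dgo κ A ((orb S v).topologicalClosure.starProjection u) =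
      (orb S v).topologicalClosure.starProjection (dgo κ A u) := by
  symm
  refine Submodule.eq_starProjection_of_mem_of_inner_eq_zero
    (orb_closure_map S v hA (Submodule.starProjection_apply_mem _ _)) ?_
  intro w hw
  have h1 : ⟪w, dgo κ A u - dgo κ A ((orb S v).topologicalClosure.starProjection u)⟫_ℂ = 0 := by
    rw [← map_sub, inner_dgo, ← inner_conj_symm,
      Submodule.starProjection_inner_eq_zero _ _ (orb_closure_map S v (S.star_mem' hA) hw),
      map_zero]
  rw [← inner_conj_symm, h1, map_zero]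

private lemma entry_mem [DecidableEq κ] (S : StarSubalgebra ℂ (H →L[ℂ] H))
    (v : PiLp 2 (fun _ : κ => H)) (i j : κ) :
    (PiLp.proj 2 (fun _ : κ => H) i : _ →L[ℂ] H) ∘L
      (orb S v).topologicalClosure.starProjection ∘L inj j ∈
      Set.centralizer (S : Set (H →L[ℂ] H)) := by
  intro A hA
  ext x
  have h1 := proj_comm S v hA (inj j x)
  rw [dgo_inj] at h1
  have h2 := congrArg (fun z : PiLp 2 (fun _ : κ => H) => z i) h1
  simpa [dgo_apply] using h2

end VN

/-- MODULE G2 (file VNDensity.lean). -/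
theorem vn_agree {H : Type*} [NormedAddCommGroup H] [InnerProductSpace ℂ H] [CompleteSpace H]
    (S : StarSubalgebra ℂ (H →L[ℂ] H)) {ι : Type*} (s : Finset ι) (ξ η : ι → H)
    (h : ∀ T ∈ S, ∑ i ∈ s, ⟪ξ i, T (η i)⟫_ℂ = 0) (T : H →L[ℂ] H)
    (hT : T ∈ Set.centralizer (Set.centralizer (S : Set (H →L[ℂ] H)))) :
    ∑ i ∈ s, ⟪ξ i, T (η i)⟫_ℂ = 0 := by
  classical
  let v : PiLp 2 (fun _ : s => H) := WithLp.toLp 2 (fun i : s => η i)
  let x : PiLp 2 (fun _ : s => H) := WithLp.toLp 2 (fun i : s => ξ i)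
  have key : ∀ A : H →L[ℂ] H, ∑ i ∈ s, ⟪ξ i, A (η i)⟫_ℂ = ⟪x, dgo s A v⟫_ℂ := by
    intro A
    rw [PiLp.inner_apply, ← Finset.sum_coe_sort s]
    rfl
  have hv : v ∈ (orb S v).topologicalClosure := by
    refine Submodule.le_topologicalClosure _ ⟨1, S.one_mem, ?_⟩
    ext i
    simp [dgo_apply]
  have hcomm : dgo s T ((orb S v).topologicalClosure.starProjection v) =
      (orb S v).topologicalClosure.starProjection (dgo s T v) := by
    ext i
    have e1 : ∀ u : PiLp 2 (fun _ : s => H),
        ((orb S v).topologicalClosure.starProjection u) i =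
        ∑ j, ((PiLp.proj 2 (fun _ : s => H) i : _ →L[ℂ] H) ∘L
          (orb S v).topologicalClosure.starProjection ∘L inj j) (u j) := by
      intro u
      conv_lhs => rw [← sum_inj u]
      rw [map_sum, WithLp.ofLp_sum, Finset.sum_apply]
      rfl
    rw [dgo_apply, e1, e1, map_sum]
    refine Finset.sum_congr rfl fun j _ => ?_
    have h3 := hT _ (entry_mem S v i j)
    have h4 := congrArg (fun z : H →L[ℂ] H => z (v j)) h3
    exact h4.symm
  have hmem : dgo s T v ∈ (orb S v).topologicalClosure := by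
    rw [Submodule.starProjection_eq_self_iff.mpr hv] at hcomm
    rw [hcomm]
    exact Submodule.starProjection_apply_mem _ _
  have hker : (orb S v).topologicalClosure ≤ (innerSL ℂ x : _ →ₗ[ℂ] ℂ).ker := by
    refine Submodule.topologicalClosure_minimal _ ?_ ?_
    · rintro _ ⟨A, hA, rfl⟩
      rw [LinearMap.mem_ker]
      have := h A hA
      rw [key] at this
      exact this
    · exact isClosed_singleton.preimage (innerSL ℂ x).continuous
  rw [key]
  exact hker hmem

end OH246
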