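import Pool.Agent.OH246.Defs
import Pool.Agent.OH246.GDefs
import Pool.Agent.OH246.Ultra
import Pool.Agent.OH246.VNDensity

/-!
# MODULE G3: the von Neumann algebra and the functionals
-/

open scoped BigOperators ComplexOrder Matrix InnerProductSpace Topology ENNReal
open Filter MeasureTheory

noncomputable section

namespace OH246

namespace CoreAux

/-- entries of a matrix contraction are contractions -/
theorem entry_norm_le {A : Type*} [CStarAlgebra A] {m : ℕ} {b c : Matrix (Fin m) (Fin m) A}
    (h : bᴴ * b + cᴴ * c = 1) (i j : Fin m) : ‖b i j‖ ≤ 1 := by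
  let _ := CStarAlgebra.spectralOrder A
  let _ := CStarAlgebra.spectralOrderedRing A
  have hjj : (∑ l, star (b l j) * b l j) + ∑ l, star (c l j) * c l j = 1 := by
    have := congrFun (congrFun h j) j
    simpa [Matrix.mul_apply, Matrix.conjTranspose_apply] using this
  have h1 : star (b i j) * b i j ≤ 1 := by
    calc star (b i j) * b i j ≤ ∑ l, star (b l j) * b l j :=
          Finset.single_le_sum (f := fun l => star (b l j) * b l j)
            (fun l _ => star_mul_self_nonneg (b l j)) (Finset.mem_univ i)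
      _ ≤ (∑ l, star (b l j) * b l j) + ∑ l, star (c l j) * c l j :=
          le_add_of_nonneg_right (Finset.sum_nonneg fun l _ => star_mul_self_nonneg (c l j))
      _ = 1 := hjj
  have h2 : ‖star (b i j) * b i j‖ ≤ ‖(1 : A)‖ :=
    CStarAlgebra.norm_le_norm_of_nonneg_of_le (star_mul_self_nonneg _) h1
  have h3 : ‖(1 : A)‖ ≤ 1 := by
    rcases subsingleton_or_nontrivial A with h | h
    · rw [Subsingleton.elim (1 : A) 0, norm_zero]; exact zero_le_one
    · exact (CStarRing.norm_one (E := A)).le
  rw [CStarRing.norm_star_mul_self] at h2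
  nlinarith [norm_nonneg (b i j)]

section vn
variable {H : Type*} [NormedAddCommGroup H] [InnerProductSpace ℂ H] [CompleteSpace H]

/-- the bicommutant -/
def bic (S : StarSubalgebra ℂ (H →L[ℂ] H)) : VonNeumannAlgebra H where
  toStarSubalgebra :=
    { Subalgebra.centralizer ℂ (Set.centralizer (S : Set (H →L[ℂ] H))) with
      star_mem' := fun {a} ha => Set.star_mem_centralizer'
        (fun b hb => Set.star_mem_centralizer' (fun c hc => star_mem hc) hb) ha }
  centralizer_centralizer' := by
    change Set.centralizer (Set.centralizer (Set.centralizer (Set.centralizer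
      (S : Set (H →L[ℂ] H))))) = Set.centralizer (Set.centralizer (S : Set (H →L[ℂ] H)))
    rw [Set.centralizer_centralizer_centralizer]

theorem mem_bic {S : StarSubalgebra ℂ (H →L[ℂ] H)} {T : H →L[ℂ] H} :
    T ∈ (bic S).toStarSubalgebra ↔
      T ∈ Set.centralizer (Set.centralizer (S : Set (H →L[ℂ] H))) := Iff.rfl

theorem le_bic {S : StarSubalgebra ℂ (H →L[ℂ] H)} {T : H →L[ℂ] H} (hT : T ∈ S) :
    T ∈ (bic S).toStarSubalgebra := by
  rw [mem_bic]
  exact Set.subset_centralizer_centralizer hT

/-- vector functionals -/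
def vf (N : VonNeumannAlgebra H) (ξ η : H) : N.toStarSubalgebra →L[ℂ] ℂ where
  toFun T := ⟪ξ, (T : H →L[ℂ] H) η⟫_ℂ
  map_add' S T := by simp
  map_smul' c T := by simp
  cont := by
    have h1 : Continuous fun T : N.toStarSubalgebra => (T : H →L[ℂ] H) := continuous_subtype_val
    exact continuous_const.inner (h1.clm_apply continuous_const)

@[simp] theorem vf_apply (N : VonNeumannAlgebra H) (ξ η : H) (T : N.toStarSubalgebra) :
    vf N ξ η T = ⟪ξ, (T : H →L[ℂ] H) η⟫_ℂ := rfl

end vn

theorem contr_identity {A : Type*} [CStarAlgebra A] {m : ℕ} {b c : Matrix (Fin m) (Fin m) A}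
    (h : bᴴ * b + cᴴ * c = 1) (x : Fin m → A) :
    (∑ i, star (∑ j, b i j * x j) * (∑ j, b i j * x j)) +
      (∑ i, star (∑ j, c i j * x j) * (∑ j, c i j * x j)) = ∑ j, star (x j) * x j := by
  have key : ∀ b : Matrix (Fin m) (Fin m) A,
      (∑ i, star (∑ j, b i j * x j) * (∑ j, b i j * x j)) = star x ⬝ᵥ ((bᴴ * b).mulVec x) := by
    intro b
    have h1 : (∑ i, star (∑ j, b i j * x j) * (∑ j, b i j * x j))
        = star (b.mulVec x) ⬝ᵥ (b.mulVec x) := rfl
    rw [h1, Matrix.star_mulVec, ← Matrix.dotProduct_mulVec, Matrix.mulVec_mulVec]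
  rw [key b, key c, ← dotProduct_add, ← Matrix.add_mulVec, h, Matrix.one_mulVec]
  rfl

end CoreAux

open CoreAux

theorem core_exists (M : Model) :
    ∃ (H : Type) (_ : NormedAddCommGroup H) (_ : InnerProductSpace ℂ H) (_ : CompleteSpace H)
      (N : VonNeumannAlgebra H) (φ : ℕ → (N.toStarSubalgebra →L[ℂ] ℂ)),
      (∀ p, ∃ ξ η : H, ∀ T : N.toStarSubalgebra, φ p T = ⟪ξ, (T : H →L[ℂ] H) η⟫_ℂ) ∧
      ∀ (n m : ℕ) (w : Fin n → Matrix (Fin m) (Fin m) ℂ),
        IsLUB {r | ∃ T : Matrix (Fin m) (Fin m) N.toStarSubalgebra,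
          MatContr (T.map fun S => (S : H →L[ℂ] H)) ∧
          r = ‖∑ p : Fin n, (w p * Matrix.of fun i j => φ p (T i j)).trace‖} (dualNorm w) := by
  obtain ⟨H, i1, i2, i3, π, vec, hdense, hlim⟩ := ultra_exists M
  set U : Filter ℕ := (hyperfilter ℕ : Filter ℕ) with hU
  have hUat : U ≤ atTop := Nat.hyperfilter_le_atTop
  -- the basic limit
  have lim1 : ∀ (x y : M.V) (b : M.Bd) (Z : ∀ k, M.A k), (∀ k, y.1 k * star (x.1 k) = Z k) →
      Tendsto (fun k => M.t k (b.1 k * Z k)) U (𝓝 ⟪vec x, π b (vec y)⟫_ℂ) := by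
    intro x y b Z hZ
    refine (hlim x y b).congr (fun k => ?_)
    rw [M.t_tr, mul_assoc, hZ]
  have lim2 : ∀ x : M.V, Tendsto (fun k => (M.t k (star (x.1 k) * x.1 k)).re) U
      (𝓝 (‖vec x‖ ^ 2)) := by
    intro x
    have h := hlim x x 1
    rw [map_one, one_apply_eq_self, inner_self_eq_norm_sq_to_K] at h
    have h2 := (Complex.continuous_re.tendsto _).comp h
    have e : (((‖vec x‖ : ℂ)) ^ 2).re = ‖vec x‖ ^ 2 := by
      rw [← Complex.ofReal_pow, Complex.ofReal_re]
    simp only [Complex.coe_algebraMap] at h2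
    rw [e] at h2
    refine h2.congr (fun k => ?_)
    simp
  -- factorisations of the generators
  have hφ : ∀ p : ℕ, ∃ x y : M.V, ∀ k, y.1 k * star (x.1 k) = M.Φ k p := by
    intro p
    obtain ⟨L, hL, hmain⟩ := M.main (p + 1) 1 (fun q => if q = Fin.last p then 1 else 0)
    choose Q P b c h1 h2 h3 h4 h5 using hmain
    obtain ⟨C, hC⟩ := hL.bddAbove_range
    have hC' : ∀ k, L k ≤ C := fun k => hC ⟨k, rfl⟩
    refine ⟨⟨fun k => star (P k 0 0), C, fun k => ?_⟩, ⟨fun k => Q k 0 0, C, fun k => ?_⟩,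
      fun k => ?_⟩
    · have := (h3 k).trans (hC' k)
      simpa using this
    · have := (h2 k).trans (hC' k)
      simpa using this
    · have := congrFun (congrFun (h1 k) 0) 0
      simp only [Matrix.mul_apply, Finset.univ_unique, Fin.default_eq_zero, Finset.sum_singleton,
        Matrix.of_apply] at this
      simp only [star_star]
      rw [this]
      rw [Finset.sum_eq_single (Fin.last p)]
      · simp
      · intro q _ hq
        simp [hq]
      · intro hh
        exact absurd (Finset.mem_univ _) hh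
  choose X Y hXY using hφ
  set N : VonNeumannAlgebra H := bic π.range with hN
  refine ⟨H, i1, i2, i3, N, fun p => vf N (vec (X p)) (vec (Y p)),
    fun p => ⟨vec (X p), vec (Y p), fun T => rfl⟩, ?_⟩
  intro n m w
  obtain ⟨L, hL, hmain⟩ := M.main n m w
  choose Q P b c h1 h2 h3 h4 h5 using hmain
  have hLU : Tendsto L U (𝓝 (dualNorm w)) := hL.mono_left hUat
  obtain ⟨C, hC⟩ := hL.bddAbove_range
  have hC' : ∀ k, L k ≤ C := fun k => hC ⟨k, rfl⟩
  have hpos : ∀ k (z : M.A k), 0 ≤ (M.t k (star z * z)).re := fun k z =>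
    (Complex.le_def.1 (M.t_pos k z)).1
  have hposP : ∀ k (z : M.A k), 0 ≤ (M.t k (z * star z)).re := fun k z => by
    have := hpos k (star z)
    rwa [star_star] at this
  have hQle : ∀ k i j, (M.t k (star (Q k i j) * Q k i j)).re ≤ C := by
    intro k i j
    refine le_trans ?_ ((h2 k).trans (hC' k))
    calc (M.t k (star (Q k i j) * Q k i j)).re
        ≤ ∑ j, (M.t k (star (Q k i j) * Q k i j)).re :=
          Finset.single_le_sum (f := fun j => (M.t k (star (Q k i j) * Q k i j)).re)
            (fun j _ => hpos k _) (Finset.mem_univ j)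
      _ ≤ _ := Finset.single_le_sum (f := fun i => ∑ j, (M.t k (star (Q k i j) * Q k i j)).re)
            (fun i _ => Finset.sum_nonneg fun j _ => hpos k _) (Finset.mem_univ i)
  have hPle : ∀ k i j, (M.t k (P k i j * star (P k i j))).re ≤ C := by
    intro k i j
    refine le_trans ?_ ((h3 k).trans (hC' k))
    calc (M.t k (P k i j * star (P k i j))).re
        ≤ ∑ j, (M.t k (P k i j * star (P k i j))).re :=
          Finset.single_le_sum (f := fun j => (M.t k (P k i j * star (P k i j))).re)
            (fun j _ => hposP k _) (Finset.mem_univ j)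
      _ ≤ _ := Finset.single_le_sum (f := fun i => ∑ j, (M.t k (P k i j * star (P k i j))).re)
            (fun i _ => Finset.sum_nonneg fun j _ => hposP k _) (Finset.mem_univ i)
  let VQ : Fin m → Fin m → M.V := fun i j => ⟨fun k => Q k i j, C, fun k => hQle k i j⟩
  let VP : Fin m → Fin m → M.V := fun i j => ⟨fun k => star (P k i j), C, fun k => by
    have := hPle k i j
    simpa using this⟩
  let Xm : ∀ k, Matrix (Fin m) (Fin m) (M.A k) := fun k =>
    Matrix.of fun i j => ∑ p : Fin n, w p i j • M.Φ k p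
  -- limits of the two functionals on the bounded sequences
  have limA : ∀ (B : M.Bd) (i j : Fin m), Tendsto (fun k => M.t k (B.1 k * Xm k i j)) U
      (𝓝 (∑ p : Fin n, w p i j * ⟪vec (X p), π B (vec (Y p))⟫_ℂ)) := by
    intro B i j
    have h := tendsto_finsetSum (Finset.univ : Finset (Fin n)) (fun p _ =>
      (lim1 (X p) (Y p) B (fun k => M.Φ k p) (hXY p)).const_mul (w p i j))
    refine h.congr (fun k => ?_)
    simp only [Xm, Matrix.of_apply, Finset.mul_sum, map_sum, mul_smul_comm, map_smul, smul_eq_mul]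
  have limB : ∀ (B : M.Bd) (i j : Fin m), Tendsto (fun k => M.t k (B.1 k * Xm k i j)) U
      (𝓝 (∑ s : Fin m, ⟪vec (VP s j), π B (vec (VQ i s))⟫_ℂ)) := by
    intro B i j
    have h := tendsto_finsetSum (Finset.univ : Finset (Fin m)) (fun s _ =>
      (lim1 (VP s j) (VQ i s) B (fun k => Q k i s * P k s j) (fun k => by simp [VP, VQ])))
    refine h.congr (fun k => ?_)
    have e : Xm k i j = ∑ s, Q k i s * P k s j := by
      have := congrFun (congrFun (h1 k) i) j
      rw [Matrix.mul_apply] at this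
      exact this.symm
    rw [e, Finset.mul_sum, map_sum]
  -- agreement on the bicommutant
  have agree : ∀ (i j : Fin m) (T : N.toStarSubalgebra),
      ∑ p : Fin n, w p i j * vf N (vec (X p)) (vec (Y p)) T
        = ∑ s : Fin m, ⟪vec (VP s j), (T : H →L[ℂ] H) (vec (VQ i s))⟫_ℂ := by
    intro i j T
    have hT : (T : H →L[ℂ] H) ∈ Set.centralizer (Set.centralizer
        ((π.range : StarSubalgebra ℂ (H →L[ℂ] H)) : Set (H →L[ℂ] H))) := T.2
    have h := vn_agree (π.range) (Finset.univ : Finset (Fin n ⊕ Fin m))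
      (Sum.elim (fun p => (starRingEnd ℂ (w p i j)) • vec (X p)) (fun s => - vec (VP s j)))
      (Sum.elim (fun p => vec (Y p)) (fun s => vec (VQ i s))) ?_ (T : H →L[ℂ] H) hT
    · rw [Fintype.sum_sum_type] at h
      simp only [Sum.elim_inl, Sum.elim_inr, inner_smul_left, inner_neg_left,
        RingHomCompTriple.comp_apply, RingHom.id_apply, Finset.sum_neg_distrib] at h
      simp only [vf_apply]
      exact sub_eq_zero.1 (by rw [sub_eq_add_neg]; exact h)
    · rintro _ ⟨B, rfl⟩
      rw [Fintype.sum_sum_type]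
      simp only [Sum.elim_inl, Sum.elim_inr, inner_smul_left, inner_neg_left,
        RingHomCompTriple.comp_apply, RingHom.id_apply, Finset.sum_neg_distrib]
      rw [← sub_eq_add_neg, sub_eq_zero]
      exact tendsto_nhds_unique (limA B i j) (limB B i j)
  -- the value
  have hval : ∀ T : Matrix (Fin m) (Fin m) N.toStarSubalgebra,
      ∑ p : Fin n, (w p * Matrix.of fun i j => vf N (vec (X p)) (vec (Y p)) (T i j)).trace
        = ∑ i, ∑ j, ∑ p : Fin n, w p i j * vf N (vec (X p)) (vec (Y p)) (T j i) := by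
    intro T
    simp only [Matrix.trace, Matrix.diag_apply, Matrix.mul_apply, Matrix.of_apply]
    rw [Finset.sum_comm]
    refine Finset.sum_congr rfl (fun i _ => ?_)
    rw [Finset.sum_comm]
  -- sums of norms
  have sQ : ∑ s, ∑ i, ‖vec (VQ i s)‖ ^ 2 ≤ dualNorm w := by
    have hs : Tendsto (fun k => ∑ s, ∑ i, (M.t k (star (Q k i s) * Q k i s)).re) U
        (𝓝 (∑ s, ∑ i, ‖vec (VQ i s)‖ ^ 2)) :=
      tendsto_finsetSum _ (fun s _ => tendsto_finsetSum _ (fun i _ => lim2 (VQ i s)))
    refine le_of_tendsto_of_tendsto hs hLU (Eventually.of_forall fun k => ?_)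
    have := h2 k
    rw [Finset.sum_comm] at this
    exact this
  have sP : ∑ s, ∑ j, ‖vec (VP s j)‖ ^ 2 ≤ dualNorm w := by
    have hs : Tendsto (fun k => ∑ s, ∑ j, (M.t k (star (star (P k s j)) * star (P k s j))).re) U
        (𝓝 (∑ s, ∑ j, ‖vec (VP s j)‖ ^ 2)) :=
      tendsto_finsetSum _ (fun s _ => tendsto_finsetSum _ (fun j _ => lim2 (VP s j)))
    refine le_of_tendsto_of_tendsto hs hLU (Eventually.of_forall fun k => ?_)
    simpa using h3 k
  constructor
  · -- upper bound
    rintro _ ⟨T, hT, rfl⟩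
    rw [hval]
    have e1 : ∑ i, ∑ j, ∑ p : Fin n, w p i j * vf N (vec (X p)) (vec (Y p)) (T j i)
        = ∑ s, ∑ j, ⟪vec (VP s j), ∑ i, (T j i : H →L[ℂ] H) (vec (VQ i s))⟫_ℂ := by
      simp only [agree, inner_sum]
      calc _ = ∑ j, ∑ i, ∑ s, ⟪vec (VP s j), (T j i : H →L[ℂ] H) (vec (VQ i s))⟫_ℂ :=
            Finset.sum_comm
        _ = ∑ j, ∑ s, ∑ i, ⟪vec (VP s j), (T j i : H →L[ℂ] H) (vec (VQ i s))⟫_ℂ :=
            Finset.sum_congr rfl fun j _ => Finset.sum_comm
        _ = _ := Finset.sum_comm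
    rw [e1]
    have e2 : ∀ s, ∑ j, ‖∑ i, (T j i : H →L[ℂ] H) (vec (VQ i s))‖ ^ 2
        ≤ ∑ i, ‖vec (VQ i s)‖ ^ 2 := by
      intro s
      exact hT (fun i => vec (VQ i s))
    calc ‖∑ s, ∑ j, ⟪vec (VP s j), ∑ i, (T j i : H →L[ℂ] H) (vec (VQ i s))⟫_ℂ‖
        ≤ ∑ s, ∑ j, ‖⟪vec (VP s j), ∑ i, (T j i : H →L[ℂ] H) (vec (VQ i s))⟫_ℂ‖ :=
          (norm_sum_le _ _).trans (Finset.sum_le_sum fun s _ => norm_sum_le _ _)
      _ ≤ ∑ s, ∑ j, (‖vec (VP s j)‖ ^ 2 / 2
            + ‖∑ i, (T j i : H →L[ℂ] H) (vec (VQ i s))‖ ^ 2 / 2) := by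
          refine Finset.sum_le_sum fun s _ => Finset.sum_le_sum fun j _ => ?_
          refine (norm_inner_le_norm _ _).trans ?_
          nlinarith [sq_nonneg (‖vec (VP s j)‖ - ‖∑ i, (T j i : H →L[ℂ] H) (vec (VQ i s))‖)]
      _ = (∑ s, ∑ j, ‖vec (VP s j)‖ ^ 2) / 2
            + (∑ s, ∑ j, ‖∑ i, (T j i : H →L[ℂ] H) (vec (VQ i s))‖ ^ 2) / 2 := by
          simp only [Finset.sum_add_distrib, Finset.sum_div]
      _ ≤ (∑ s, ∑ j, ‖vec (VP s j)‖ ^ 2) / 2 + (∑ s, ∑ i, ‖vec (VQ i s)‖ ^ 2) / 2 := by
          have := Finset.sum_le_sum fun s (_ : s ∈ (Finset.univ : Finset (Fin m))) => e2 s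
          linarith
      _ ≤ dualNorm w := by linarith
  · -- the value is attained
    intro r hr
    let B : Fin m → Fin m → M.Bd := fun i j =>
      ⟨fun k => b k i j, 1, fun k => entry_norm_le (h4 k) i j⟩
    let T : Matrix (Fin m) (Fin m) N.toStarSubalgebra := Matrix.of fun i j =>
      ⟨π (B i j), le_bic ⟨B i j, rfl⟩⟩
    have hTc : MatContr (T.map fun S => (S : H →L[ℂ] H)) := by
      have hTij : ∀ i j, (T.map fun S => (S : H →L[ℂ] H)) i j = π (B i j) := fun i j => rfl
      have hd : DenseRange (Pi.map (fun _ : Fin m => vec)) := DenseRange.piMap fun _ => hdense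
      refine isClosed_property hd ?_ ?_
      · refine isClosed_le ?_ ?_
        · fun_prop
        · fun_prop
      · intro x
        have hm1 : ∀ j, Pi.map (fun _ : Fin m => vec) x j = vec (x j) := fun j => rfl
        simp only [hTij, hm1]
        have key : ∀ i, Tendsto (fun k => (M.t k (star (∑ j, (B i j).1 k * (x j).1 k)
            * (∑ j, (B i j).1 k * (x j).1 k))).re) U (𝓝 (‖∑ j, π (B i j) (vec (x j))‖ ^ 2)) := by
          intro i
          have e : ((‖∑ j, π (B i j) (vec (x j))‖ : ℂ)) ^ 2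
              = ∑ l, ∑ j, ⟪vec (x j), π (star (B i j) * B i l) (vec (x l))⟫_ℂ := by
            have h0 := inner_self_eq_norm_sq_to_K (𝕜 := ℂ) (∑ j, π (B i j) (vec (x j)))
            simp only [Complex.coe_algebraMap] at h0
            rw [← h0, inner_sum]
            refine Finset.sum_congr rfl fun l _ => ?_
            rw [sum_inner]
            refine Finset.sum_congr rfl fun j _ => ?_
            rw [map_mul, map_star, mul_apply_eq_comp,
              ContinuousLinearMap.star_eq_adjoint, ContinuousLinearMap.adjoint_inner_right]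
          have h := tendsto_finsetSum (Finset.univ : Finset (Fin m)) (fun l _ =>
            tendsto_finsetSum (Finset.univ : Finset (Fin m)) (fun j _ =>
              hlim (x j) (x l) (star (B i j) * B i l)))
          rw [← e] at h
          have h' := (Complex.continuous_re.tendsto _).comp h
          rw [← Complex.ofReal_pow, Complex.ofReal_re] at h'
          refine h'.congr (fun k => ?_)
          simp only [Function.comp]
          congr 1
          rw [star_sum, Finset.sum_mul_sum, map_sum, Finset.sum_comm]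
          refine Finset.sum_congr rfl fun j _ => ?_
          rw [map_sum]
          refine Finset.sum_congr rfl fun l _ => ?_
          congr 1
          rw [star_mul]
          change star ((x j).1 k) * ((star ((B i j).1 k) * (B i l).1 k) * (x l).1 k) = _
          simp only [mul_assoc]
        refine le_of_tendsto_of_tendsto (tendsto_finsetSum _ fun i _ => key i)
          (tendsto_finsetSum _ fun j _ => lim2 (x j)) (Eventually.of_forall fun k => ?_)
        have hid := contr_identity (h4 k) (fun j => (x j).1 k)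
        have hid' := congrArg (fun z => (M.t k z).re) hid
        simp only [map_add, Complex.add_re, map_sum, Complex.re_sum] at hid'
        have hc : 0 ≤ ∑ i, (M.t k (star (∑ j, c k i j * (x j).1 k)
            * (∑ j, c k i j * (x j).1 k))).re := Finset.sum_nonneg fun i _ => hpos k _
        change (∑ i, (M.t k (star (∑ j, b k i j * (x j).1 k)
            * (∑ j, b k i j * (x j).1 k))).re) ≤ _
        linarith
    have hle : ‖∑ p : Fin n, (w p * Matrix.of fun i j =>
        vf N (vec (X p)) (vec (Y p)) (T i j)).trace‖ ≤ r := hr ⟨T, hTc, rfl⟩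
    refine le_trans ?_ hle
    refine le_trans ?_ (Complex.re_le_norm _)
    rw [hval]
    have hl : Tendsto (fun k => (∑ i, M.t k ((Xm k * b k) i i)).re) U
        (𝓝 (∑ i, ∑ j, ∑ p : Fin n, w p i j * vf N (vec (X p)) (vec (Y p)) (T j i)).re) := by
      have h := tendsto_finsetSum (Finset.univ : Finset (Fin m)) (fun i _ =>
        tendsto_finsetSum (Finset.univ : Finset (Fin m)) (fun j _ => limA (B j i) i j))
      have h' := (Complex.continuous_re.tendsto _).comp h
      refine h'.congr (fun k => ?_)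
      simp only [Function.comp]
      congr 1
      refine Finset.sum_congr rfl fun i _ => ?_
      rw [Matrix.mul_apply, map_sum]
      refine Finset.sum_congr rfl fun j _ => ?_
      exact M.t_tr k _ _
    have hL' : Tendsto (fun k : ℕ => L k - 1 / ((k : ℝ) + 1)) U (𝓝 (dualNorm w)) := by
      have h0 : Tendsto (fun k : ℕ => 1 / ((k : ℝ) + 1)) U (𝓝 0) :=
        tendsto_one_div_add_atTop_nhds_zero_nat.mono_left hUat
      simpa using hLU.sub h0
    exact le_of_tendsto_of_tendsto hL' hl (Eventually.of_forall fun k => h5 k)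

end OH246
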