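import Mathlib

/-!
# OH in the predual of a von Neumann algebra: shared definitions
-/

open scoped BigOperators ComplexOrder Matrix InnerProductSpace Topology
open Filter

noncomputable section

namespace OH246

/-! ## Finite-dimensional part -/

section fin
variable {m k l ι : Type*} [Fintype m] [Fintype k] [Fintype l] [Fintype ι]

/-- squared Hilbert–Schmidt norm -/
def hsq (u : Matrix m k ℂ) : ℝ := ∑ i, ∑ j, ‖u i j‖ ^ 2

/-- Hilbert–Schmidt norm -/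
def hsn (u : Matrix m k ℂ) : ℝ := Real.sqrt (hsq u)

/-- `‖∑ z_p ⊗ conj z_p‖ ≤ κ`, as the norm of the bilinear form
`(u,v) ↦ ∑ tr(v* z_p u z_p*)` on Hilbert–Schmidt space. -/
def KappaLE (z : ι → Matrix m m ℂ) (κ : ℝ) : Prop :=
  ∀ u v : Matrix m m ℂ, ‖∑ p, (vᴴ * z p * u * (z p)ᴴ).trace‖ ≤ κ * (hsn u * hsn v)

/-- the set of values `|∑ tr(w_p z_p)|` with `z` in the unit ball of `M_m(OH)`. -/
def dualSet (w : ι → Matrix m m ℂ) : Set ℝ :=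
  {r | ∃ z : ι → Matrix m m ℂ, KappaLE z 1 ∧ r = ‖∑ p, (w p * z p).trace‖}

/-- the norm of `w` in `S_1^m[OH]`. -/
def dualNorm (w : ι → Matrix m m ℂ) : ℝ := sSup (dualSet w)

/-- the operator `x_p ⊗ z_p` as a matrix over the product index set. -/
def kron2 (x : Matrix m m ℂ) (z : Matrix k k ℂ) : Matrix (m × k) (m × k) ℂ :=
  Matrix.of fun a b => x a.1 b.1 * z a.2 b.2

/-- operator norm (on `ℓ²`) of a square complex matrix. -/
def opn [DecidableEq m] (M : Matrix m m ℂ) : ℝ :=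
  ‖(Matrix.toEuclideanCLM (n := m) (𝕜 := ℂ) M : EuclideanSpace ℂ m →L[ℂ] EuclideanSpace ℂ m)‖

/-- `kap x = ‖∑ x_p ⊗ conj x_p‖`, the square of the norm of `x` in `M_m(OH)`. -/
def kap [DecidableEq m] (x : ι → Matrix m m ℂ) : ℝ :=
  opn (∑ p, kron2 (x p) ((x p).map (starRingEnd ℂ)))

/-- `H(w,A) = ∑ w_p A w_p*` -/
def Hof (w : ι → Matrix m m ℂ) (A : Matrix m m ℂ) : Matrix m m ℂ := ∑ p, w p * A * (w p)ᴴ

/-- `H'(w,B) = ∑ w_p* B w_p` -/
def Hof' (w : ι → Matrix m m ℂ) (B : Matrix m m ℂ) : Matrix m m ℂ := ∑ p, (w p)ᴴ * B * w p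

end fin

/-! ## Analysis part -/

/-- `F_{y,d}(H) = ∑_{a<d} (y (a+1)^{3/2} + H)⁻¹`. -/
def Fmat {m : Type*} [Fintype m] [DecidableEq m] (y : ℝ) (d : ℕ) (H : Matrix m m ℂ) :
    Matrix m m ℂ :=
  ∑ a ∈ Finset.range d, (((y * ((a : ℝ) + 1) ^ (3 / 2 : ℝ) : ℝ) : ℂ) • (1 : Matrix m m ℂ) + H)⁻¹

/-- The constant `C₀ = ∫_0^∞ dx/(x^{3/2}+1)`. -/
def C0 : ℝ := ∫ x in Set.Ioi (0 : ℝ), 1 / (x ^ (3 / 2 : ℝ) + 1)

/-- `A, B` solve the Dyson system for `w` at `(y,d)`. -/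
structure Solves {m ι : Type*} [Fintype m] [DecidableEq m] [Fintype ι]
    (w : ι → Matrix m m ℂ) (y : ℝ) (d : ℕ) (A B : Matrix m m ℂ) : Prop where
  posA : A.PosDef
  posB : B.PosDef
  eqB : B = Fmat y d (Hof w A)
  eqA : A = Fmat y d (Hof' w B)

/-- the universal constant -/
def cst : ℝ := (2 / Real.pi) * C0 ^ (3 / 2 : ℝ)

/-! ## Fock space part -/

/-- full Fock space over `ℓ²(β × Bool)`. -/
abbrev Fock (β : Type*) := lp (fun _ : List (β × Bool) => ℂ) 2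

/-! ## Operator spaces: the final statement -/

section final
variable {H : Type*} [NormedAddCommGroup H] [InnerProductSpace ℂ H]

/-- a matrix of operators is a contraction on `H^m`. -/
def MatContr {m : ℕ} (T : Matrix (Fin m) (Fin m) (H →L[ℂ] H)) : Prop :=
  ∀ ξ : Fin m → H, ∑ i, ‖∑ j, T i j (ξ j)‖ ^ 2 ≤ ∑ j, ‖ξ j‖ ^ 2

variable [CompleteSpace H]

/-- The predual of a von Neumann algebra `M ⊆ B(H)`: the norm closed linear span in the dual `M*`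
of the vector functionals `T ↦ ⟪ξ, T η⟫`. -/
def Predual (M : VonNeumannAlgebra H) : Submodule ℂ (M.toStarSubalgebra →L[ℂ] ℂ) :=
  (Submodule.span ℂ {f : M.toStarSubalgebra →L[ℂ] ℂ |
    ∃ ξ η : H, ∀ T : M.toStarSubalgebra, f T = ⟪ξ, (T : H →L[ℂ] H) η⟫_ℂ}).topologicalClosure

/-- The set of values `‖[f_{ij}(T_{kl})]‖`, `T` in the unit ball of `M_m(M)`, `m ∈ ℕ`; its least
upper bound is the norm of `[f_{ij}]` in `M_n(M_*) ⊆ M_n(M*) = CB(M, M_n)`. -/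
def cbSet (M : VonNeumannAlgebra H) {n : ℕ}
    (f : Matrix (Fin n) (Fin n) (M.toStarSubalgebra →L[ℂ] ℂ)) : Set ℝ :=
  {r | ∃ (m : ℕ) (T : Matrix (Fin m) (Fin m) M.toStarSubalgebra),
    MatContr (T.map (fun S => (S : H →L[ℂ] H))) ∧
    r = opn (Matrix.of fun (a b : Fin n × Fin m) => f a.1 b.1 (T a.2 b.2))}

/-- The norm of `[ξ_{ij}]` in `M_n(OH)`: the square root of the norm of the matrix
`∑_p x_p ⊗ conj x_p`, `x_p = [ξ_{ij}(p)]`, whose `((i,k),(j,l))` entry is `⟪ξ_{kl}, ξ_{ij}⟫`. -/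
def ohNorm {n : ℕ} (ξ : Matrix (Fin n) (Fin n) (lp (fun _ : ℕ => ℂ) 2)) : ℝ :=
  Real.sqrt (opn (Matrix.of fun (a b : Fin n × Fin n) => ⟪ξ a.2 b.2, ξ a.1 b.1⟫_ℂ))

/-- `u : OH → M_*` is a complete isometry. -/
def IsCompleteIsometry (M : VonNeumannAlgebra H)
    (u : lp (fun _ : ℕ => ℂ) 2 →ₗ[ℂ] Predual M) : Prop :=
  ∀ (n : ℕ) (ξ : Matrix (Fin n) (Fin n) (lp (fun _ : ℕ => ℂ) 2)),
    IsLUB (cbSet M (ξ.map fun x => (u x : M.toStarSubalgebra →L[ℂ] ℂ))) (ohNorm ξ)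

end final

/-- The final statement. -/
def FinalStatement : Prop :=
  ∃ (H : Type) (_ : NormedAddCommGroup H) (_ : InnerProductSpace ℂ H) (_ : CompleteSpace H)
    (M : VonNeumannAlgebra H) (u : lp (fun _ : ℕ => ℂ) 2 →ₗ[ℂ] Predual M),
    IsCompleteIsometry M u

/-! ## The input of the assembly -/

/-- Data for the ultraproduct construction. -/
structure Model where
  A : ℕ → Type
  inst : ∀ k, CStarAlgebra (A k)
  t : ∀ k, A k →ₗ[ℂ] ℂ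
  t_pos : ∀ k x, 0 ≤ t k (star x * x)
  t_tr : ∀ k x y, t k (x * y) = t k (y * x)
  Φ : ∀ k, ℕ → A k
  main : ∀ (n m : ℕ) (w : Fin n → Matrix (Fin m) (Fin m) ℂ), ∃ L : ℕ → ℝ,
    Tendsto L atTop (𝓝 (dualNorm w)) ∧ ∀ k, ∃ Q P b c : Matrix (Fin m) (Fin m) (A k),
      Q * P = (Matrix.of fun i j => ∑ p : Fin n, w p i j • Φ k p) ∧
      ∑ i, ∑ j, (t k (star (Q i j) * Q i j)).re ≤ L k ∧
      ∑ i, ∑ j, (t k (P i j * star (P i j))).re ≤ L k ∧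
      bᴴ * b + cᴴ * c = 1 ∧
      L k - 1 / ((k : ℝ) + 1) ≤
        (∑ i, t k (((Matrix.of fun i j => ∑ p : Fin n, w p i j • Φ k p) * b) i i)).re

attribute [instance] Model.inst

end OH246
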