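import Pool.Agent.OH246.Fock

/-!
# Module D: the Dyson equations for an operator-valued circular element
-/

open scoped BigOperators ComplexOrder Matrix InnerProductSpace Topology ENNReal
open Filter MeasureTheory

noncomputable section

namespace OH246

/-! ## The ring computation -/

/-- The algebraic heart of the Dyson equation. -/
theorem dy_ring {M β : Type*} [Ring M] [Algebra ℂ M] (s : Finset β) (y : ℂ)
    {X Y P R₁ R₂ e₁ e₂ : M} {r v w : β → M}
    (h1 : R₁ * (y ^ 2 • (1 : M) + X * Y) = 1) (h2 : (y ^ 2 • (1 : M) + Y * X) * R₂ = 1)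
    (hX : ∀ b ∈ s, X * r b = r b * X + v b * P)
    (hY : ∀ b ∈ s, Y * r b = r b * Y)
    (hYP : Y * P = ∑ b ∈ s, r b * w b * P)
    (hPr : ∀ b ∈ s, P * r b = 0) (hPP : P * P = P)
    (hPv : ∀ b ∈ s, Commute P (v b)) (hPw : ∀ b ∈ s, Commute P (w b))
    (hPe : Commute P e₂)
    (he₁ : y • (P * R₁ * P) = e₁ * P) (he₂ : y • (P * R₂ * P) = e₂ * P) :
    e₁ * (y • (1 : M) + ∑ b ∈ s, v b * e₂ * w b) * P = P := by
  set L : M := y • (1 : M) + ∑ b ∈ s, v b * e₂ * w b with hL
  have hLP : Commute P L := by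
    rw [hL]
    refine Commute.add_right ((Commute.one_right P).smul_right y) ?_
    exact Commute.sum_right _ _ _ fun b hb => ((hPv b hb).mul_right hPe).mul_right (hPw b hb)
  set c : M := ∑ b ∈ s, r b * R₂ * w b * P with hc
  set a : M := P - ∑ b ∈ s, r b * X * R₂ * w b * P with ha
  have hYX : Y * X * R₂ = 1 - y ^ 2 • R₂ := by
    rw [add_mul, smul_mul_assoc, one_mul] at h2
    rw [← h2]; abel
  have hYa : Y * a = y ^ 2 • c := by
    rw [ha, hc, mul_sub, hYP, Finset.mul_sum, Finset.smul_sum, ← Finset.sum_sub_distrib]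
    refine Finset.sum_congr rfl fun b hb => ?_
    have e1 : Y * (r b * X * R₂ * w b * P) = r b * (Y * X * R₂) * w b * P := by
      rw [← mul_assoc, ← mul_assoc, ← mul_assoc, ← mul_assoc, hY b hb]
      simp only [mul_assoc]
    rw [e1, hYX, mul_sub, mul_one, sub_mul, sub_mul]
    simp only [mul_smul_comm, smul_mul_assoc]
    abel
  have hXc : X * c = ∑ b ∈ s, r b * X * R₂ * w b * P + ∑ b ∈ s, v b * (P * R₂ * P) * w b := by
    rw [hc, Finset.mul_sum, ← Finset.sum_add_distrib]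
    refine Finset.sum_congr rfl fun b hb => ?_
    have e1 : X * (r b * R₂ * w b * P) = (r b * X + v b * P) * R₂ * w b * P := by
      rw [← hX b hb]; simp only [mul_assoc]
    have e2 : v b * (P * R₂ * P) * w b = v b * P * R₂ * w b * P := by
      rw [mul_assoc (v b * P * R₂) (w b) P, ← (hPw b hb).eq]
      simp only [mul_assoc]
    rw [e1, e2]
    simp only [add_mul]
  have key : (y ^ 2 • (1 : M) + X * Y) * a = y • (L * P) := by
    have e3 : y • ∑ b ∈ s, v b * (P * R₂ * P) * w b = ∑ b ∈ s, v b * e₂ * w b * P := by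
      rw [Finset.smul_sum]
      refine Finset.sum_congr rfl fun b hb => ?_
      rw [← smul_mul_assoc, ← mul_smul_comm, he₂, mul_assoc, mul_assoc, mul_assoc, mul_assoc,
        (hPw b hb).eq]
    rw [add_mul, smul_mul_assoc, one_mul, mul_assoc, hYa, mul_smul_comm, hXc, ha, ← smul_add,
      hL, add_mul, Finset.sum_mul, ← e3, smul_mul_assoc, one_mul, ← smul_add, smul_smul, ← pow_two]
    congr 1
    abel
  have ha1 : a = y • (R₁ * (L * P)) := by
    have h3 : R₁ * ((y ^ 2 • (1 : M) + X * Y) * a) = R₁ * (y • (L * P)) := by rw [key]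
    rw [← mul_assoc, h1, one_mul, mul_smul_comm] at h3
    exact h3
  have ha2 : P * a = P := by
    rw [ha, mul_sub, hPP, Finset.mul_sum, Finset.sum_eq_zero, sub_zero]
    intro b hb
    simp only [← mul_assoc]
    rw [hPr b hb]
    simp only [zero_mul]
  calc e₁ * L * P = e₁ * P * L := by rw [mul_assoc, ← hLP.eq, ← mul_assoc]
    _ = y • (P * R₁ * P) * L := by rw [he₁]
    _ = P * (y • (R₁ * (L * P))) := by
        rw [smul_mul_assoc, mul_assoc, hLP.eq, mul_smul_comm]
        simp only [mul_assoc]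
    _ = P := by rw [← ha1, ha2]

/-! ## Matrices of operators -/

section mat
variable {β J : Type*} [Fintype J] [DecidableEq J]

/-- scalar matrices -/
def dySc (β : Type*) {J : Type*} (V : Matrix J J ℂ) : Matrix J J (Fock β →L[ℂ] Fock β) :=
  Matrix.of fun j k => V j k • (1 : Fock β →L[ℂ] Fock β)

/-- constant diagonal matrices -/
def dyDg (J : Type*) [DecidableEq J] (T : Fock β →L[ℂ] Fock β) :
    Matrix J J (Fock β →L[ℂ] Fock β) :=
  Matrix.diagonal fun _ => T

/-- the vacuum expectation of the entries -/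
def dyE {J : Type*} (R : Matrix J J (Fock β →L[ℂ] Fock β)) : Matrix J J ℂ :=
  Matrix.of fun j k => ⟪Om β, R j k (Om β)⟫_ℂ

/-- the projection onto the vacuum -/
def dyP (β : Type*) : Fock β →L[ℂ] Fock β := (innerSL ℂ (Om β)).smulRight (Om β)

theorem dyP_apply (v : Fock β) : dyP β v = ⟪Om β, v⟫_ℂ • Om β := by
  simp [dyP]

theorem dyOm : ⟪Om β, Om β⟫_ℂ = 1 := by
  classical
  rw [inner_self_eq_norm_sq_to_K, norm_Om]; simp

theorem dyP_Om : dyP β (Om β) = Om β := by
  rw [dyP_apply, dyOm, one_smul]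

theorem dySc_mul (V W : Matrix J J ℂ) : dySc β (V * W) = dySc β V * dySc β W := by
  ext1 j k
  simp only [dySc, Matrix.of_apply, Matrix.mul_apply, Finset.sum_smul, smul_mul_smul_comm,
    mul_one]

theorem dySc_one : dySc β (1 : Matrix J J ℂ) = 1 := by
  ext1 j k
  simp only [dySc, Matrix.of_apply, Matrix.one_apply]
  split_ifs <;> simp

theorem dySc_smul (c : ℂ) (V : Matrix J J ℂ) : dySc β (c • V) = c • dySc β V := by
  ext1 j k
  simp only [dySc, Matrix.of_apply, Matrix.smul_apply, smul_smul, smul_eq_mul]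

theorem dySc_add (V W : Matrix J J ℂ) : dySc β (V + W) = dySc β V + dySc β W := by
  ext1 j k
  simp only [dySc, Matrix.of_apply, Matrix.add_apply, add_smul]

theorem dySc_sum {ι : Type*} (s : Finset ι) (V : ι → Matrix J J ℂ) :
    dySc β (∑ b ∈ s, V b) = ∑ b ∈ s, dySc β (V b) := by
  ext1 j k
  simp only [dySc, Matrix.of_apply, Matrix.sum_apply, Finset.sum_smul]

theorem dyDg_mul (S T : Fock β →L[ℂ] Fock β) : dyDg J (S * T) = dyDg J S * dyDg J T := by
  simp only [dyDg, Matrix.diagonal_mul_diagonal]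

theorem dySc_dyDg (V : Matrix J J ℂ) (T : Fock β →L[ℂ] Fock β) :
    dySc β V * dyDg J T = Matrix.of fun j k => V j k • T := by
  ext1 j k
  simp only [dySc, dyDg, Matrix.of_apply, Matrix.mul_diagonal, smul_mul_assoc, one_mul]

theorem dy_comm (V : Matrix J J ℂ) (T : Fock β →L[ℂ] Fock β) :
    Commute (dyDg J T) (dySc β V) := by
  unfold Commute SemiconjBy
  rw [dySc_dyDg]
  ext1 j k
  simp only [dySc, dyDg, Matrix.of_apply, Matrix.diagonal_mul, mul_smul_comm, mul_one]

theorem dyE_P (T : Matrix J J (Fock β →L[ℂ] Fock β)) :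
    dyDg J (dyP β) * T * dyDg J (dyP β) = dySc β (dyE T) * dyDg J (dyP β) := by
  rw [dySc_dyDg]
  ext1 j k
  simp only [dyDg, Matrix.of_apply, Matrix.diagonal_mul, Matrix.mul_diagonal, dyE]
  ext1 v
  simp only [mul_apply_eq_comp, smul_apply, dyP_apply, map_smul, smul_smul]
  rw [mul_comm]

theorem dySc_inj {V W : Matrix J J ℂ}
    (h : dySc β V * dyDg J (dyP β) = dySc β W * dyDg J (dyP β)) : V = W := by
  rw [dySc_dyDg, dySc_dyDg] at h
  ext j k
  have h1 := congrArg (fun T => ⟪Om β, T j k (Om β)⟫_ℂ) h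
  simpa only [Matrix.of_apply, smul_apply, dyP_Om, inner_smul_right, dyOm, mul_one] using h1

theorem gof_eq (y : ℝ) (R : Matrix J J (Fock β →L[ℂ] Fock β)) :
    gof y R = (y : ℂ) • dyE R := by
  ext j k
  simp only [gof, dyE, Matrix.of_apply, Matrix.smul_apply, smul_eq_mul]

/-- One half of the Dyson system, for abstract coefficients. -/
theorem dy_half [DecidableEq β] (s : Finset β) (V : β → Matrix J J ℂ) (y : ℝ)
    (x z r : β → Fock β →L[ℂ] Fock β)
    (hx : ∀ b c, x b * r c = r c * x b + if b = c then dyP β else 0)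
    (hz : ∀ b c, z b * r c = r c * z b)
    (hzP : ∀ b, z b * dyP β = r b * dyP β)
    (hPr : ∀ c, dyP β * r c = 0)
    {X Y R₁ R₂ : Matrix J J (Fock β →L[ℂ] Fock β)}
    (hX : X = ∑ b ∈ s, dySc β (V b) * dyDg J (x b))
    (hY : Y = ∑ b ∈ s, dySc β ((V b)ᴴ) * dyDg J (z b))
    (h1 : R₁ * (((y : ℂ) ^ 2) • (1 : Matrix J J (Fock β →L[ℂ] Fock β)) + X * Y) = 1)
    (h2 : (((y : ℂ) ^ 2) • (1 : Matrix J J (Fock β →L[ℂ] Fock β)) + Y * X) * R₂ = 1) :
    gof y R₁ * ((y : ℂ) • (1 : Matrix J J ℂ) + ∑ b ∈ s, V b * gof y R₂ * (V b)ᴴ) = 1 := by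
  have hPP : dyP β * dyP β = dyP β := by
    ext1 v
    simp only [mul_apply_eq_comp, dyP_apply, map_smul, dyOm, one_smul]
  have hE : ∀ R : Matrix J J (Fock β →L[ℂ] Fock β),
      (y : ℂ) • (dyDg J (dyP β) * R * dyDg J (dyP β)) = dySc β (gof y R) * dyDg J (dyP β) := by
    intro R
    rw [dyE_P, gof_eq, dySc_smul, smul_mul_assoc]
  have key := dy_ring (M := Matrix J J (Fock β →L[ℂ] Fock β)) s (y : ℂ) (X := X) (Y := Y)
    (P := dyDg J (dyP β)) (R₁ := R₁) (R₂ := R₂) (e₁ := dySc β (gof y R₁))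
    (e₂ := dySc β (gof y R₂)) (r := fun b => dyDg J (r b)) (v := fun b => dySc β (V b))
    (w := fun b => dySc β ((V b)ᴴ)) h1 h2 ?_ ?_ ?_ ?_ ?_ ?_ ?_ ?_ ?_ ?_
  · apply dySc_inj (β := β)
    rw [dySc_one, one_mul]
    rw [dySc_mul, dySc_add, dySc_smul, dySc_one, dySc_sum]
    simp only [dySc_mul]
    exact key
  · intro c hc
    have e : dySc β (V c) * dyDg J (dyP β) =
        ∑ b ∈ s, dySc β (V b) * (dyDg J (if b = c then dyP β else 0)) := by
      rw [Finset.sum_eq_single c]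
      · rw [if_pos rfl]
      · intro b _ hbc
        rw [if_neg hbc]
        simp [dyDg]
      · intro h; exact absurd hc h
    rw [e, hX, Finset.sum_mul, Finset.mul_sum, ← Finset.sum_add_distrib]
    refine Finset.sum_congr rfl fun b _ => ?_
    rw [mul_assoc, ← dyDg_mul, hx b c, ← mul_assoc (dyDg J (r c)), (dy_comm (V b) (r c)).eq,
      mul_assoc, ← dyDg_mul, ← mul_add]
    congr 1
    simp only [dyDg, Matrix.diagonal_add]
  · intro c _
    rw [hY, Finset.sum_mul, Finset.mul_sum]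
    refine Finset.sum_congr rfl fun b _ => ?_
    rw [mul_assoc, ← dyDg_mul, hz b c, dyDg_mul, ← mul_assoc, ← mul_assoc,
      (dy_comm ((V b)ᴴ) (r c)).eq]
  · rw [hY, Finset.sum_mul]
    refine Finset.sum_congr rfl fun b _ => ?_
    rw [mul_assoc, ← dyDg_mul, hzP b, (dy_comm ((V b)ᴴ) (r b)).eq, mul_assoc, dyDg_mul]
  · intro c _
    rw [← dyDg_mul, hPr c]
    simp [dyDg]
  · rw [← dyDg_mul, hPP]
  · intro b _; exact dy_comm _ _
  · intro b _; exact dy_comm _ _
  · exact dy_comm _ _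
  · exact hE R₁
  · exact hE R₂

end mat

section ops
variable {β : Type*} [DecidableEq β] {J : Type*} [Fintype J] [DecidableEq J]

theorem Xop_eq (s : Finset β) (V : β → Matrix J J ℂ) :
    Xop s V = ∑ b ∈ s, dySc β (V b) * dyDg J (circ b) := by
  ext1 j k
  simp only [Xop, dySc_dyDg, Matrix.of_apply, Matrix.sum_apply]

theorem Xop_star (s : Finset β) (V : β → Matrix J J ℂ) :
    (Xop s V)ᴴ = ∑ b ∈ s, dySc β ((V b)ᴴ) * dyDg J (ContinuousLinearMap.adjoint (circ b)) := by
  ext1 j k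
  simp only [Xop, dySc_dyDg, Matrix.of_apply, Matrix.sum_apply, Matrix.conjTranspose_apply,
    star_sum, star_smul, ContinuousLinearMap.star_eq_adjoint]

theorem dyE_star (R : Matrix J J (Fock β →L[ℂ] Fock β)) : dyE (Rᴴ) = (dyE R)ᴴ := by
  ext j k
  simp only [dyE, Matrix.of_apply, Matrix.conjTranspose_apply,
    ContinuousLinearMap.star_eq_adjoint, ContinuousLinearMap.adjoint_inner_right]
  exact (inner_conj_symm _ _).symm

theorem dyE_pos (T : Matrix J J (Fock β →L[ℂ] Fock β)) : (dyE (Tᴴ * T)).PosSemidef := by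
  have e : dyE (Tᴴ * T) = ∑ i, Matrix.gram ℂ (fun k => T i k (Om β)) := by
    ext j k
    simp only [dyE, Matrix.of_apply, Matrix.mul_apply, Matrix.conjTranspose_apply,
      ContinuousLinearMap.star_eq_adjoint, Matrix.sum_apply, Matrix.gram_apply]
    rw [ContinuousLinearMap.sum_apply, inner_sum]
    refine Finset.sum_congr rfl fun i _ => ?_
    rw [mul_apply_eq_comp, ContinuousLinearMap.adjoint_inner_right]
  rw [e]
  exact Matrix.posSemidef_sum _ fun i _ => Matrix.posSemidef_gram ℂ _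

theorem dyE_add (S T : Matrix J J (Fock β →L[ℂ] Fock β)) : dyE (S + T) = dyE S + dyE T := by
  ext j k
  simp only [dyE, Matrix.of_apply, Matrix.add_apply, add_apply, inner_add_right]

theorem dyE_smul (c : ℂ) (T : Matrix J J (Fock β →L[ℂ] Fock β)) : dyE (c • T) = c • dyE T := by
  ext j k
  simp only [dyE, Matrix.of_apply, Matrix.smul_apply, smul_apply, inner_smul_right, smul_eq_mul]

theorem dy_gof_pos {y : ℝ} (hy : 0 < y) {X R : Matrix J J (Fock β →L[ℂ] Fock β)}
    (h : (((y : ℂ) ^ 2) • (1 : Matrix J J (Fock β →L[ℂ] Fock β)) + Xᴴ * X) * R = 1) :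
    (gof y R).PosSemidef := by
  have e : Rᴴ = ((y : ℂ) ^ 2) • (Rᴴ * R) + (X * R)ᴴ * (X * R) := by
    have h1 : Rᴴ * ((((y : ℂ) ^ 2) • (1 : Matrix J J (Fock β →L[ℂ] Fock β)) + Xᴴ * X) * R) =
        Rᴴ := by rw [h, mul_one]
    rw [add_mul, smul_mul_assoc, one_mul, mul_add, mul_smul_comm] at h1
    rw [Matrix.conjTranspose_mul, mul_assoc, ← mul_assoc Xᴴ X R]
    exact h1.symm
  have h2 : (dyE (Rᴴ)).PosSemidef := by
    rw [e, dyE_add, dyE_smul]
    refine Matrix.PosSemidef.add ?_ (dyE_pos _)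
    have hy2 : (0 : ℂ) ≤ (y : ℂ) ^ 2 := by
      rw [← Complex.ofReal_pow]
      exact_mod_cast (sq_nonneg y)
    exact (dyE_pos R).smul hy2
  rw [dyE_star] at h2
  have h3 : (dyE R).PosSemidef := by
    have h4 := h2.conjTranspose
    rwa [Matrix.conjTranspose_conjTranspose] at h4
  rw [gof_eq]
  exact h3.smul (by exact_mod_cast hy.le)

theorem dy_P_rcr (i : β × Bool) : dyP β * rcr i = 0 := by
  ext1 v
  rw [mul_apply_eq_comp, dyP_apply, inner_Om_rcr, zero_smul]
  rfl

theorem dy_circ_rcr_true (b c : β) :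
    circ b * rcr (c, true) = rcr (c, true) * circ b + if b = c then dyP β else 0 := by
  ext1 v
  simp only [circ, add_mul, mul_add, add_apply, mul_apply_eq_comp, lcr_rcr, adj_lcr_rcr]
  by_cases h : b = c
  · subst h
    simp only [if_true, dyP_apply]
    abel
  · have h2 : ¬ ((b, true) = (c, true)) := by simpa using h
    simp only [h, h2, if_false, add_zero, zero_apply]

theorem dy_circ_rcr_false (b c : β) : circ b * rcr (c, false) = rcr (c, false) * circ b := by
  ext1 v
  simp only [circ, add_mul, mul_add, add_apply, mul_apply_eq_comp, lcr_rcr, adj_lcr_rcr]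
  have h2 : ¬ ((b, true) = (c, false)) := by simp
  simp only [h2, if_false, add_zero]

theorem dy_adj_circ (b : β) : ContinuousLinearMap.adjoint (circ b) =
    ContinuousLinearMap.adjoint (lcr (b, false)) + lcr (b, true) := by
  rw [circ, map_add, ContinuousLinearMap.adjoint_adjoint]

theorem dy_adj_rcr_false (b c : β) :
    ContinuousLinearMap.adjoint (circ b) * rcr (c, false) =
      rcr (c, false) * ContinuousLinearMap.adjoint (circ b) + if b = c then dyP β else 0 := by
  rw [dy_adj_circ]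
  ext1 v
  simp only [add_mul, mul_add, add_apply, mul_apply_eq_comp, lcr_rcr, adj_lcr_rcr]
  by_cases h : b = c
  · subst h
    simp only [if_true, dyP_apply]
    abel
  · have h2 : ¬ ((b, false) = (c, false)) := by simpa using h
    simp only [h, h2, if_false, add_zero, zero_apply]

theorem dy_adj_rcr_true (b c : β) :
    ContinuousLinearMap.adjoint (circ b) * rcr (c, true) =
      rcr (c, true) * ContinuousLinearMap.adjoint (circ b) := by
  rw [dy_adj_circ]
  ext1 v
  simp only [add_mul, mul_add, add_apply, mul_apply_eq_comp, lcr_rcr, adj_lcr_rcr]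
  have h2 : ¬ ((b, false) = (c, true)) := by simp
  simp only [h2, if_false, add_zero]

theorem dy_circ_P (b : β) : circ b * dyP β = rcr (b, false) * dyP β := by
  ext1 v
  simp only [mul_apply_eq_comp, dyP_apply, map_smul]
  congr 1
  simp only [circ, add_apply, adj_lcr_Om, add_zero, lcr_Om]

theorem dy_adj_P (b : β) :
    ContinuousLinearMap.adjoint (circ b) * dyP β = rcr (b, true) * dyP β := by
  rw [dy_adj_circ]
  ext1 v
  simp only [mul_apply_eq_comp, dyP_apply, map_smul]
  congr 1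
  simp only [add_apply, adj_lcr_Om, zero_add, lcr_Om]

/-- MODULE D (file Dyson.lean). -/
theorem dyson {J : Type*} [Fintype J] [DecidableEq J] (s : Finset β) (V : β → Matrix J J ℂ)
    {y : ℝ} (hy : 0 < y) {R₁ R₂ : Matrix J J (Fock β →L[ℂ] Fock β)}
    (h1 : (((y : ℂ) ^ 2) • (1 : Matrix J J (Fock β →L[ℂ] Fock β)) + Xop s V * (Xop s V)ᴴ) * R₁ = 1)
    (h1' : R₁ * (((y : ℂ) ^ 2) • (1 : Matrix J J (Fock β →L[ℂ] Fock β)) + Xop s V * (Xop s V)ᴴ) = 1)
    (h2 : (((y : ℂ) ^ 2) • (1 : Matrix J J (Fock β →L[ℂ] Fock β)) + (Xop s V)ᴴ * Xop s V) * R₂ = 1)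
    (h2' : R₂ * (((y : ℂ) ^ 2) • (1 : Matrix J J (Fock β →L[ℂ] Fock β)) + (Xop s V)ᴴ * Xop s V) = 1) :
    ((y : ℂ) • (1 : Matrix J J ℂ) + ∑ b ∈ s, V b * gof y R₂ * (V b)ᴴ) * gof y R₁ = 1 ∧
    ((y : ℂ) • (1 : Matrix J J ℂ) + ∑ b ∈ s, (V b)ᴴ * gof y R₁ * V b) * gof y R₂ = 1 ∧
    (gof y R₁).PosSemidef ∧ (gof y R₂).PosSemidef := by
  refine ⟨?_, ?_, ?_, ?_⟩
  · rw [mul_eq_one_comm]
    exact dy_half s V y circ (fun b => ContinuousLinearMap.adjoint (circ b))
      (fun b => rcr (b, true)) dy_circ_rcr_true dy_adj_rcr_true dy_adj_P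
      (fun c => dy_P_rcr _) (Xop_eq s V) (Xop_star s V) h1' h2
  · rw [mul_eq_one_comm]
    have h := dy_half s (fun b => (V b)ᴴ) y (fun b => ContinuousLinearMap.adjoint (circ b)) circ
      (fun b => rcr (b, false)) dy_adj_rcr_false dy_circ_rcr_false dy_circ_P
      (fun c => dy_P_rcr _) (Xop_star s V)
      (by simpa only [Matrix.conjTranspose_conjTranspose] using Xop_eq s V) h2' h1
    simpa only [Matrix.conjTranspose_conjTranspose] using h
  · have h3 := dy_gof_pos hy (X := (Xop s V)ᴴ) (R := R₁)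
      (by rw [Matrix.conjTranspose_conjTranspose]; exact h1)
    exact h3
  · exact dy_gof_pos hy h2

end ops

end OH246
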