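import Pool.Agent.OH246.Defs
import Pool.Agent.OH246.CIofCore

/-!
# Module G4: from the core property to the complete isometry of `OH`
-/

open scoped BigOperators ComplexOrder Matrix InnerProductSpace Topology ENNReal
open Filter MeasureTheory

noncomputable section

namespace OH246

/-! ## `opn` -/

private theorem g4_opn_add {m : Type*} [Fintype m] [DecidableEq m] (A B : Matrix m m ℂ) :
    opn (A + B) ≤ opn A + opn B := by
  unfold opn
  rw [map_add]
  exact norm_add_le _ _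

private theorem g4_opn_zero {m : Type*} [Fintype m] [DecidableEq m] :
    opn (0 : Matrix m m ℂ) = 0 := by
  unfold opn
  rw [map_zero, norm_zero]

private theorem g4_continuous_opn {m : Type*} [Fintype m] [DecidableEq m] :
    Continuous (opn : Matrix m m ℂ → ℝ) := by
  unfold opn
  have h : Continuous (Matrix.toEuclideanCLM (n := m) (𝕜 := ℂ)).toAlgEquiv.toLinearMap :=
    LinearMap.continuous_of_finiteDimensional _
  exact continuous_norm.comp h

/-! ## The map `u` -/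

section umap
variable {H : Type} [NormedAddCommGroup H] [InnerProductSpace ℂ H] [CompleteSpace H]
  {N : VonNeumannAlgebra H} {φ : ℕ → (N.toStarSubalgebra →L[ℂ] ℂ)}

/-- the core property -/
private def G4Core (N : VonNeumannAlgebra H) (φ : ℕ → (N.toStarSubalgebra →L[ℂ] ℂ)) : Prop :=
  ∀ (n m : ℕ) (w : Fin n → Matrix (Fin m) (Fin m) ℂ),
    IsLUB {r | ∃ T : Matrix (Fin m) (Fin m) N.toStarSubalgebra,
      MatContr (T.map fun S => (S : H →L[ℂ] H)) ∧
      r = ‖∑ p : Fin n, (w p * Matrix.of fun i j => φ p (T i j)).trace‖} (dualNorm w)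

private theorem g4_dualNorm_one {n : ℕ} (w : Fin n → Matrix (Fin 1) (Fin 1) ℂ) :
    dualNorm w ≤ Real.sqrt (∑ p, ‖w p 0 0‖ ^ 2) := by
  unfold dualNorm
  apply csSup_le
  · exact ⟨_, 0, fun u v => by simp [hsn, Real.sqrt_nonneg, mul_nonneg], rfl⟩
  · rintro r ⟨z, hz, rfl⟩
    have h1 : ∑ p, ‖z p 0 0‖ ^ 2 ≤ 1 := by
      have := hz 1 1
      have e : (∑ p, ((1 : Matrix (Fin 1) (Fin 1) ℂ)ᴴ * z p * 1 * (z p)ᴴ).trace) =
          ((∑ p, ‖z p 0 0‖ ^ 2 : ℝ) : ℂ) := by
        push_cast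
        refine Finset.sum_congr rfl fun p _ => ?_
        simp [Matrix.trace, Matrix.mul_apply, Complex.mul_conj']
      rw [e] at this
      have h0 : (0 : ℝ) ≤ ∑ p, ‖z p 0 0‖ ^ 2 := Finset.sum_nonneg fun _ _ => by positivity
      rw [Complex.norm_real, Real.norm_of_nonneg h0] at this
      simpa [hsn, hsq] using this
    have h2 : ‖∑ p, (w p * z p).trace‖ ≤ ∑ p, ‖w p 0 0‖ * ‖z p 0 0‖ := by
      refine (norm_sum_le _ _).trans (Finset.sum_le_sum fun p _ => ?_)
      simp [Matrix.trace, Matrix.mul_apply]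
    have h3 := Real.sum_mul_le_sqrt_mul_sqrt Finset.univ (fun p => ‖w p 0 0‖) (fun p => ‖z p 0 0‖)
    refine h2.trans (h3.trans ?_)
    calc _ ≤ Real.sqrt (∑ p, ‖w p 0 0‖ ^ 2) * 1 := by
          refine mul_le_mul_of_nonneg_left ?_ (Real.sqrt_nonneg _)
          rw [Real.sqrt_le_one]
          exact h1
      _ = _ := mul_one _

private theorem g4_norm_sum_le (hc : G4Core N φ) (t : Finset ℕ) (c : ℕ → ℂ) :
    ‖∑ p ∈ t, c p • φ p‖ ≤ Real.sqrt (∑ p ∈ t, ‖c p‖ ^ 2) := by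
  classical
  apply ContinuousLinearMap.opNorm_le_of_unit_norm (Real.sqrt_nonneg _)
  intro S hS
  set n := t.sup id + 1 with hn
  have ht : ∀ p ∈ t, p < n := fun p hp => Nat.lt_succ_of_le (Finset.le_sup (f := id) hp)
  set w : Fin n → Matrix (Fin 1) (Fin 1) ℂ :=
    fun p => Matrix.of fun _ _ => if (p : ℕ) ∈ t then c p else 0 with hw
  have h1 := (hc n 1 w).1 ⟨Matrix.of fun _ _ => S, ?_, rfl⟩
  · have e1 : (∑ p ∈ t, c p • φ p) S =
        ∑ p : Fin n, (w p * Matrix.of fun _ _ => φ p (S)).trace := by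
      have : ∀ p : Fin n, (w p * Matrix.of fun _ _ => φ p (S)).trace =
          (fun q : ℕ => if q ∈ t then c q * φ q S else 0) p := by
        intro p
        simp [Matrix.trace, Matrix.mul_apply, hw]
      rw [Finset.sum_congr rfl fun p _ => this p, Fin.sum_univ_eq_sum_range
        (fun q : ℕ => if q ∈ t then c q * φ q S else 0) n, ← Finset.sum_filter]
      have : (Finset.range n).filter (fun q => q ∈ t) = t := by
        ext q
        simp only [Finset.mem_filter, Finset.mem_range]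
        exact ⟨fun h => h.2, fun h => ⟨ht q h, h⟩⟩
      rw [this]
      simp
    rw [e1]
    refine h1.trans ((g4_dualNorm_one w).trans (Real.sqrt_le_sqrt (le_of_eq ?_)))
    have : ∀ p : Fin n, ‖w p 0 0‖ ^ 2 = (fun q : ℕ => if q ∈ t then ‖c q‖ ^ 2 else 0) p := by
      intro p
      simp only [hw, Matrix.of_apply]
      split_ifs <;> simp
    rw [Finset.sum_congr rfl fun p _ => this p, Fin.sum_univ_eq_sum_range
        (fun q : ℕ => if q ∈ t then ‖c q‖ ^ 2 else 0) n, ← Finset.sum_filter]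
    have : (Finset.range n).filter (fun q => q ∈ t) = t := by
      ext q
      simp only [Finset.mem_filter, Finset.mem_range]
      exact ⟨fun h => h.2, fun h => ⟨ht q h, h⟩⟩
    rw [this]
  · intro ξ
    simp only [Finset.univ_unique, Fin.default_eq_zero, Fin.isValue, Matrix.map_apply,
      Finset.sum_singleton, Matrix.of_apply]
    have : ‖(S : H →L[ℂ] H) (ξ 0)‖ ≤ ‖ξ 0‖ := by
      refine ((S : H →L[ℂ] H).le_opNorm _).trans ?_
      have : ‖(S : H →L[ℂ] H)‖ = 1 := hS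
      rw [this, one_mul]
    gcongr

abbrev G4E := lp (fun _ : ℕ => ℂ) 2

private theorem g4_summable_sq (ξ : G4E) : Summable fun p => ‖ξ p‖ ^ 2 := by
  have := (lp.memℓp ξ).summable (by norm_num)
  simpa using this

private theorem g4_sum_sq_le (ξ : G4E) (t : Finset ℕ) : ∑ p ∈ t, ‖ξ p‖ ^ 2 ≤ ‖ξ‖ ^ 2 := by
  have := lp.sum_rpow_le_norm_rpow (p := 2) (by norm_num) ξ t
  simpa using this

private theorem g4_summable (hc : G4Core N φ) (ξ : G4E) : Summable fun p => ξ p • φ p := by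
  rw [summable_iff_vanishing_norm]
  intro ε hε
  obtain ⟨s, hs⟩ := summable_iff_vanishing_norm.1 (g4_summable_sq ξ) (ε ^ 2) (by positivity)
  refine ⟨s, fun t ht => ?_⟩
  have h0 : (0 : ℝ) ≤ ∑ p ∈ t, ‖ξ p‖ ^ 2 := Finset.sum_nonneg fun _ _ => by positivity
  have h1 := hs t ht
  rw [Real.norm_of_nonneg h0] at h1
  refine (g4_norm_sum_le hc t fun p => ξ p).trans_lt ?_
  rw [← Real.sqrt_sq hε.le]
  exact Real.sqrt_lt_sqrt h0 h1

/-- the linear map `ξ ↦ ∑ ξ_p φ_p` into the dual -/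
private def g4u (hc : G4Core N φ) : G4E →ₗ[ℂ] (N.toStarSubalgebra →L[ℂ] ℂ) where
  toFun ξ := ∑' p, ξ p • φ p
  map_add' ξ η := by
    rw [← (g4_summable hc ξ).tsum_add (g4_summable hc η)]
    refine tsum_congr fun p => ?_
    exact add_smul (ξ p) (η p) (φ p)
  map_smul' c ξ := by
    rw [RingHom.id_apply, ← (g4_summable hc ξ).tsum_const_smul]
    refine tsum_congr fun p => ?_
    exact mul_smul c (ξ p) (φ p)

private theorem g4u_norm (hc : G4Core N φ) (ξ : G4E) : ‖g4u hc ξ‖ ≤ 1 * ‖ξ‖ := by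
  have h := (g4_summable hc ξ).hasSum.tendsto_sum_nat.norm
  refine le_of_tendsto h (Eventually.of_forall fun n => ?_)
  refine (g4_norm_sum_le hc _ fun p => ξ p).trans ?_
  rw [one_mul]
  exact (Real.sqrt_le_sqrt (g4_sum_sq_le ξ _)).trans (le_of_eq (Real.sqrt_sq (norm_nonneg _)))

private theorem g4u_continuous (hc : G4Core N φ) : Continuous (g4u hc) :=
  ((g4u hc).mkContinuous 1 (g4u_norm hc)).continuous

private theorem g4u_single (hc : G4Core N φ) (p : ℕ) (a : ℂ) :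
    g4u hc (lp.single 2 p a) = a • φ p := by
  have h : g4u hc (lp.single 2 p a) = ∑' q, (lp.single (E := fun _ : ℕ => ℂ) 2 p a) q • φ q := rfl
  rw [h, tsum_eq_single p]
  · rw [lp.single_apply_self]
  · intro q hq
    rw [lp.single_apply_ne _ _ _ hq]
    exact zero_smul ℂ (φ q)

private theorem g4u_mem (hc : G4Core N φ)
    (hφ : ∀ p, ∃ ξ η : H, ∀ T : N.toStarSubalgebra, φ p T = ⟪ξ, (T : H →L[ℂ] H) η⟫_ℂ) (ξ : G4E) :
    g4u hc ξ ∈ Predual N := by
  have h := (g4_summable hc ξ).hasSum.tendsto_sum_nat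
  refine (Submodule.isClosed_topologicalClosure _).mem_of_tendsto h
    (Eventually.of_forall fun n => ?_)
  refine Submodule.sum_mem _ fun p _ => Submodule.smul_mem _ _ ?_
  exact Submodule.le_topologicalClosure _ (Submodule.subset_span (hφ p))

/-- truncation -/
private def g4t (K : ℕ) (ξ : G4E) : G4E := ∑ p ∈ Finset.range K, lp.single 2 p (ξ p)

private theorem g4t_tendsto (ξ : G4E) : Tendsto (fun K => g4t K ξ) atTop (𝓝 ξ) :=
  (lp.hasSum_single (by norm_num) ξ).tendsto_sum_nat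

private theorem g4u_trunc (hc : G4Core N φ) (K : ℕ) (ξ : G4E) :
    g4u hc (g4t K ξ) = ∑ p : Fin K, ξ p • φ p := by
  unfold g4t
  rw [map_sum, Finset.sum_congr rfl fun p _ => g4u_single hc p (ξ p),
    Fin.sum_univ_eq_sum_range (fun p => ξ p • φ p) K]

private theorem g4_inner_trunc (K : ℕ) (ξ η : G4E) :
    ⟪g4t K ξ, g4t K η⟫_ℂ = ∑ p : Fin K, η p * (starRingEnd ℂ) (ξ p) := by
  unfold g4t
  rw [Fin.sum_univ_eq_sum_range (fun p => η p * (starRingEnd ℂ) (ξ p)) K, sum_inner]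
  refine Finset.sum_congr rfl fun p hp => ?_
  rw [inner_sum, Finset.sum_eq_single p]
  · rw [lp.inner_single_left, lp.single_apply_self]
    exact RCLike.inner_apply _ _
  · intro q _ hq
    rw [lp.inner_single_left, lp.single_apply_ne _ _ _ hq.symm]
    exact inner_zero_right _
  · exact fun h => absurd hp h

/-- value of `u ξ` on the matrix `T` -/
private def g4r (hc : G4Core N φ) {n m : ℕ} (ξ : Matrix (Fin n) (Fin n) G4E)
    (T : Matrix (Fin m) (Fin m) N.toStarSubalgebra) : Matrix (Fin n × Fin m) (Fin n × Fin m) ℂ :=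
  Matrix.of fun a b => g4u hc (ξ a.1 b.1) (T a.2 b.2)

private theorem g4r_add (hc : G4Core N φ) {n m : ℕ} (ξ η : Matrix (Fin n) (Fin n) G4E)
    (T : Matrix (Fin m) (Fin m) N.toStarSubalgebra) :
    g4r hc (ξ + η) T = g4r hc ξ T + g4r hc η T := by
  ext a b
  simp only [g4r, Matrix.of_apply, Matrix.add_apply, map_add, add_apply]

private theorem g4r_tendsto (hc : G4Core N φ) {n m : ℕ} {ξ : ℕ → Matrix (Fin n) (Fin n) G4E}
    {ξ' : Matrix (Fin n) (Fin n) G4E} (h : ∀ i j, Tendsto (fun K => ξ K i j) atTop (𝓝 (ξ' i j)))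
    (T : Matrix (Fin m) (Fin m) N.toStarSubalgebra) :
    Tendsto (fun K => opn (g4r hc (ξ K) T)) atTop (𝓝 (opn (g4r hc ξ' T))) := by
  refine (g4_continuous_opn.tendsto _).comp ?_
  refine tendsto_pi_nhds.2 fun a => tendsto_pi_nhds.2 fun b => ?_
  have h1 : Tendsto (fun K => g4u hc (ξ K a.1 b.1)) atTop (𝓝 (g4u hc (ξ' a.1 b.1))) :=
    ((g4u_continuous hc).tendsto _).comp (h a.1 b.1)
  exact ((ContinuousLinearMap.apply ℂ ℂ (T a.2 b.2)).continuous.tendsto _).comp h1

private theorem g4_ohNorm_tendsto {n : ℕ} {ξ : ℕ → Matrix (Fin n) (Fin n) G4E}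
    {ξ' : Matrix (Fin n) (Fin n) G4E} (h : ∀ i j, Tendsto (fun K => ξ K i j) atTop (𝓝 (ξ' i j))) :
    Tendsto (fun K => ohNorm (ξ K)) atTop (𝓝 (ohNorm ξ')) := by
  refine ((Real.continuous_sqrt.comp g4_continuous_opn).tendsto _).comp ?_
  refine tendsto_pi_nhds.2 fun a => tendsto_pi_nhds.2 fun b => ?_
  exact (h a.2 b.2).inner (h a.1 b.1)

private theorem g4_cbSet_eq (hc : G4Core N φ) {n : ℕ} (ξ : Matrix (Fin n) (Fin n) G4E) :
    cbSet N (ξ.map fun x => g4u hc x) =
      {r | ∃ (m : ℕ) (T : Matrix (Fin m) (Fin m) N.toStarSubalgebra),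
        MatContr (T.map (fun S => (S : H →L[ℂ] H))) ∧ r = opn (g4r hc ξ T)} := rfl

private theorem g4_trunc_lub (hc : G4Core N φ) {n : ℕ} (K : ℕ) (ξ : Matrix (Fin n) (Fin n) G4E) :
    IsLUB (cbSet N ((ξ.map (g4t K)).map fun x => g4u hc x)) (ohNorm (ξ.map (g4t K))) := by
  rw [g4_cbSet_eq]
  have h := ci_of_core (ι := Fin K)
    (fun m => {z | ∃ T : Matrix (Fin m) (Fin m) N.toStarSubalgebra,
      MatContr (T.map fun S => (S : H →L[ℂ] H)) ∧
        z = fun p : Fin K => Matrix.of fun i j => φ p (T i j)})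
    (fun m w => by
      convert hc K m w using 1
      ext r
      constructor
      · rintro ⟨z, ⟨T, hT, rfl⟩, rfl⟩
        exact ⟨T, hT, rfl⟩
      · rintro ⟨T, hT, rfl⟩
        exact ⟨_, ⟨T, hT, rfl⟩, rfl⟩) n (fun p : Fin K => Matrix.of fun i j => ξ i j p)
  convert h using 1
  · ext r
    constructor
    · rintro ⟨m, T, hT, rfl⟩
      refine ⟨m, _, ⟨T, hT, rfl⟩, ?_⟩
      congr 1
      ext a b
      simp only [g4r, Matrix.of_apply, Matrix.map_apply, g4u_trunc, Matrix.sum_apply, kron2,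
        sum_apply, smul_apply, smul_eq_mul]
    · rintro ⟨m, z, ⟨T, hT, rfl⟩, rfl⟩
      refine ⟨m, T, hT, ?_⟩
      congr 1
      ext a b
      simp only [g4r, Matrix.of_apply, Matrix.map_apply, g4u_trunc, Matrix.sum_apply, kron2,
        sum_apply, smul_apply, smul_eq_mul]
  · unfold ohNorm kap
    congr 2
    ext a b
    simp only [Matrix.of_apply, Matrix.map_apply, g4_inner_trunc, Matrix.sum_apply, kron2]

private theorem g4_upper (hc : G4Core N φ) {n m : ℕ} (ξ : Matrix (Fin n) (Fin n) G4E)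
    (T : Matrix (Fin m) (Fin m) N.toStarSubalgebra)
    (hT : MatContr (T.map (fun S => (S : H →L[ℂ] H)))) : opn (g4r hc ξ T) ≤ ohNorm ξ := by
  have h1 : ∀ i j, Tendsto (fun K => (ξ.map (g4t K)) i j) atTop (𝓝 (ξ i j)) :=
    fun i j => g4t_tendsto (ξ i j)
  refine le_of_tendsto_of_tendsto' (g4r_tendsto hc h1 T) (g4_ohNorm_tendsto h1) fun K => ?_
  exact (g4_trunc_lub hc K ξ).1 ⟨m, T, hT, rfl⟩

private theorem g4_lub (hc : G4Core N φ) {n : ℕ} (ξ : Matrix (Fin n) (Fin n) G4E) :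
    IsLUB (cbSet N (ξ.map fun x => g4u hc x)) (ohNorm ξ) := by
  constructor
  · rintro r ⟨m, T, hT, rfl⟩
    exact g4_upper hc ξ T hT
  · intro b hb
    have h1 : ∀ i j, Tendsto (fun K => (ξ.map (g4t K)) i j) atTop (𝓝 (ξ i j)) :=
      fun i j => g4t_tendsto (ξ i j)
    have h2 : ∀ i j, Tendsto (fun K => (ξ.map (g4t K) - ξ) i j) atTop
        (𝓝 ((0 : Matrix (Fin n) (Fin n) G4E) i j)) := by
      intro i j
      have := (h1 i j).sub_const (ξ i j)
      rw [sub_self] at this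
      exact this
    have h3 : ohNorm (0 : Matrix (Fin n) (Fin n) G4E) = 0 := by
      unfold ohNorm
      have : (Matrix.of fun (a b : Fin n × Fin n) =>
          ⟪(0 : Matrix (Fin n) (Fin n) G4E) a.2 b.2, (0 : Matrix (Fin n) (Fin n) G4E) a.1 b.1⟫_ℂ) = 0 := by
        ext a b
        simp
      rw [this, g4_opn_zero, Real.sqrt_zero]
    have h4 : Tendsto (fun K => b + ohNorm (ξ.map (g4t K) - ξ)) atTop (𝓝 (b + 0)) := by
      rw [← h3]
      exact (g4_ohNorm_tendsto h2).const_add b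
    rw [add_zero] at h4
    refine le_of_tendsto_of_tendsto' (g4_ohNorm_tendsto h1) h4 fun K => ?_
    refine (g4_trunc_lub hc K ξ).2 ?_
    rintro r ⟨m, T, hT, rfl⟩
    have e : ξ.map (g4t K) = ξ + (ξ.map (g4t K) - ξ) := by abel
    change opn (g4r hc (ξ.map (g4t K)) T) ≤ _
    rw [e, g4r_add]
    refine (g4_opn_add _ _).trans (add_le_add (hb ⟨m, T, hT, rfl⟩) ?_)
    have := g4_upper hc (ξ.map (g4t K) - ξ) T hT
    rwa [← e]

end umap

/-- MODULE G4 (file Extend.lean). -/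
theorem final_of_core
    (h : ∃ (H : Type) (_ : NormedAddCommGroup H) (_ : InnerProductSpace ℂ H) (_ : CompleteSpace H)
      (N : VonNeumannAlgebra H) (φ : ℕ → (N.toStarSubalgebra →L[ℂ] ℂ)),
      (∀ p, ∃ ξ η : H, ∀ T : N.toStarSubalgebra, φ p T = ⟪ξ, (T : H →L[ℂ] H) η⟫_ℂ) ∧
      ∀ (n m : ℕ) (w : Fin n → Matrix (Fin m) (Fin m) ℂ),
        IsLUB {r | ∃ T : Matrix (Fin m) (Fin m) N.toStarSubalgebra,
          MatContr (T.map fun S => (S : H →L[ℂ] H)) ∧
          r = ‖∑ p : Fin n, (w p * Matrix.of fun i j => φ p (T i j)).trace‖} (dualNorm w)) :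
    FinalStatement := by
  obtain ⟨H, i1, i2, i3, N, φ, hφ, hc⟩ := h
  refine ⟨H, i1, i2, i3, N, (g4u (φ := φ) hc).codRestrict (Predual N) (g4u_mem hc hφ), ?_⟩
  intro n ξ
  exact g4_lub hc ξ

end OH246
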