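import Pool.Agent.OH246.Defs

/-!
# Full Fock space: creation operators, circular elements, the tracial vacuum state
-/

open scoped BigOperators ComplexOrder Matrix InnerProductSpace Topology ENNReal
open Filter MeasureTheory

set_option linter.unusedSectionVars false

noncomputable section

namespace OH246

/-! ## Composition with an injective map on `ℓ²` -/

section pull

variable {α γ : Type*}

lemma fock_memlp (f : α → γ) (hf : Function.Injective f) (η : lp (fun _ : γ => ℂ) 2) :
    Memℓp (fun a => (η : γ → ℂ) (f a)) 2 := by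
  have h := lp.memℓp η
  rw [memℓp_gen_iff (by norm_num)] at h ⊢
  exact h.comp_injective hf

/-- `(pull f η)(a) = η (f a)` -/
def fockPull (f : α → γ) (hf : Function.Injective f) :
    lp (fun _ : γ => ℂ) 2 →L[ℂ] lp (fun _ : α => ℂ) 2 :=
  LinearMap.mkContinuous
    { toFun := fun η => ⟨fun a => (η : γ → ℂ) (f a), fock_memlp f hf η⟩
      map_add' := fun ξ η => by ext a; rfl
      map_smul' := fun c ξ => by ext a; rfl } 1 (by
    intro η
    rw [one_mul]
    have h2 : (0 : ℝ) < (2 : ℝ≥0∞).toReal := by norm_num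
    refine lp.norm_le_of_forall_sum_le h2 (norm_nonneg _) fun s => ?_
    classical
    have h := lp.sum_rpow_le_norm_rpow h2 η (s.image f)
    rw [Finset.sum_image (fun a _ b _ hab => hf hab)] at h
    exact h)

@[simp] lemma fockPull_apply (f : α → γ) (hf : Function.Injective f)
    (η : lp (fun _ : γ => ℂ) 2) (a : α) :
    (fockPull f hf η : α → ℂ) a = (η : γ → ℂ) (f a) := rfl

/-- basis vectors -/
def fockE (w : α) : lp (fun _ : α => ℂ) 2 := by classical exact lp.single 2 w (1 : ℂ)

lemma fockE_inner (w : α) (η : lp (fun _ : α => ℂ) 2) : ⟪fockE w, η⟫_ℂ = (η : α → ℂ) w := by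
  classical
  unfold fockE
  rw [lp.inner_single_left]
  simp

lemma fockE_norm (w : α) : ‖fockE w‖ = 1 := by
  classical
  unfold fockE
  rw [lp.norm_single (by norm_num), norm_one]

open Classical in
lemma fockE_apply (w a : α) :
    (fockE w : α → ℂ) a = if a = w then 1 else 0 := by
  unfold fockE
  by_cases h : a = w
  · subst h
    rw [if_pos rfl, lp.single_apply, Pi.single_eq_same]
  · rw [if_neg h, lp.single_apply, Pi.single_eq_of_ne h]

lemma fock_push_apply_of (f : α → γ) (hf : Function.Injective f) (ξ : lp (fun _ : α => ℂ) 2)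
    (a : α) : (ContinuousLinearMap.adjoint (fockPull f hf) ξ : γ → ℂ) (f a) = (ξ : α → ℂ) a := by
  classical
  rw [← fockE_inner, ContinuousLinearMap.adjoint_inner_right]
  have h1 : fockPull f hf (fockE (f a)) = fockE a := by
    ext b
    rw [fockPull_apply, fockE_apply, fockE_apply]
    by_cases h : b = a
    · subst h; simp
    · rw [if_neg h, if_neg (fun h' => h (hf h'))]
  rw [h1, fockE_inner]

lemma fock_push_apply_not (f : α → γ) (hf : Function.Injective f) (ξ : lp (fun _ : α => ℂ) 2)
    (c : γ) (hc : ∀ a, f a ≠ c) :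
    (ContinuousLinearMap.adjoint (fockPull f hf) ξ : γ → ℂ) c = 0 := by
  classical
  rw [← fockE_inner, ContinuousLinearMap.adjoint_inner_right]
  have h1 : fockPull f hf (fockE c) = 0 := by
    ext b
    rw [fockPull_apply, fockE_apply, if_neg (hc b)]
    rfl
  rw [h1, inner_zero_left]

end pull

section C
variable {β : Type*}

/-- vacuum (MODULE C, file Fock.lean) -/
def Om (β : Type*) : Fock β := by classical exact lp.single 2 [] (1 : ℂ)

lemma fock_Om_eq : Om β = fockE ([] : List (β × Bool)) := by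
  classical
  ext a
  rw [fockE_apply]
  unfold Om
  by_cases h : a = []
  · subst h
    rw [if_pos rfl, lp.single_apply, Pi.single_eq_same]
  · rw [if_neg h, lp.single_apply, Pi.single_eq_of_ne h]

lemma fock_cons_inj (i : β × Bool) : Function.Injective (fun w : List (β × Bool) => i :: w) :=
  fun _ _ h => (List.cons.inj h).2

lemma fock_snoc_inj (i : β × Bool) : Function.Injective (fun w : List (β × Bool) => w ++ [i]) :=
  fun _ _ h => List.append_cancel_right h

/-- left creation -/
def lcr (i : β × Bool) : Fock β →L[ℂ] Fock β :=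
  ContinuousLinearMap.adjoint (fockPull (fun w : List (β × Bool) => i :: w) (fock_cons_inj i))

/-- right creation -/
def rcr (i : β × Bool) : Fock β →L[ℂ] Fock β :=
  ContinuousLinearMap.adjoint (fockPull (fun w : List (β × Bool) => w ++ [i]) (fock_snoc_inj i))

lemma fock_adj_lcr (i : β × Bool) : ContinuousLinearMap.adjoint (lcr i) =
    fockPull (fun w : List (β × Bool) => i :: w) (fock_cons_inj i) :=
  ContinuousLinearMap.adjoint_adjoint _

lemma fock_adj_rcr (i : β × Bool) : ContinuousLinearMap.adjoint (rcr i) =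
    fockPull (fun w : List (β × Bool) => w ++ [i]) (fock_snoc_inj i) :=
  ContinuousLinearMap.adjoint_adjoint _

lemma fock_adj_lcr_apply (i : β × Bool) (v : Fock β) (w : List (β × Bool)) :
    (ContinuousLinearMap.adjoint (lcr i) v : List (β × Bool) → ℂ) w =
      (v : List (β × Bool) → ℂ) (i :: w) := by
  rw [fock_adj_lcr]; rfl

lemma fock_adj_rcr_apply (i : β × Bool) (v : Fock β) (w : List (β × Bool)) :
    (ContinuousLinearMap.adjoint (rcr i) v : List (β × Bool) → ℂ) w =
      (v : List (β × Bool) → ℂ) (w ++ [i]) := by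
  rw [fock_adj_rcr]; rfl

lemma fock_lcr_cons (i : β × Bool) (v : Fock β) (w : List (β × Bool)) :
    (lcr i v : List (β × Bool) → ℂ) (i :: w) = (v : List (β × Bool) → ℂ) w :=
  fock_push_apply_of (fun w : List (β × Bool) => i :: w) (fock_cons_inj i) v w

lemma fock_lcr_not (i : β × Bool) (v : Fock β) (w : List (β × Bool)) (h : ∀ u, i :: u ≠ w) :
    (lcr i v : List (β × Bool) → ℂ) w = 0 :=
  fock_push_apply_not (fun w : List (β × Bool) => i :: w) (fock_cons_inj i) v w h

lemma fock_rcr_snoc (i : β × Bool) (v : Fock β) (w : List (β × Bool)) :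
    (rcr i v : List (β × Bool) → ℂ) (w ++ [i]) = (v : List (β × Bool) → ℂ) w :=
  fock_push_apply_of (fun w : List (β × Bool) => w ++ [i]) (fock_snoc_inj i) v w

lemma fock_rcr_not (i : β × Bool) (v : Fock β) (w : List (β × Bool)) (h : ∀ u, u ++ [i] ≠ w) :
    (rcr i v : List (β × Bool) → ℂ) w = 0 :=
  fock_push_apply_not (fun w : List (β × Bool) => w ++ [i]) (fock_snoc_inj i) v w h

variable [DecidableEq β]

theorem norm_Om : ‖Om β‖ = 1 := by
  rw [fock_Om_eq, fockE_norm]

lemma fock_inner_Om (v : Fock β) : ⟪Om β, v⟫_ℂ = (v : List (β × Bool) → ℂ) [] := by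
  rw [fock_Om_eq]
  exact fockE_inner ([] : List (β × Bool)) v

lemma fock_Om_nil : (Om β : List (β × Bool) → ℂ) [] = 1 := by
  classical
  rw [fock_Om_eq, fockE_apply, if_pos rfl]

lemma fock_Om_cons (i : β × Bool) (w : List (β × Bool)) :
    (Om β : List (β × Bool) → ℂ) (i :: w) = 0 := by
  classical
  rw [fock_Om_eq, fockE_apply, if_neg (List.cons_ne_nil _ _)]

theorem lcr_Om (i : β × Bool) : lcr i (Om β) = rcr i (Om β) := by
  ext w
  rcases w with _ | ⟨j, w⟩
  · rw [fock_lcr_not i _ [] (fun u => List.cons_ne_nil _ _),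
      fock_rcr_not i _ [] (fun u => by simp)]
  · by_cases hj : j = i
    · subst hj
      rw [fock_lcr_cons]
      rcases w with _ | ⟨k, w⟩
      · have h := fock_rcr_snoc j (Om β) []
        rw [List.nil_append] at h
        rw [h]
      · rw [fock_Om_cons]
        by_cases hu : ∃ u, u ++ [j] = j :: k :: w
        · obtain ⟨u, hu⟩ := hu
          rw [← hu, fock_rcr_snoc]
          rcases u with _ | ⟨a, u⟩
          · simp at hu
          · rw [fock_Om_cons]
        · rw [fock_rcr_not j _ _ (fun u hu' => hu ⟨u, hu'⟩)]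
    · rw [fock_lcr_not i _ _ (fun u h => hj (List.cons.inj h).1.symm)]
      by_cases hu : ∃ u, u ++ [i] = j :: w
      · obtain ⟨u, hu⟩ := hu
        rw [← hu, fock_rcr_snoc]
        rcases u with _ | ⟨a, u⟩
        · rw [List.nil_append] at hu
          exact absurd (List.cons.inj hu).1.symm hj
        · rw [fock_Om_cons]
      · rw [fock_rcr_not i _ _ (fun u hu' => hu ⟨u, hu'⟩)]

theorem lcr_rcr (i j : β × Bool) (v : Fock β) : lcr i (rcr j v) = rcr j (lcr i v) := by
  have h1 : (lcr i).comp (rcr j) = (rcr j).comp (lcr i) := by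
    have h2 : ContinuousLinearMap.adjoint ((lcr i).comp (rcr j)) =
        ContinuousLinearMap.adjoint ((rcr j).comp (lcr i)) := by
      rw [ContinuousLinearMap.adjoint_comp, ContinuousLinearMap.adjoint_comp]
      ext η w
      show (ContinuousLinearMap.adjoint (rcr j) (ContinuousLinearMap.adjoint (lcr i) η) :
        List (β × Bool) → ℂ) w = (ContinuousLinearMap.adjoint (lcr i)
          (ContinuousLinearMap.adjoint (rcr j) η) : List (β × Bool) → ℂ) w
      rw [fock_adj_rcr_apply, fock_adj_lcr_apply, fock_adj_lcr_apply, fock_adj_rcr_apply]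
      rfl
    have h3 := congrArg ContinuousLinearMap.adjoint h2
    rwa [ContinuousLinearMap.adjoint_adjoint, ContinuousLinearMap.adjoint_adjoint] at h3
  exact DFunLike.congr_fun h1 v

theorem adj_lcr_Om (i : β × Bool) : (ContinuousLinearMap.adjoint (lcr i)) (Om β) = 0 := by
  ext w
  rw [fock_adj_lcr_apply, fock_Om_cons]
  rfl

theorem adj_lcr_rcr (i j : β × Bool) (v : Fock β) :
    (ContinuousLinearMap.adjoint (lcr i)) (rcr j v) =
      rcr j ((ContinuousLinearMap.adjoint (lcr i)) v) +
        if i = j then ⟪Om β, v⟫_ℂ • Om β else 0 := by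
  ext w
  rw [fock_adj_lcr_apply]
  show _ = (rcr j ((ContinuousLinearMap.adjoint (lcr i)) v) : List (β × Bool) → ℂ) w +
    ((if i = j then ⟪Om β, v⟫_ℂ • Om β else 0 : Fock β) : List (β × Bool) → ℂ) w
  by_cases hu : ∃ u, u ++ [j] = w
  · obtain ⟨u, hu⟩ := hu
    rw [← hu, fock_rcr_snoc, fock_adj_lcr_apply]
    have h1 : i :: (u ++ [j]) = (i :: u) ++ [j] := rfl
    rw [h1, fock_rcr_snoc]
    have h2 : ((if i = j then ⟪Om β, v⟫_ℂ • Om β else 0 : Fock β) : List (β × Bool) → ℂ)
        (u ++ [j]) = 0 := by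
      split_ifs
      · show ⟪Om β, v⟫_ℂ * (Om β : List (β × Bool) → ℂ) (u ++ [j]) = 0
        rcases u with _ | ⟨a, u⟩
        · rw [List.nil_append, fock_Om_cons, mul_zero]
        · rw [List.cons_append, fock_Om_cons, mul_zero]
      · rfl
    rw [h2, add_zero]
  · rw [fock_rcr_not j _ w (fun u hu' => hu ⟨u, hu'⟩), zero_add]
    rcases w with _ | ⟨a, w⟩
    · split_ifs with hij
      · subst hij
        have h1 := fock_rcr_snoc i v []
        rw [List.nil_append] at h1
        rw [h1]
        show _ = ⟪Om β, v⟫_ℂ * (Om β : List (β × Bool) → ℂ) []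
        rw [fock_Om_nil, mul_one, fock_inner_Om]
      · rw [fock_rcr_not j]
        · rfl
        · intro u h
          rcases u with _ | ⟨b, u⟩
          · rw [List.nil_append] at h
            exact hij (List.cons.inj h).1.symm
          · rw [List.cons_append] at h
            have := (List.cons.inj h).2
            simp at this
    · have h2 : ((if i = j then ⟪Om β, v⟫_ℂ • Om β else 0 : Fock β) : List (β × Bool) → ℂ)
          (a :: w) = 0 := by
        split_ifs
        · show ⟪Om β, v⟫_ℂ * (Om β : List (β × Bool) → ℂ) (a :: w) = 0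
          rw [fock_Om_cons, mul_zero]
        · rfl
      rw [h2, fock_rcr_not j]
      intro u h
      rcases u with _ | ⟨b, u⟩
      · rw [List.nil_append] at h
        have := (List.cons.inj h).2
        simp at this
      · rw [List.cons_append] at h
        exact hu ⟨u, (List.cons.inj h).2⟩

theorem inner_Om_rcr (j : β × Bool) (v : Fock β) : ⟪Om β, rcr j v⟫_ℂ = 0 := by
  rw [fock_inner_Om, fock_rcr_not j _ [] (fun u => by simp)]

/-- circular element -/
def circ (b : β) : Fock β →L[ℂ] Fock β :=
  lcr (b, false) + ContinuousLinearMap.adjoint (lcr (b, true))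

/-- the C*-algebra generated by the circular elements -/
def AC (β : Type*) : StarSubalgebra ℂ (Fock β →L[ℂ] Fock β) :=
  (StarAlgebra.adjoin ℂ (Set.range (circ (β := β)))).topologicalClosure

theorem circ_mem (b : β) : circ b ∈ AC β :=
  StarSubalgebra.le_topologicalClosure _ (StarAlgebra.subset_adjoin ℂ _ ⟨b, rfl⟩)

/-! ### The right circular elements -/

/-- right circular element -/
def fockR (b : β) : Fock β →L[ℂ] Fock β :=
  rcr (b, false) + ContinuousLinearMap.adjoint (rcr (b, true))

omit [DecidableEq β] in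
lemma fock_star_circ (b : β) : star (circ b) =
    ContinuousLinearMap.adjoint (lcr (b, false)) + lcr (b, true) := by
  rw [circ, star_add, ContinuousLinearMap.star_eq_adjoint, ContinuousLinearMap.star_eq_adjoint,
    ContinuousLinearMap.adjoint_adjoint]

omit [DecidableEq β] in
lemma fock_star_R (b : β) : star (fockR b) =
    ContinuousLinearMap.adjoint (rcr (b, false)) + rcr (b, true) := by
  rw [fockR, star_add, ContinuousLinearMap.star_eq_adjoint, ContinuousLinearMap.star_eq_adjoint,
    ContinuousLinearMap.adjoint_adjoint]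

lemma fock_adj_rcr_Om (i : β × Bool) : (ContinuousLinearMap.adjoint (rcr i)) (Om β) = 0 := by
  ext w
  rw [fock_adj_rcr_apply]
  rcases w with _ | ⟨a, w⟩
  · rw [List.nil_append, fock_Om_cons]; rfl
  · rw [List.cons_append, fock_Om_cons]; rfl

lemma fock_circ_Om (b : β) : circ b (Om β) = fockR b (Om β) := by
  show lcr (b, false) (Om β) + ContinuousLinearMap.adjoint (lcr (b, true)) (Om β) =
    rcr (b, false) (Om β) + ContinuousLinearMap.adjoint (rcr (b, true)) (Om β)
  rw [lcr_Om, adj_lcr_Om, fock_adj_rcr_Om]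

lemma fock_star_circ_Om (b : β) : star (circ b) (Om β) = star (fockR b) (Om β) := by
  rw [fock_star_circ, fock_star_R]
  show ContinuousLinearMap.adjoint (lcr (b, false)) (Om β) + lcr (b, true) (Om β) =
    ContinuousLinearMap.adjoint (rcr (b, false)) (Om β) + rcr (b, true) (Om β)
  rw [lcr_Om, adj_lcr_Om, fock_adj_rcr_Om]

lemma fock_lcr_rcr' (i j : β × Bool) : lcr i * rcr j = rcr j * lcr i := by
  ext1 v
  exact lcr_rcr i j v

lemma fock_adj_adj (i j : β × Bool) :
    ContinuousLinearMap.adjoint (lcr i) * ContinuousLinearMap.adjoint (rcr j) =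
      ContinuousLinearMap.adjoint (rcr j) * ContinuousLinearMap.adjoint (lcr i) := by
  have h := congrArg star (fock_lcr_rcr' i j)
  rw [star_mul, star_mul] at h
  exact h.symm

/-- `|Ω⟩⟨Ω|` -/
def fockP (β : Type*) : Fock β →L[ℂ] Fock β :=
  (innerSL ℂ (Om β)).smulRight (Om β)

omit [DecidableEq β] in
lemma fockP_apply (v : Fock β) : fockP β v = ⟪Om β, v⟫_ℂ • Om β := rfl

omit [DecidableEq β] in
lemma fockP_star : star (fockP β) = fockP β := by
  rw [ContinuousLinearMap.star_eq_adjoint]
  symm
  rw [ContinuousLinearMap.eq_adjoint_iff]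
  intro x y
  rw [fockP_apply, fockP_apply, inner_smul_left, inner_smul_right, inner_conj_symm, mul_comm]

lemma fock_adj_rcr' (i j : β × Bool) :
    ContinuousLinearMap.adjoint (lcr i) * rcr j =
      rcr j * ContinuousLinearMap.adjoint (lcr i) + if i = j then fockP β else 0 := by
  ext1 v
  show ContinuousLinearMap.adjoint (lcr i) (rcr j v) =
    rcr j (ContinuousLinearMap.adjoint (lcr i) v) + (if i = j then fockP β else 0) v
  rw [adj_lcr_rcr]
  split_ifs
  · rfl
  · rfl

lemma fock_lcr_adj (i j : β × Bool) :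
    lcr i * ContinuousLinearMap.adjoint (rcr j) + (if i = j then fockP β else 0) =
      ContinuousLinearMap.adjoint (rcr j) * lcr i := by
  have h := congrArg star (fock_adj_rcr' i j)
  rw [star_mul, star_add, star_mul, ContinuousLinearMap.star_eq_adjoint,
    ContinuousLinearMap.star_eq_adjoint, ContinuousLinearMap.adjoint_adjoint] at h
  rw [h]
  congr 1
  split_ifs
  · exact fockP_star.symm
  · exact star_zero _ |>.symm

lemma fock_comm_one (b b' : β) : circ b * fockR b' = fockR b' * circ b := by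
  unfold circ fockR
  have h1 := fock_lcr_rcr' (b, false) (b', false)
  have h2 := fock_lcr_adj (b, false) (b', true)
  have h3 := fock_adj_rcr' (b, true) (b', false)
  have h4 := fock_adj_adj (b, true) (b', true)
  rw [if_neg (by simp), add_zero] at h2 h3
  rw [add_mul, mul_add, mul_add, add_mul, mul_add, mul_add, h1, h2, h3, h4]
  abel

lemma fock_comm_two (b b' : β) : star (circ b) * fockR b' = fockR b' * star (circ b) := by
  rw [fock_star_circ]
  unfold fockR
  have h1 := fock_adj_rcr' (b, false) (b', false)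
  have h2 := fock_adj_adj (b, false) (b', true)
  have h3 := fock_lcr_rcr' (b, true) (b', false)
  have h4 := fock_lcr_adj (b, true) (b', true)
  have h5 : (if ((b, false) : β × Bool) = (b', false) then fockP β else 0) =
      if ((b, true) : β × Bool) = (b', true) then fockP β else 0 := by
    by_cases h : b = b'
    · subst h; simp
    · simp [h]
  rw [h5] at h1
  rw [add_mul, mul_add, mul_add, add_mul, mul_add, mul_add, h1, h2, h3, ← h4]
  abel

lemma fock_comm (b : β) {y : Fock β →L[ℂ] Fock β} (hy : y ∈ AC β) :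
    fockR b * y = y * fockR b := by
  have h1 : StarAlgebra.adjoin ℂ (Set.range (circ (β := β))) ≤
      StarSubalgebra.centralizer ℂ (Set.range (fockR (β := β))) := by
    rw [StarAlgebra.adjoin_le_iff]
    rintro _ ⟨b, rfl⟩
    rw [SetLike.mem_coe, StarSubalgebra.mem_centralizer_iff]
    rintro _ ⟨b', rfl⟩
    refine ⟨(fock_comm_one b b').symm, ?_⟩
    have h := congrArg star (fock_comm_two b b')
    rw [star_mul, star_mul, star_star] at h
    exact h
  have h2 : IsClosed {y : Fock β →L[ℂ] Fock β | fockR b * y = y * fockR b} :=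
    isClosed_eq (continuous_const.mul continuous_id) (continuous_id.mul continuous_const)
  have h3 : y ∈ closure (StarAlgebra.adjoin ℂ (Set.range (circ (β := β))) :
      Set (Fock β →L[ℂ] Fock β)) := hy
  have h4 : (StarAlgebra.adjoin ℂ (Set.range (circ (β := β))) : Set (Fock β →L[ℂ] Fock β)) ⊆
      {y : Fock β →L[ℂ] Fock β | fockR b * y = y * fockR b} := fun z hz =>
    (((StarSubalgebra.mem_centralizer_iff ℂ).1 (h1 hz)) (fockR b) ⟨b, rfl⟩).1
  exact closure_minimal h4 h2 h3

/-- the vacuum state is tracial -/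
theorem tau_tr {x y : Fock β →L[ℂ] Fock β} (hx : x ∈ AC β) (hy : y ∈ AC β) :
    ⟪Om β, x (y (Om β))⟫_ℂ = ⟪Om β, y (x (Om β))⟫_ℂ := by
  have gen : ∀ (b : β) {y : Fock β →L[ℂ] Fock β}, y ∈ AC β →
      ⟪Om β, circ b (y (Om β))⟫_ℂ = ⟪Om β, y (circ b (Om β))⟫_ℂ := by
    intro b y hy
    have h1 : y (fockR b (Om β)) = fockR b (y (Om β)) :=
      (DFunLike.congr_fun (fock_comm b hy) (Om β)).symm
    rw [fock_circ_Om, h1, ← ContinuousLinearMap.adjoint_inner_left,
      ← ContinuousLinearMap.adjoint_inner_left (fockR b), ← ContinuousLinearMap.star_eq_adjoint,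
      ← ContinuousLinearMap.star_eq_adjoint, fock_star_circ_Om]
  have key : ∀ x ∈ StarAlgebra.adjoin ℂ (Set.range (circ (β := β))), ∀ y ∈ AC β,
      ⟪Om β, x (y (Om β))⟫_ℂ = ⟪Om β, y (x (Om β))⟫_ℂ := by
    intro x hx
    induction hx using StarAlgebra.adjoin_induction with
    | mem x hx =>
      obtain ⟨b, rfl⟩ := hx
      exact fun y hy => gen b hy
    | algebraMap r =>
      intro y _
      simp [Algebra.algebraMap_eq_smul_one]
    | add x x' _ _ h h' =>
      intro y hy
      have e1 : ⟪Om β, (x + x') (y (Om β))⟫_ℂ =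
          ⟪Om β, x (y (Om β))⟫_ℂ + ⟪Om β, x' (y (Om β))⟫_ℂ := inner_add_right _ _ _
      have e2 : ⟪Om β, y ((x + x') (Om β))⟫_ℂ =
          ⟪Om β, y (x (Om β))⟫_ℂ + ⟪Om β, y (x' (Om β))⟫_ℂ := by
        rw [← inner_add_right, ← map_add]; rfl
      rw [e1, e2, h y hy, h' y hy]
    | mul x x' hx hx' h h' =>
      intro y hy
      have hxA : x ∈ AC β := StarSubalgebra.le_topologicalClosure _ hx
      have hxA' : x' ∈ AC β := StarSubalgebra.le_topologicalClosure _ hx'
      have e1 := h (x' * y) (mul_mem hxA' hy)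
      have e2 := h' (y * x) (mul_mem hy hxA)
      exact e1.trans e2
    | star x hx h =>
      intro y hy
      have e1 := h (star y) (star_mem hy)
      have e2 := congrArg (starRingEnd ℂ) e1
      rw [inner_conj_symm, inner_conj_symm, ContinuousLinearMap.star_eq_adjoint y,
        ContinuousLinearMap.adjoint_inner_left] at e2
      have e3 : ⟪Om β, y (ContinuousLinearMap.adjoint x (Om β))⟫_ℂ =
          ⟪x (ContinuousLinearMap.adjoint y (Om β)), Om β⟫_ℂ := by
        rw [← ContinuousLinearMap.adjoint_inner_left y, ContinuousLinearMap.adjoint_inner_right x]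
      rw [ContinuousLinearMap.star_eq_adjoint x, e3, ContinuousLinearMap.adjoint_inner_right]
      exact e2.symm
  have h2 : IsClosed {x : Fock β →L[ℂ] Fock β |
      ⟪Om β, x (y (Om β))⟫_ℂ = ⟪Om β, y (x (Om β))⟫_ℂ} := by
    refine isClosed_eq ?_ ?_
    · exact continuous_const.inner (ContinuousLinearMap.apply ℂ (Fock β) (y (Om β))).continuous
    · exact continuous_const.inner
        (y.continuous.comp (ContinuousLinearMap.apply ℂ (Fock β) (Om β)).continuous)
  have h3 : x ∈ closure (StarAlgebra.adjoin ℂ (Set.range (circ (β := β))) :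
      Set (Fock β →L[ℂ] Fock β)) := hx
  have h4 : (StarAlgebra.adjoin ℂ (Set.range (circ (β := β))) : Set (Fock β →L[ℂ] Fock β)) ⊆
      {x : Fock β →L[ℂ] Fock β | ⟪Om β, x (y (Om β))⟫_ℂ = ⟪Om β, y (x (Om β))⟫_ℂ} :=
    fun z hz => key z hz y hy
  exact closure_minimal h4 h2 h3

/-- `∑_b V_b ⊗ c_b` -/
def Xop {J : Type*} (s : Finset β) (V : β → Matrix J J ℂ) : Matrix J J (Fock β →L[ℂ] Fock β) :=
  Matrix.of fun j k => ∑ b ∈ s, V b j k • circ b

/-- `y • (id ⊗ τ)(R)` -/
def gof {J : Type*} (y : ℝ) (R : Matrix J J (Fock β →L[ℂ] Fock β)) : Matrix J J ℂ :=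
  Matrix.of fun j k => (y : ℂ) * ⟪Om β, R j k (Om β)⟫_ℂ

/-- the weights `D_a = (a+1)^{-3/4}` -/
def Dw (a : ℕ) : ℝ := ((a : ℝ) + 1) ^ (-(3 / 4) : ℝ)

/-- the coefficient matrices `V_{(p,a,b)} = D_a D_b w_p ⊗ e_{ab}` on `Fin m × Fin d` -/
def Vof {m n : ℕ} (w : Fin n → Matrix (Fin m) (Fin m) ℂ) (d : ℕ) (b : ℕ × ℕ × ℕ) :
    Matrix (Fin m × Fin d) (Fin m × Fin d) ℂ :=
  Matrix.of fun x z => if h : b.1 < n then
    (if (x.2 : ℕ) = b.2.1 ∧ (z.2 : ℕ) = b.2.2 then ((Dw b.2.1 * Dw b.2.2 : ℝ) : ℂ) * w ⟨b.1, h⟩ x.1 z.1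
      else 0) else 0

/-- the finite index set -/
def sof (n d : ℕ) : Finset (ℕ × ℕ × ℕ) := Finset.range n ×ˢ (Finset.range d ×ˢ Finset.range d)

end C

end OH246
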