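import Pool.Agent.OH246.Defs
import Pool.Agent.OH246.DualNorm

/-!
# OH246, module B1: upper bounds for the solutions of the Dyson system

The lemmas with prefix `up_` are auxiliary: simultaneous diagonalisation (`up_dg`) and the scalar
function `up_F y d h = ∑_{a<d} (y (a+1)^{3/2} + h)⁻¹`.
-/

open scoped BigOperators ComplexOrder Matrix InnerProductSpace Topology ENNReal
open Filter MeasureTheory

noncomputable section

namespace OH246

/-! ## Diagonalised matrices -/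

section dg
variable {m : Type*} [Fintype m] [DecidableEq m]

/-- the matrix `U diag(f) U*` -/
def up_dg (U : Matrix m m ℂ) (f : m → ℝ) : Matrix m m ℂ :=
  U * Matrix.diagonal (fun j => ((f j : ℝ) : ℂ)) * Uᴴ

variable {U : Matrix m m ℂ}

lemma up_dg_mul (hU : Uᴴ * U = 1) (f g : m → ℝ) :
    up_dg U f * up_dg U g = up_dg U (fun j => f j * g j) := by
  unfold up_dg
  have : U * Matrix.diagonal (fun j => ((f j : ℝ) : ℂ)) * Uᴴ *
      (U * Matrix.diagonal (fun j => ((g j : ℝ) : ℂ)) * Uᴴ) =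
      U * Matrix.diagonal (fun j => ((f j : ℝ) : ℂ)) * (Uᴴ * U) *
        Matrix.diagonal (fun j => ((g j : ℝ) : ℂ)) * Uᴴ := by
    simp only [Matrix.mul_assoc]
  rw [this, hU, Matrix.mul_one, Matrix.mul_assoc U, Matrix.diagonal_mul_diagonal]
  congr 3
  funext j
  push_cast
  rfl

lemma up_dg_add (U : Matrix m m ℂ) (f g : m → ℝ) :
    up_dg U f + up_dg U g = up_dg U (fun j => f j + g j) := by
  unfold up_dg
  rw [← Matrix.add_mul, ← Matrix.mul_add, Matrix.diagonal_add]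
  congr 3
  funext j
  push_cast
  rfl

lemma up_dg_sub (U : Matrix m m ℂ) (f g : m → ℝ) :
    up_dg U f - up_dg U g = up_dg U (fun j => f j - g j) := by
  unfold up_dg
  rw [← Matrix.sub_mul, ← Matrix.mul_sub, Matrix.diagonal_sub]
  congr 3
  funext j
  push_cast
  rfl

lemma up_dg_zero (U : Matrix m m ℂ) : up_dg U (fun _ => 0) = 0 := by
  unfold up_dg
  simp

lemma up_dg_sum {α : Type*} (s : Finset α) (U : Matrix m m ℂ) (f : α → m → ℝ) :
    ∑ a ∈ s, up_dg U (f a) = up_dg U (fun j => ∑ a ∈ s, f a j) := by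
  classical
  induction s using Finset.induction_on with
  | empty => simp [up_dg_zero]
  | insert a s ha ih =>
    rw [Finset.sum_insert ha, ih, up_dg_add]
    congr 1
    funext j
    rw [Finset.sum_insert ha]

lemma up_dg_smul (U : Matrix m m ℂ) (c : ℝ) (f : m → ℝ) :
    c • up_dg U f = up_dg U (fun j => c * f j) := by
  unfold up_dg
  rw [← Matrix.smul_mul, ← Matrix.mul_smul]
  congr 2
  ext i j
  by_cases h : i = j
  · subst h; simp
  · simp [h]

lemma up_dg_one (hU : U * Uᴴ = 1) : up_dg U (fun _ => 1) = 1 := by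
  unfold up_dg
  simp [hU]

lemma up_dg_const (hU : U * Uᴴ = 1) (c : ℝ) :
    (c : ℂ) • (1 : Matrix m m ℂ) = up_dg U (fun _ => c) := by
  have := up_dg_smul U c (fun _ => 1)
  rw [up_dg_one hU] at this
  simp only [mul_one] at this
  rw [← this]
  ext i j
  simp

lemma up_dg_trace (hU : Uᴴ * U = 1) (f : m → ℝ) :
    (up_dg U f).trace = ((∑ j, f j : ℝ) : ℂ) := by
  unfold up_dg
  rw [Matrix.mul_assoc, Matrix.trace_mul_comm, Matrix.mul_assoc, hU, Matrix.mul_one,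
    Matrix.trace_diagonal]
  push_cast
  rfl

lemma up_dg_inv (hU : Uᴴ * U = 1) (hU' : U * Uᴴ = 1) {f : m → ℝ} (hf : ∀ j, f j ≠ 0) :
    (up_dg U f)⁻¹ = up_dg U (fun j => (f j)⁻¹) := by
  apply Matrix.inv_eq_right_inv
  rw [up_dg_mul hU]
  have : (fun j => f j * (f j)⁻¹) = fun _ => (1 : ℝ) := by
    funext j
    exact mul_inv_cancel₀ (hf j)
  rw [this, up_dg_one hU']

lemma up_dg_conjTranspose (U : Matrix m m ℂ) (f : m → ℝ) : (up_dg U f)ᴴ = up_dg U f := by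
  unfold up_dg
  rw [Matrix.conjTranspose_mul, Matrix.conjTranspose_mul, Matrix.conjTranspose_conjTranspose,
    Matrix.diagonal_conjTranspose, Matrix.mul_assoc]
  congr 3
  funext j
  simp

lemma up_dg_posSemidef (U : Matrix m m ℂ) {f : m → ℝ} (hf : ∀ j, 0 ≤ f j) :
    (up_dg U f).PosSemidef := by
  unfold up_dg
  have : (Matrix.diagonal (fun j => ((f j : ℝ) : ℂ))).PosSemidef := by
    rw [Matrix.posSemidef_diagonal_iff]
    intro j
    exact_mod_cast hf j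
  exact this.mul_mul_conjTranspose_same U

lemma up_dg_hsq (hU : Uᴴ * U = 1) (f : m → ℝ) : hsq (up_dg U f) = ∑ j, f j ^ 2 := by
  have key : ∀ M : Matrix m m ℂ, ((hsq M : ℝ) : ℂ) = (M * Mᴴ).trace := by
    intro M
    unfold hsq
    rw [Matrix.trace]
    push_cast
    refine Finset.sum_congr rfl fun i _ => ?_
    rw [Matrix.diag_apply, Matrix.mul_apply]
    refine Finset.sum_congr rfl fun j _ => ?_
    rw [Matrix.conjTranspose_apply, ← Complex.mul_conj']
    rfl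
  have h := key (up_dg U f)
  rw [up_dg_conjTranspose, up_dg_mul hU, up_dg_trace hU] at h
  have h2 : hsq (up_dg U f) = ∑ j, f j * f j := by exact_mod_cast h
  rw [h2]
  exact Finset.sum_congr rfl fun j _ => (sq _).symm

/-- a positive semidefinite matrix is `U diag(h) U*` with `h ≥ 0`. -/
lemma up_dg_exists {H : Matrix m m ℂ} (hH : H.PosSemidef) :
    ∃ (U : Matrix m m ℂ) (h : m → ℝ), Uᴴ * U = 1 ∧ U * Uᴴ = 1 ∧ (∀ j, 0 ≤ h j) ∧
      H = up_dg U h := by
  refine ⟨(hH.isHermitian.eigenvectorUnitary : Matrix m m ℂ), hH.isHermitian.eigenvalues,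
    ?_, ?_, hH.eigenvalues_nonneg, ?_⟩
  · exact Unitary.coe_star_mul_self hH.isHermitian.eigenvectorUnitary
  · exact Unitary.coe_mul_star_self hH.isHermitian.eigenvectorUnitary
  · have := hH.isHermitian.spectral_theorem
    rw [Unitary.conjStarAlgAut_apply] at this
    exact this

/-- the scalar function `F_{y,d}` -/
def up_F (y : ℝ) (d : ℕ) (h : ℝ) : ℝ :=
  ∑ a ∈ Finset.range d, (y * ((a : ℝ) + 1) ^ (3 / 2 : ℝ) + h)⁻¹

lemma up_den_pos {y : ℝ} (hy : 0 < y) (a : ℕ) : 0 < y * ((a : ℝ) + 1) ^ (3 / 2 : ℝ) := by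
  positivity

lemma up_F_nonneg {y : ℝ} (hy : 0 < y) (d : ℕ) {h : ℝ} (hh : 0 ≤ h) : 0 ≤ up_F y d h := by
  refine Finset.sum_nonneg fun a _ => ?_
  have := up_den_pos hy a
  positivity

lemma up_F_pos {y : ℝ} (hy : 0 < y) {d : ℕ} (hd : 0 < d) {h : ℝ} (hh : 0 ≤ h) :
    0 < up_F y d h := by
  refine Finset.sum_pos (fun a _ => ?_) ⟨0, Finset.mem_range.2 hd⟩
  have := up_den_pos hy a
  positivity

/-- `F(U diag(h) U*) = U diag(F(h)) U*`. -/
lemma up_Fmat_dg (hU : Uᴴ * U = 1) (hU' : U * Uᴴ = 1) {y : ℝ} (hy : 0 < y) (d : ℕ) {h : m → ℝ}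
    (hh : ∀ j, 0 ≤ h j) : Fmat y d (up_dg U h) = up_dg U (fun j => up_F y d (h j)) := by
  unfold Fmat up_F
  rw [← up_dg_sum]
  refine Finset.sum_congr rfl fun a _ => ?_
  rw [up_dg_const hU', up_dg_add, up_dg_inv hU hU']
  intro j
  have := up_den_pos hy a
  have := hh j
  positivity

end dg

/-! ## Scalar analysis -/

section scalar

lemma up_g_continuousOn :
    ContinuousOn (fun x : ℝ => 1 / (x ^ (3 / 2 : ℝ) + 1)) (Set.Ici 0) := by
  refine ContinuousOn.div continuousOn_const ?_ ?_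
  · exact ((Real.continuous_rpow_const (by norm_num)).add continuous_const).continuousOn
  · intro x hx
    have : 0 ≤ x ^ (3 / 2 : ℝ) := Real.rpow_nonneg hx _
    positivity

lemma up_g_integrable :
    IntegrableOn (fun x : ℝ => 1 / (x ^ (3 / 2 : ℝ) + 1)) (Set.Ioi 0) := by
  have h1 : IntegrableOn (fun x : ℝ => 1 / (x ^ (3 / 2 : ℝ) + 1)) (Set.Ioc 0 1) := by
    have : IntegrableOn (fun x : ℝ => 1 / (x ^ (3 / 2 : ℝ) + 1)) (Set.Icc 0 1) :=
      (up_g_continuousOn.mono Set.Icc_subset_Ici_self).integrableOn_Icc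
    exact this.mono_set Set.Ioc_subset_Icc_self
  have h2 : IntegrableOn (fun x : ℝ => 1 / (x ^ (3 / 2 : ℝ) + 1)) (Set.Ioi 1) := by
    have h3 : IntegrableOn (fun x : ℝ => x ^ (-(3 / 2) : ℝ)) (Set.Ioi 1) :=
      integrableOn_Ioi_rpow_of_lt (by norm_num) one_pos
    refine Integrable.mono' h3 ?_ ?_
    · refine (up_g_continuousOn.mono ?_).aestronglyMeasurable measurableSet_Ioi
      exact fun x hx => (zero_le_one.trans hx.le : (0 : ℝ) ≤ x)
    · refine (ae_restrict_iff' measurableSet_Ioi).2 (Eventually.of_forall fun x hx => ?_)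
      have hx0 : (0 : ℝ) < x := zero_lt_one.trans hx
      have hp : 0 < x ^ (3 / 2 : ℝ) := Real.rpow_pos_of_pos hx0 _
      rw [Real.norm_of_nonneg (by positivity), Real.rpow_neg hx0.le, one_div]
      exact inv_anti₀ hp (by linarith)
  rw [← Set.Ioc_union_Ioi_eq_Ioi (zero_le_one : (0 : ℝ) ≤ 1)]
  exact h1.union h2

lemma up_g_antitone :
    AntitoneOn (fun x : ℝ => 1 / (x ^ (3 / 2 : ℝ) + 1)) (Set.Ici 0) := by
  intro a ha b hb hab
  have h1 : 0 ≤ a ^ (3 / 2 : ℝ) := Real.rpow_nonneg ha _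
  have h2 : a ^ (3 / 2 : ℝ) ≤ b ^ (3 / 2 : ℝ) := Real.rpow_le_rpow ha hab (by norm_num)
  exact one_div_le_one_div_of_le (by positivity) (by linarith)

lemma up_int_le_C0 {b : ℝ} (hb : 0 ≤ b) :
    ∫ x in (0 : ℝ)..b, 1 / (x ^ (3 / 2 : ℝ) + 1) ≤ C0 := by
  unfold C0
  rw [intervalIntegral.integral_of_le hb]
  refine setIntegral_mono_set up_g_integrable ?_ (HasSubset.Subset.eventuallyLE
    Set.Ioc_subset_Ioi_self)
  refine (ae_restrict_iff' measurableSet_Ioi).2 (Eventually.of_forall fun x hx => ?_)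
  have hp : 0 ≤ x ^ (3 / 2 : ℝ) := Real.rpow_nonneg (le_of_lt hx) _
  simp only [Pi.zero_apply]
  positivity

theorem C0_pos : 0 < C0 := by
  have h1 := up_int_le_C0 (zero_le_one : (0 : ℝ) ≤ 1)
  have h2 : (1 / 2 : ℝ) ≤ ∫ x in (0 : ℝ)..1, 1 / (x ^ (3 / 2 : ℝ) + 1) := by
    have : (∫ _ in (0 : ℝ)..1, (1 / 2 : ℝ)) ≤ ∫ x in (0 : ℝ)..1, 1 / (x ^ (3 / 2 : ℝ) + 1) := by
      refine intervalIntegral.integral_mono_on zero_le_one (by simp) ?_ ?_
      · refine ContinuousOn.intervalIntegrable ?_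
        rw [Set.uIcc_of_le zero_le_one]
        exact up_g_continuousOn.mono Set.Icc_subset_Ici_self
      · intro x hx
        have h3 : x ^ (3 / 2 : ℝ) ≤ 1 := Real.rpow_le_one hx.1 hx.2 (by norm_num)
        have h4 : 0 ≤ x ^ (3 / 2 : ℝ) := Real.rpow_nonneg hx.1 _
        exact one_div_le_one_div_of_le (by positivity) (by linarith)
    simpa using this
  linarith

/-- with `s = (y/h)^{2/3}`: `F_{y,d}(h) ≤ C₀ / (h s)`. -/
lemma up_F_le' {y : ℝ} (hy : 0 < y) (d : ℕ) {h : ℝ} (hh : 0 < h) :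
    up_F y d h ≤ C0 / (h * (y / h) ^ (2 / 3 : ℝ)) := by
  set s : ℝ := (y / h) ^ (2 / 3 : ℝ) with hs
  have hyh : 0 < y / h := div_pos hy hh
  have hs0 : 0 < s := Real.rpow_pos_of_pos hyh _
  have hs32 : s ^ (3 / 2 : ℝ) = y / h := by
    rw [hs, ← Real.rpow_mul hyh.le]
    norm_num
  have e1 : up_F y d h = h⁻¹ * ∑ a ∈ Finset.range d,
      (fun x : ℝ => 1 / ((s * x) ^ (3 / 2 : ℝ) + 1)) (0 + ((a + 1 : ℕ) : ℝ)) := by
    unfold up_F
    rw [Finset.mul_sum]
    refine Finset.sum_congr rfl fun a _ => ?_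
    simp only [zero_add]
    push_cast
    rw [Real.mul_rpow hs0.le (by positivity), hs32]
    have hp : 0 < ((a : ℝ) + 1) ^ (3 / 2 : ℝ) := by positivity
    field_simp
  have anti : AntitoneOn (fun x : ℝ => 1 / ((s * x) ^ (3 / 2 : ℝ) + 1))
      (Set.Icc 0 (0 + (d : ℝ))) := by
    intro a ha b hb hab
    exact up_g_antitone (mul_nonneg hs0.le ha.1) (mul_nonneg hs0.le hb.1)
      (mul_le_mul_of_nonneg_left hab hs0.le)
  have e2 := anti.sum_le_integral
  have e3 : ∫ x in (0 : ℝ)..(0 + (d : ℝ)), 1 / ((s * x) ^ (3 / 2 : ℝ) + 1) =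
      s⁻¹ * ∫ x in (0 : ℝ)..(s * d), 1 / (x ^ (3 / 2 : ℝ) + 1) := by
    have := intervalIntegral.integral_comp_mul_left (a := 0) (b := (d : ℝ))
      (fun x : ℝ => 1 / (x ^ (3 / 2 : ℝ) + 1)) hs0.ne'
    rw [mul_zero, smul_eq_mul] at this
    rw [zero_add]
    exact this
  rw [e3] at e2
  have e4 : s⁻¹ * ∫ x in (0 : ℝ)..(s * d), 1 / (x ^ (3 / 2 : ℝ) + 1) ≤ s⁻¹ * C0 :=
    mul_le_mul_of_nonneg_left (up_int_le_C0 (by positivity)) (by positivity)
  rw [e1]
  calc _ ≤ h⁻¹ * (s⁻¹ * C0) := mul_le_mul_of_nonneg_left (e2.trans e4) (by positivity)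
    _ = C0 / (h * s) := by field_simp

/-- `F(h)^3 h ≤ C₀³/y²`. -/
lemma up_F_cube_le {y : ℝ} (hy : 0 < y) (d : ℕ) {h : ℝ} (hh : 0 ≤ h) :
    up_F y d h ^ 3 * h ≤ C0 ^ 3 / y ^ 2 := by
  rcases hh.eq_or_lt with rfl | hh
  · have := C0_pos
    rw [mul_zero]
    positivity
  · have h1 := up_F_le' hy d hh
    have h0 := up_F_nonneg hy d hh.le
    have hyh : 0 < y / h := div_pos hy hh
    have h3 : ((y / h) ^ (2 / 3 : ℝ)) ^ 3 = (y / h) ^ 2 := by
      rw [← Real.rpow_natCast, ← Real.rpow_mul hyh.le, ← Real.rpow_natCast]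
      norm_num
    calc up_F y d h ^ 3 * h ≤ (C0 / (h * (y / h) ^ (2 / 3 : ℝ))) ^ 3 * h := by gcongr
      _ = C0 ^ 3 / (h ^ 3 * ((y / h) ^ (2 / 3 : ℝ)) ^ 3) * h := by rw [div_pow, mul_pow]
      _ = C0 ^ 3 / y ^ 2 := by
        rw [h3]
        field_simp

/-- `h F(h) ≤ d`. -/
lemma up_F_mul_le {y : ℝ} (hy : 0 < y) (d : ℕ) {h : ℝ} (hh : 0 ≤ h) :
    h * up_F y d h ≤ d := by
  unfold up_F
  rw [Finset.mul_sum]
  calc _ ≤ ∑ a ∈ Finset.range d, (1 : ℝ) := by
        refine Finset.sum_le_sum fun a _ => ?_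
        have := up_den_pos hy a
        rw [← div_eq_mul_inv, div_le_one (by positivity)]
        linarith
    _ = d := by simp

/-- `ζ(3/2)` -/
def up_zeta : ℝ := ∑' a : ℕ, (((a : ℝ) + 1) ^ (3 / 2 : ℝ))⁻¹

lemma up_zeta_nonneg : 0 ≤ up_zeta := tsum_nonneg fun a => by positivity

lemma up_F_le_zeta {y : ℝ} (hy : 0 < y) (d : ℕ) {h : ℝ} (hh : 0 ≤ h) :
    up_F y d h ≤ up_zeta / y := by
  have hsum : Summable fun a : ℕ => (((a : ℝ) + 1) ^ (3 / 2 : ℝ))⁻¹ := by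
    have h1 : Summable fun a : ℕ => ((a : ℝ) ^ (3 / 2 : ℝ))⁻¹ :=
      Real.summable_nat_rpow_inv.2 (by norm_num)
    have h2 := (summable_nat_add_iff 1).2 h1
    simpa using h2
  have h1 : up_F y d h ≤ y⁻¹ * ∑ a ∈ Finset.range d, (((a : ℝ) + 1) ^ (3 / 2 : ℝ))⁻¹ := by
    unfold up_F
    rw [Finset.mul_sum]
    refine Finset.sum_le_sum fun a _ => ?_
    have := up_den_pos hy a
    rw [← mul_inv]
    exact inv_anti₀ this (by linarith)
  have h2 : ∑ a ∈ Finset.range d, (((a : ℝ) + 1) ^ (3 / 2 : ℝ))⁻¹ ≤ up_zeta :=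
    hsum.sum_le_tsum _ fun a _ => by positivity
  calc _ ≤ _ := h1
    _ ≤ y⁻¹ * up_zeta := mul_le_mul_of_nonneg_left h2 (by positivity)
    _ = up_zeta / y := by rw [div_eq_mul_inv, mul_comm]

end scalar

/-! ## The module -/

section B1
variable {m ι : Type*} [Fintype m] [DecidableEq m] [Fintype ι]

lemma up_Hof_posSemidef (w : ι → Matrix m m ℂ) {A : Matrix m m ℂ} (hA : A.PosSemidef) :
    (Hof w A).PosSemidef :=
  Matrix.posSemidef_sum _ fun p _ => hA.mul_mul_conjTranspose_same (w p)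

lemma up_Hof'_posSemidef (w : ι → Matrix m m ℂ) {B : Matrix m m ℂ} (hB : B.PosSemidef) :
    (Hof' w B).PosSemidef :=
  Matrix.posSemidef_sum _ fun p _ => hB.conjTranspose_mul_mul_same (w p)

/-- `d > 0` as soon as there is an index. -/
lemma up_d_pos {y : ℝ} {d : ℕ} {B H : Matrix m m ℂ} (hB : B.PosDef) (e : B = Fmat y d H)
    (j : m) : 0 < d := by
  rcases Nat.eq_zero_or_pos d with rfl | h
  · exfalso
    have h0 : B = 0 := by rw [e]; simp [Fmat]
    have := hB.diag_pos (i := j)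
    rw [h0] at this
    simp at this
  · exact h

/-- the matrix inequality behind `kappa ≤ C₀³/y²`. -/
lemma up_ineq {y : ℝ} (hy : 0 < y) {d : ℕ} {B H : Matrix m m ℂ} (hB : B.PosDef)
    (hH : H.PosSemidef) (e : B = Fmat y d H) :
    ((C0 ^ 3 / y ^ 2) • B⁻¹ - B * H * B).PosSemidef := by
  obtain ⟨U, h, hU, hU', hh, rfl⟩ := up_dg_exists hH
  have hd : ∀ j : m, 0 < up_F y d (h j) := fun j => up_F_pos hy (up_d_pos hB e j) (hh j)
  rw [up_Fmat_dg hU hU' hy d hh] at e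
  rw [e, up_dg_inv hU hU' (fun j => (hd j).ne'), up_dg_mul hU, up_dg_mul hU, up_dg_smul,
    up_dg_sub]
  refine up_dg_posSemidef U fun j => ?_
  have h1 := up_F_cube_le hy d (hh j)
  have h2 := hd j
  rw [sub_nonneg, ← div_eq_mul_inv, le_div_iff₀ h2]
  calc _ = up_F y d (h j) ^ 3 * h j := by ring
    _ ≤ _ := h1

theorem solves_upper {w : ι → Matrix m m ℂ} {y : ℝ} (hy : 0 < y) {d : ℕ} {A B : Matrix m m ℂ}
    (h : Solves w y d A B) :
    ((Hof w A * B).trace).re ≤ C0 ^ (3 / 2 : ℝ) / y * dualNorm w := by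
  have hC := C0_pos
  have hk : (0 : ℝ) ≤ C0 ^ 3 / y ^ 2 := by positivity
  have := trace_le_dualNorm (w := w) h.posA h.posB hk
    (up_ineq hy h.posA (up_Hof'_posSemidef w h.posB.posSemidef) h.eqA)
    (up_ineq hy h.posB (up_Hof_posSemidef w h.posA.posSemidef) h.eqB)
  have e : Real.sqrt (C0 ^ 3 / y ^ 2) = C0 ^ (3 / 2 : ℝ) / y := by
    rw [Real.sqrt_div (by positivity), Real.sqrt_sq hy.le, Real.sqrt_eq_rpow,
      ← Real.rpow_natCast, ← Real.rpow_mul hC.le]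
    norm_num
  rwa [e] at this

/-- `tr (H F(H)) = ∑ h_j F(h_j)`. -/
lemma up_trace {y : ℝ} (hy : 0 < y) {d : ℕ} {U : Matrix m m ℂ} (hU : Uᴴ * U = 1)
    (hU' : U * Uᴴ = 1) {h : m → ℝ} (hh : ∀ j, 0 ≤ h j) :
    ((up_dg U h * Fmat y d (up_dg U h)).trace).re = ∑ j, h j * up_F y d (h j) := by
  rw [up_Fmat_dg hU hU' hy d hh, up_dg_mul hU, up_dg_trace hU, Complex.ofReal_re]

theorem solves_card {w : ι → Matrix m m ℂ} {y : ℝ} (hy : 0 < y) {d : ℕ} {A B : Matrix m m ℂ}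
    (h : Solves w y d A B) : ((Hof w A * B).trace).re ≤ Fintype.card m * d := by
  obtain ⟨U, e, hU, hU', hh, eH⟩ := up_dg_exists (up_Hof_posSemidef w h.posA.posSemidef)
  rw [h.eqB, eH, up_trace hy hU hU' hh]
  calc _ ≤ ∑ j : m, (d : ℝ) := Finset.sum_le_sum fun j _ => up_F_mul_le hy d (hh j)
    _ = _ := by simp

lemma up_hsq_eq (M : Matrix m m ℂ) : hsq M = ((M * Mᴴ).trace).re := by
  unfold hsq
  rw [Matrix.trace, Complex.re_sum]
  refine Finset.sum_congr rfl fun i _ => ?_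
  rw [Matrix.diag_apply, Matrix.mul_apply, Complex.re_sum]
  refine Finset.sum_congr rfl fun j _ => ?_
  rw [Matrix.conjTranspose_apply]
  have : M i j * star (M i j) = ((‖M i j‖ ^ 2 : ℝ) : ℂ) := by
    push_cast
    exact Complex.mul_conj' _
  rw [this, Complex.ofReal_re]

/-- `F(H) ≤ ζ(3/2)/y`. -/
lemma up_Fmat_le {y : ℝ} (hy : 0 < y) (d : ℕ) {H : Matrix m m ℂ} (hH : H.PosSemidef) :
    (((up_zeta / y : ℝ) : ℂ) • (1 : Matrix m m ℂ) - Fmat y d H).PosSemidef := by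
  obtain ⟨U, h, hU, hU', hh, rfl⟩ := up_dg_exists hH
  rw [up_Fmat_dg hU hU' hy d hh, up_dg_const hU', up_dg_sub]
  exact up_dg_posSemidef U fun j => sub_nonneg.2 (up_F_le_zeta hy d (hh j))

theorem solves_tail (w : ι → Matrix m m ℂ) : ∃ K : ℝ, 0 ≤ K ∧ ∀ (y : ℝ), 0 < y → ∀ (d : ℕ)
    (A B : Matrix m m ℂ), Solves w y d A B → ((Hof w A * B).trace).re ≤ K / y ^ 2 := by
  have hz := up_zeta_nonneg
  have hw : 0 ≤ ∑ p, hsq (w p) := Finset.sum_nonneg fun p _ => by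
    unfold hsq; positivity
  refine ⟨up_zeta ^ 2 * ∑ p, hsq (w p), by positivity, fun y hy d A B h => ?_⟩
  have h1 : ((Hof w A * B).trace).re ≤ up_zeta / y * ((Hof w A).trace).re := by
    obtain ⟨U, e, hU, hU', hh, eH⟩ := up_dg_exists (up_Hof_posSemidef w h.posA.posSemidef)
    rw [h.eqB, eH, up_trace hy hU hU' hh, up_dg_trace hU, Complex.ofReal_re, Finset.mul_sum]
    refine Finset.sum_le_sum fun j _ => ?_
    rw [mul_comm]
    exact mul_le_mul_of_nonneg_right (up_F_le_zeta hy d (hh j)) (hh j)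
  have h2 : ((Hof w A).trace).re ≤ up_zeta / y * ∑ p, hsq (w p) := by
    have h3 := up_Fmat_le hy d (up_Hof'_posSemidef w h.posB.posSemidef)
    rw [← h.eqA] at h3
    unfold Hof
    rw [Matrix.trace_sum, Complex.re_sum, Finset.mul_sum]
    refine Finset.sum_le_sum fun p _ => ?_
    have h4 := (h3.mul_mul_conjTranspose_same (w p)).trace_nonneg
    have h5 : w p * (((up_zeta / y : ℝ) : ℂ) • (1 : Matrix m m ℂ) - A) * (w p)ᴴ =
        ((up_zeta / y : ℝ) : ℂ) • (w p * (w p)ᴴ) - w p * A * (w p)ᴴ := by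
      rw [Matrix.mul_sub, Matrix.sub_mul, Matrix.mul_smul, Matrix.smul_mul, Matrix.mul_one]
    rw [h5, Matrix.trace_sub, Matrix.trace_smul, sub_nonneg, smul_eq_mul] at h4
    have h6 := (Complex.le_def.1 h4).1
    rw [Complex.re_ofReal_mul, ← up_hsq_eq] at h6
    exact h6
  calc _ ≤ _ := h1
    _ ≤ up_zeta / y * (up_zeta / y * ∑ p, hsq (w p)) :=
        mul_le_mul_of_nonneg_left h2 (by positivity)
    _ = _ := by field_simp

end B1

end OH246
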