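import Pool.Agent.OH246.Defs
import Pool.Agent.OH246.DualNorm
import Pool.Agent.OH246.Upper

open scoped BigOperators ComplexOrder Matrix InnerProductSpace Topology ENNReal
open Filter MeasureTheory Set

noncomputable section

namespace OH246

private lemma g_intbleB2 {τ : ℝ} (hτ : 0 < τ) {y : ℝ} (hy : 0 < y) :
    IntegrableOn (fun x : ℝ => 1 / ((y * x) ^ (3 / 2 : ℝ) + τ)) (Ioi 0) := by
  have hcont : ContinuousOn (fun x : ℝ => 1 / ((y * x) ^ (3 / 2 : ℝ) + τ)) (Ici 0) := by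
    refine ContinuousOn.div continuousOn_const ?_ ?_
    · refine ContinuousOn.add ?_ continuousOn_const
      refine ContinuousOn.rpow_const (by fun_prop) ?_
      intro x hx; right; norm_num
    · intro x hx
      have : 0 ≤ (y * x) ^ (3 / 2 : ℝ) := Real.rpow_nonneg (mul_nonneg hy.le hx) _
      positivity
  rw [← Ioc_union_Ioi_eq_Ioi (zero_le_one' ℝ)]
  refine IntegrableOn.union ?_ ?_
  · exact ((hcont.mono (fun x hx => hx.1)).integrableOn_Icc (a := 0) (b := 1)).mono_set Ioc_subset_Icc_self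
  · have h1 : IntegrableOn (fun x : ℝ => y ^ (-(3 / 2) : ℝ) * x ^ (-(3 / 2) : ℝ)) (Ioi 1) :=
      (integrableOn_Ioi_rpow_of_lt (by norm_num) one_pos).const_mul _
    refine Integrable.mono' h1 ?_ ?_
    · have hsub : Ioi (1 : ℝ) ⊆ Ici 0 := fun x hx => mem_Ici.2 (le_of_lt (lt_trans one_pos (mem_Ioi.1 hx)))
      exact (hcont.mono hsub).aestronglyMeasurable measurableSet_Ioi
    · refine (ae_restrict_mem measurableSet_Ioi).mono ?_
      intro x hx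
      have hx0 : 0 < x := lt_trans one_pos hx
      have hp : 0 < (y * x) ^ (3 / 2 : ℝ) := Real.rpow_pos_of_pos (mul_pos hy hx0) _
      rw [Real.norm_of_nonneg (by positivity), ← Real.mul_rpow hy.le hx0.le, Real.rpow_neg (by positivity),
        one_div]
      exact inv_anti₀ hp (by linarith)

private lemma g_intB2 {τ : ℝ} (hτ : 0 < τ) {y : ℝ} (hy : 0 < y) :
    ∫ x in Ioi (0 : ℝ), 1 / ((y * x) ^ (3 / 2 : ℝ) + τ) = y⁻¹ * τ ^ (-(1 / 3) : ℝ) * C0 := by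
  set b : ℝ := y / τ ^ (2 / 3 : ℝ) with hb
  have hb0 : 0 < b := by positivity
  have h := integral_comp_mul_left_Ioi (fun x : ℝ => 1 / (x ^ (3 / 2 : ℝ) + 1)) 0 hb0
  rw [mul_zero] at h
  have hpt : ∀ x ∈ Ioi (0 : ℝ), 1 / ((y * x) ^ (3 / 2 : ℝ) + τ) =
      τ⁻¹ * (1 / ((b * x) ^ (3 / 2 : ℝ) + 1)) := by
    intro x hx
    have hx0 : (0 : ℝ) < x := hx
    have hτ' : (τ ^ (2 / 3 : ℝ)) ^ (3 / 2 : ℝ) = τ := by
      rw [← Real.rpow_mul hτ.le]; norm_num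
    have : (b * x) ^ (3 / 2 : ℝ) = (y * x) ^ (3 / 2 : ℝ) / τ := by
      rw [hb, div_mul_eq_mul_div, Real.div_rpow (by positivity) (by positivity), hτ']
    rw [this]
    field_simp
  rw [setIntegral_congr_fun measurableSet_Ioi hpt, integral_const_mul, h, smul_eq_mul]
  have : τ⁻¹ * (b⁻¹ * ∫ x in Ioi (0 : ℝ), 1 / (x ^ (3 / 2 : ℝ) + 1)) = τ⁻¹ * b⁻¹ * C0 := by
    rw [C0]; ring
  rw [this]
  congr 1
  rw [hb, inv_div, ← mul_div_assoc, div_eq_mul_inv, mul_comm, ← Real.rpow_neg_one τ, ← Real.rpow_add hτ]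
  norm_num

/-- scaled eigenvalue function -/
def gyB2 (y : ℝ) (d : ℕ) (t : ℝ) : ℝ :=
  ∑ a ∈ Finset.range d, y / ((y * ((a : ℝ) + 1)) ^ (3 / 2 : ℝ) + t)

private lemma gy_low {y : ℝ} (hy : 0 < y) {d : ℕ} (hd : 1 ≤ d) {t : ℝ} (ht : 0 ≤ t) {θ : ℝ} (hθ : 0 < θ) :
    C0 * (t + θ) ^ (-(1 / 3) : ℝ) - y / θ - 2 * (y * d) ^ (-(1 / 2) : ℝ) ≤ gyB2 y d t := by
  set G : ℝ → ℝ := fun x => 1 / ((y * x) ^ (3 / 2 : ℝ) + (t + θ)) with hG
  have htθ : 0 < t + θ := by linarith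
  have hd0 : (0 : ℝ) < d := by exact_mod_cast hd
  -- step 1
  have h1 : y * ∑ a ∈ Finset.range d, G (1 + a) ≤ gyB2 y d t := by
    rw [gyB2, Finset.mul_sum]
    refine Finset.sum_le_sum ?_
    intro a _
    have hp : 0 < (y * ((a : ℝ) + 1)) ^ (3 / 2 : ℝ) := Real.rpow_pos_of_pos (by positivity) _
    rw [hG]
    simp only
    rw [add_comm (1 : ℝ) a, mul_one_div]
    exact div_le_div_of_nonneg_left hy.le (by linarith) (by linarith)
  -- step 2
  have hanti : AntitoneOn G (Icc 1 (1 + d)) := by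
    intro x hx x' hx' hxx
    have hx0 : 0 < x := lt_of_lt_of_le one_pos hx.1
    have hp : 0 < (y * x) ^ (3 / 2 : ℝ) := Real.rpow_pos_of_pos (by positivity) _
    have : (y * x) ^ (3 / 2 : ℝ) ≤ (y * x') ^ (3 / 2 : ℝ) :=
      Real.rpow_le_rpow (by positivity) (by gcongr) (by norm_num)
    rw [hG]
    simp only
    exact one_div_le_one_div_of_le (by linarith) (by linarith)
  have h2 := hanti.integral_le_sum
  have hint := g_intbleB2 (τ := t + θ) htθ hy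
  have hsub : Ioi (1 + (d : ℝ)) ⊆ Ioi (0 : ℝ) := fun x hx =>
    mem_Ioi.2 (lt_trans (by positivity) (mem_Ioi.1 hx))
  -- step 3
  have hsplit : ∫ x in Ioi (0 : ℝ), G x = (∫ x in Ioc (0 : ℝ) 1, G x) + (∫ x in Ioc (1 : ℝ) (1 + d), G x) +
      ∫ x in Ioi (1 + (d : ℝ)), G x := by
    have e1 : Ioi (0 : ℝ) = Ioc 0 (1 + (d : ℝ)) ∪ Ioi (1 + (d : ℝ)) :=
      (Ioc_union_Ioi_eq_Ioi (by positivity)).symm
    have e2 : Ioc (0 : ℝ) (1 + (d : ℝ)) = Ioc 0 1 ∪ Ioc 1 (1 + (d : ℝ)) :=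
      (Ioc_union_Ioc_eq_Ioc zero_le_one (by linarith)).symm
    rw [e1, setIntegral_union (Ioc_disjoint_Ioi le_rfl) measurableSet_Ioi
      (hint.mono_set (fun x hx => hx.1)) (hint.mono_set hsub), e2,
      setIntegral_union (Ioc_disjoint_Ioc_of_le le_rfl) measurableSet_Ioc
      (hint.mono_set (fun x hx => hx.1)) (hint.mono_set (fun x hx => lt_trans one_pos hx.1))]
  have h3 : ∫ x in Ioc (0 : ℝ) 1, G x ≤ 1 / θ := by
    have : ∫ x in Ioc (0 : ℝ) 1, G x ≤ ∫ x in Ioc (0 : ℝ) 1, 1 / θ := by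
      refine setIntegral_mono_on (hint.mono_set (fun x hx => hx.1)) ?_ measurableSet_Ioc ?_
      · exact (integrableOn_const (by simp))
      · intro x hx
        have hp : 0 ≤ (y * x) ^ (3 / 2 : ℝ) := Real.rpow_nonneg (mul_nonneg hy.le hx.1.le) _
        exact one_div_le_one_div_of_le hθ (by linarith)
    simpa using this
  have h4 : ∫ x in Ioi (1 + (d : ℝ)), G x ≤ y⁻¹ * (2 * (y * d) ^ (-(1 / 2) : ℝ)) := by
    have hle : ∫ x in Ioi (1 + (d : ℝ)), G x ≤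
        ∫ x in Ioi (1 + (d : ℝ)), y ^ (-(3 / 2) : ℝ) * x ^ (-(3 / 2) : ℝ) := by
      refine setIntegral_mono_on (hint.mono_set hsub)
        ((integrableOn_Ioi_rpow_of_lt (by norm_num) (by positivity)).const_mul _) measurableSet_Ioi ?_
      intro x hx
      have hx0 : 0 < x := hsub hx
      have hp : 0 < (y * x) ^ (3 / 2 : ℝ) := Real.rpow_pos_of_pos (mul_pos hy hx0) _
      rw [← Real.mul_rpow hy.le hx0.le, Real.rpow_neg (by positivity), hG, ← one_div]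
      exact one_div_le_one_div_of_le hp (by linarith)
    refine hle.trans ?_
    rw [integral_const_mul, integral_Ioi_rpow_of_lt (by norm_num) (by positivity)]
    have e : (-(3 / 2) + 1 : ℝ) = -(1 / 2) := by norm_num
    rw [e, neg_div_neg_eq]
    have h5 : (1 + (d : ℝ)) ^ (-(1 / 2) : ℝ) ≤ (d : ℝ) ^ (-(1 / 2) : ℝ) :=
      Real.rpow_le_rpow_of_nonpos hd0 (by linarith) (by norm_num)
    have h6 : y ^ (-(3 / 2) : ℝ) = y⁻¹ * y ^ (-(1 / 2) : ℝ) := by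
      rw [← Real.rpow_neg_one y, ← Real.rpow_add hy]; norm_num
    rw [h6, Real.mul_rpow hy.le hd0.le]
    have h7 : 0 < y⁻¹ * y ^ (-(1 / 2) : ℝ) := by positivity
    calc y⁻¹ * y ^ (-(1 / 2) : ℝ) * ((1 + (d : ℝ)) ^ (-(1 / 2) : ℝ) / (1 / 2))
        ≤ y⁻¹ * y ^ (-(1 / 2) : ℝ) * ((d : ℝ) ^ (-(1 / 2) : ℝ) / (1 / 2)) := by gcongr
      _ = _ := by ring
  have h2' : ∫ x in Ioc (1 : ℝ) (1 + d), G x ≤ ∑ a ∈ Finset.range d, G (1 + a) := by
    rw [← intervalIntegral.integral_of_le (by linarith)]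
    exact h2
  have htot := g_intB2 (τ := t + θ) htθ hy
  have hkey : y⁻¹ * (t + θ) ^ (-(1 / 3) : ℝ) * C0 ≤ 1 / θ + (∑ a ∈ Finset.range d, G (1 + a)) +
      y⁻¹ * (2 * (y * d) ^ (-(1 / 2) : ℝ)) := by
    rw [← htot]
    change ∫ x in Ioi (0 : ℝ), G x ≤ _
    rw [hsplit]
    linarith
  have := mul_le_mul_of_nonneg_left hkey hy.le
  have hyy : y * y⁻¹ = 1 := mul_inv_cancel₀ hy.ne'
  have e1 : y * (y⁻¹ * (t + θ) ^ (-(1 / 3) : ℝ) * C0) = C0 * (t + θ) ^ (-(1 / 3) : ℝ) := by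
    rw [← mul_assoc, ← mul_assoc, hyy]; ring
  have e2 : y * (1 / θ + (∑ a ∈ Finset.range d, G (1 + a)) + y⁻¹ * (2 * (y * d) ^ (-(1 / 2) : ℝ))) =
      y / θ + y * (∑ a ∈ Finset.range d, G (1 + a)) + 2 * (y * d) ^ (-(1 / 2) : ℝ) := by
    rw [mul_add, mul_add, ← mul_assoc y y⁻¹, hyy]; ring
  rw [e1, e2] at this
  linarith

private lemma gyB2_pos {y : ℝ} (hy : 0 < y) {d : ℕ} (hd : 1 ≤ d) {t : ℝ} (ht : 0 ≤ t) : 0 < gyB2 y d t := by
  rw [gyB2]
  refine Finset.sum_pos ?_ ⟨0, Finset.mem_range.2 hd⟩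
  intro a _
  have hp : 0 < (y * ((a : ℝ) + 1)) ^ (3 / 2 : ℝ) := Real.rpow_pos_of_pos (by positivity) _
  positivity

private lemma tgy_mono {y : ℝ} (hy : 0 < y) {d : ℕ} {t t' : ℝ} (ht : 0 ≤ t) (htt : t ≤ t') :
    t * gyB2 y d t ≤ t' * gyB2 y d t' := by
  rw [gyB2, gyB2, Finset.mul_sum, Finset.mul_sum]
  refine Finset.sum_le_sum ?_
  intro a _
  have hp : 0 < (y * ((a : ℝ) + 1)) ^ (3 / 2 : ℝ) := Real.rpow_pos_of_pos (by positivity) _
  rw [mul_div_assoc', mul_div_assoc', div_le_div_iff₀ (by linarith) (by linarith)]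
  nlinarith [mul_nonneg (mul_nonneg (sub_nonneg.2 htt) hy.le) hp.le]


private lemma gy_key {M ε : ℝ} (hM : 0 ≤ M) (hε : 0 < ε) : ∃ δ > 0, ∃ L : ℝ, ∀ (y : ℝ) (d : ℕ), 0 < y → y ≤ δ →
    L ≤ y * d → ∀ t, 0 ≤ t → t ≤ M → ((gyB2 y d t) ^ 2)⁻¹ ≤ (C0 ^ 3)⁻¹ * (t * gyB2 y d t) + ε := by
  have hC := C0_pos
  set c : ℝ := C0 ^ 2 * ε / 2 with hc
  have hc0 : 0 < c := by positivity
  set θ : ℝ := min 1 (c ^ (3 / 2 : ℝ)) with hθ
  have hθ0 : 0 < θ := lt_min one_pos (Real.rpow_pos_of_pos hc0 _)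
  have hθ1 : θ ≤ 1 := min_le_left _ _
  have hθc : θ ^ (2 / 3 : ℝ) ≤ c := by
    calc θ ^ (2 / 3 : ℝ) ≤ (c ^ (3 / 2 : ℝ)) ^ (2 / 3 : ℝ) :=
          Real.rpow_le_rpow hθ0.le (min_le_right _ _) (by norm_num)
      _ = c := by rw [← Real.rpow_mul hc0.le]; norm_num
  set u0 : ℝ := C0 * (M + 1) ^ (-(1 / 3) : ℝ) with hu0
  have hu00 : 0 < u0 := by positivity
  set D : ℝ := 8 / u0 ^ 3 + (C0 ^ 3)⁻¹ * M + 1 with hD
  have hD0 : 0 < D := by positivity
  set η0 : ℝ := min (u0 / 2) (ε / 2 / D) with hη0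
  have hη00 : 0 < η0 := lt_min (by positivity) (by positivity)
  refine ⟨θ * η0 / 2, by positivity, (4 / η0) ^ 2, ?_⟩
  intro y d hy hyδ hL t ht htM
  have hLpos : 0 < (4 / η0) ^ 2 := by positivity
  have hyd : 0 < y * d := lt_of_lt_of_le hLpos hL
  have hd : 1 ≤ d := by
    rcases Nat.eq_zero_or_pos d with h | h
    · rw [h] at hyd; simp at hyd
    · exact h
  have hlow := gy_low hy hd ht hθ0
  set f := gyB2 y d t with hf
  have hfpos : 0 < f := gyB2_pos hy hd ht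
  set v : ℝ := (t + θ) ^ (-(1 / 3) : ℝ) with hv
  have htθ : 0 < t + θ := by linarith
  have hv0 : 0 < v := Real.rpow_pos_of_pos htθ _
  have hv3 : v ^ 3 * (t + θ) = 1 := by
    rw [hv, ← Real.rpow_natCast, ← Real.rpow_mul htθ.le]
    norm_num
    rw [Real.rpow_neg_one]
    exact inv_mul_cancel₀ htθ.ne'
  set u : ℝ := C0 * v with hu
  have huu0 : u0 ≤ u := by
    rw [hu0, hu]
    refine mul_le_mul_of_nonneg_left ?_ hC.le
    exact Real.rpow_le_rpow_of_nonpos htθ (by linarith) (by norm_num)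
  have hu_pos : 0 < u := lt_of_lt_of_le hu00 huu0
  set η : ℝ := y / θ + 2 * (y * d) ^ (-(1 / 2) : ℝ) with hη
  have hη_nonneg : 0 ≤ η := by positivity
  have hηη0 : η ≤ η0 := by
    have h1 : y / θ ≤ η0 / 2 := by
      rw [div_le_iff₀ hθ0]; linarith
    have h2 : (y * d) ^ (-(1 / 2) : ℝ) ≤ η0 / 4 := by
      calc (y * d) ^ (-(1 / 2) : ℝ) ≤ ((4 / η0) ^ 2) ^ (-(1 / 2) : ℝ) :=
            Real.rpow_le_rpow_of_nonpos hLpos hL (by norm_num)
        _ = η0 / 4 := by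
            rw [← Real.rpow_natCast, ← Real.rpow_mul (by positivity)]
            norm_num
            rw [Real.rpow_neg_one, inv_div]
    rw [hη]; linarith
  have hfu : u - η ≤ f := by
    rw [hη, hu]; linarith
  have hηu : η ≤ u / 2 := by
    have : η0 ≤ u0 / 2 := min_le_left _ _
    linarith
  have huη : 0 < u - η := by linarith
  -- bound of the inverse square
  have h1 : (f ^ 2)⁻¹ ≤ ((u - η) ^ 2)⁻¹ := inv_anti₀ (by positivity) (by gcongr)
  have h2 : ((u - η) ^ 2)⁻¹ ≤ (u ^ 2)⁻¹ + 8 * η / u ^ 3 := by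
    rw [← sub_le_iff_le_add']
    have e : ((u - η) ^ 2)⁻¹ - (u ^ 2)⁻¹ = (η * (2 * u - η)) / (u ^ 2 * (u - η) ^ 2) := by
      field_simp
      ring
    rw [e, div_le_div_iff₀ (by positivity) (by positivity)]
    have h3 : u ^ 2 / 4 ≤ (u - η) ^ 2 := by
      have h31 : u / 2 ≤ u - η := by linarith
      calc u ^ 2 / 4 = (u / 2) ^ 2 := by ring
        _ ≤ (u - η) ^ 2 := pow_le_pow_left₀ (by positivity) h31 2
    have h4 : η * (2 * u - η) ≤ 2 * u * η := by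
      have : 0 ≤ η * η := mul_nonneg hη_nonneg hη_nonneg
      linarith [this]
    calc η * (2 * u - η) * u ^ 3 ≤ 2 * u * η * u ^ 3 := by gcongr
      _ = 8 * η * (u ^ 2 * (u ^ 2 / 4)) := by ring
      _ ≤ 8 * η * (u ^ 2 * (u - η) ^ 2) := by gcongr
  have h3 : 8 * η / u ^ 3 ≤ 8 * η / u0 ^ 3 := by gcongr
  have h4 : (u ^ 2)⁻¹ = (C0 ^ 3)⁻¹ * (t * u) + (C0 ^ 2)⁻¹ * (v * θ) := by
    have : (u ^ 2)⁻¹ = (C0 ^ 2)⁻¹ * (v * (t + θ)) := by
      rw [hu]
      have : v * (t + θ) = (v ^ 2)⁻¹ := by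
        field_simp
        linarith
      rw [this, ← mul_inv]; ring
    rw [this, hu]
    field_simp
  have h5 : v * θ ≤ c := by
    refine le_trans ?_ hθc
    have hvθ : v ≤ θ ^ (-(1 / 3) : ℝ) := Real.rpow_le_rpow_of_nonpos hθ0 (by linarith) (by norm_num)
    calc v * θ ≤ θ ^ (-(1 / 3) : ℝ) * θ := by gcongr
      _ = θ ^ (2 / 3 : ℝ) := by
          nth_rewrite 2 [← Real.rpow_one θ]
          rw [← Real.rpow_add hθ0]; norm_num
  have h6 : (C0 ^ 2)⁻¹ * (v * θ) ≤ ε / 2 := by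
    calc (C0 ^ 2)⁻¹ * (v * θ) ≤ (C0 ^ 2)⁻¹ * c := by gcongr
      _ = ε / 2 := by rw [hc]; field_simp
  have h7 : (C0 ^ 3)⁻¹ * (t * u) ≤ (C0 ^ 3)⁻¹ * (t * f) + (C0 ^ 3)⁻¹ * M * η := by
    have : t * u ≤ t * f + M * η := by
      have := mul_le_mul_of_nonneg_left hfu ht
      have h' := mul_le_mul_of_nonneg_right htM hη_nonneg
      linarith
    calc (C0 ^ 3)⁻¹ * (t * u) ≤ (C0 ^ 3)⁻¹ * (t * f + M * η) := by gcongr
      _ = _ := by ring
  have h8 : η * D ≤ ε / 2 := by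
    calc η * D ≤ (ε / 2 / D) * D := by
          refine mul_le_mul_of_nonneg_right (hηη0.trans (min_le_right _ _)) hD0.le
      _ = ε / 2 := by field_simp
  have h9 : 8 * η / u0 ^ 3 + (C0 ^ 3)⁻¹ * M * η ≤ η * D := by
    rw [hD]
    have : η * (8 / u0 ^ 3 + (C0 ^ 3)⁻¹ * M + 1) = 8 * η / u0 ^ 3 + (C0 ^ 3)⁻¹ * M * η + η := by ring
    rw [this]; linarith
  linarith

private lemma gy_apriori {T : ℝ} (hT : 0 ≤ T) : ∃ M : ℝ, 0 ≤ M ∧ ∃ δ > 0, ∃ L : ℝ, ∀ (y : ℝ) (d : ℕ), 0 < y →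
    y ≤ δ → L ≤ y * d → ∀ t, 0 ≤ t → t * gyB2 y d t ≤ T → t ≤ M := by
  have hC := C0_pos
  set K : ℝ := max 1 ((T + 3) / C0) with hK
  have hK1 : 1 ≤ K := le_max_left _ _
  have hK0 : 0 < K := lt_of_lt_of_le one_pos hK1
  have hK2 : T + 3 ≤ K * C0 := by
    have := le_max_right 1 ((T + 3) / C0)
    rw [← hK] at this
    rwa [div_le_iff₀ hC] at this
  set M : ℝ := 4 * K ^ 3 with hM
  have hM0 : 0 < M := by positivity
  refine ⟨M, hM0.le, 1, one_pos, (2 * M) ^ 2, ?_⟩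
  intro y d hy hy1 hL t ht htT
  by_contra hcon
  push Not at hcon
  have hLpos : 0 < (2 * M) ^ 2 := by positivity
  have hyd : 0 < y * d := lt_of_lt_of_le hLpos hL
  have hd : 1 ≤ d := by
    rcases Nat.eq_zero_or_pos d with h | h
    · rw [h] at hyd; simp at hyd
    · exact h
  have hlow := gy_low hy hd hM0.le hM0
  have hmono := tgy_mono hy (d := d) hM0.le hcon.le
  have h1 : (y * d) ^ (-(1 / 2) : ℝ) ≤ 1 / (2 * M) := by
    calc (y * d) ^ (-(1 / 2) : ℝ) ≤ ((2 * M) ^ 2) ^ (-(1 / 2) : ℝ) :=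
          Real.rpow_le_rpow_of_nonpos hLpos hL (by norm_num)
      _ = 1 / (2 * M) := by
          rw [← Real.rpow_natCast, ← Real.rpow_mul (by positivity)]
          norm_num
          rw [Real.rpow_neg_one, mul_inv]; ring
  have h2 : (M + M) ^ (-(1 / 3) : ℝ) = (2 * K)⁻¹ := by
    have : M + M = (2 * K) ^ (3 : ℝ) := by
      rw [hM]
      rw [show (3 : ℝ) = ((3 : ℕ) : ℝ) by norm_num, Real.rpow_natCast]
      ring
    rw [this, ← Real.rpow_mul (by positivity)]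
    norm_num
    rw [Real.rpow_neg_one, mul_inv]; ring
  rw [h2] at hlow
  have h3 : M * (C0 * (2 * K)⁻¹ - y / M - 2 * (y * d) ^ (-(1 / 2) : ℝ)) ≤ M * gyB2 y d M := by gcongr
  have h4 : M * (C0 * (2 * K)⁻¹ - y / M - 2 * (y * d) ^ (-(1 / 2) : ℝ)) =
      2 * K ^ 2 * C0 - y - 2 * M * (y * d) ^ (-(1 / 2) : ℝ) := by
    rw [hM]; field_simp; ring
  have h5 : 2 * M * (y * d) ^ (-(1 / 2) : ℝ) ≤ 1 := by
    calc 2 * M * (y * d) ^ (-(1 / 2) : ℝ) ≤ 2 * M * (1 / (2 * M)) := by gcongr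
      _ = 1 := by field_simp
  have h6 : T + 3 ≤ K ^ 2 * C0 := by
    calc T + 3 ≤ K * C0 := hK2
      _ ≤ K ^ 2 * C0 := by gcongr; nlinarith
  linarith


section mat
variable {m ι : Type*} [Fintype m] [DecidableEq m] [Fintype ι]

omit [DecidableEq m] in
private lemma hsqB2_eq (u : Matrix m m ℂ) : hsq u = ((u * uᴴ).trace).re := by
  rw [hsq, Matrix.trace, Complex.re_sum]
  refine Finset.sum_congr rfl fun i _ => ?_
  rw [Matrix.diag_apply, Matrix.mul_apply, Complex.re_sum]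
  refine Finset.sum_congr rfl fun j _ => ?_
  rw [Matrix.conjTranspose_apply, Complex.star_def, Complex.mul_conj, Complex.normSq_eq_norm_sq]
  norm_cast

private lemma diag_data {H : Matrix m m ℂ} (hH : H.PosSemidef) {y : ℝ} (hy : 0 < y) {d : ℕ}
    (hd : 1 ≤ d) : ∃ t : m → ℝ, (∀ i, 0 ≤ t i) ∧
      (hsn (Fmat y d H)⁻¹) ^ 2 = y * ∑ i, ((gyB2 y d (t i)) ^ 2)⁻¹ ∧
      y * ((H * Fmat y d H).trace).re = ∑ i, t i * gyB2 y d (t i) := by
  set h := hH.1.eigenvalues with hh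
  have hh0 : ∀ i, 0 ≤ h i := hH.eigenvalues_nonneg
  set U := hH.1.eigenvectorUnitary with hU
  set φ := Unitary.conjStarAlgAut ℂ (Matrix m m ℂ) U with hφ
  have hspec : H = φ (Matrix.diagonal (fun i => ((h i : ℝ) : ℂ))) := hH.1.spectral_theorem
  -- unscaled eigenvalue function
  set ψ : ℝ → ℝ := fun s => ∑ a ∈ Finset.range d, (y * ((a : ℝ) + 1) ^ (3 / 2 : ℝ) + s)⁻¹ with hψ
  have hψg : ∀ s, 0 ≤ s → ψ s = gyB2 y d (Real.sqrt y * s) / Real.sqrt y := by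
    intro s hs
    have hsq : 0 < Real.sqrt y := Real.sqrt_pos.2 hy
    rw [hψ, gyB2, Finset.sum_div]
    refine Finset.sum_congr rfl fun a _ => ?_
    have hp : 0 < ((a : ℝ) + 1) ^ (3 / 2 : ℝ) := Real.rpow_pos_of_pos (by positivity) _
    have e : (y * ((a : ℝ) + 1)) ^ (3 / 2 : ℝ) = Real.sqrt y * (y * ((a : ℝ) + 1) ^ (3 / 2 : ℝ)) := by
      rw [Real.mul_rpow hy.le (by positivity)]
      have : y ^ (3 / 2 : ℝ) = Real.sqrt y * y := by
        rw [Real.sqrt_eq_rpow]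
        nth_rewrite 3 [← Real.rpow_one y]
        rw [← Real.rpow_add hy]; norm_num
      rw [this]; ring
    rw [e, ← mul_add]
    have hpos : 0 < y * ((a : ℝ) + 1) ^ (3 / 2 : ℝ) + s := by positivity
    have hyy : Real.sqrt y * Real.sqrt y = y := Real.mul_self_sqrt hy.le
    field_simp
    nlinarith [hyy]
  have hψpos : ∀ s, 0 ≤ s → 0 < ψ s := by
    intro s hs
    refine Finset.sum_pos ?_ ⟨0, Finset.mem_range.2 hd⟩
    intro a _
    have hp : 0 < ((a : ℝ) + 1) ^ (3 / 2 : ℝ) := Real.rpow_pos_of_pos (by positivity) _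
    positivity
  have hinv : ∀ c : ℝ, 0 < c → ((c : ℂ) • (1 : Matrix m m ℂ) + H)⁻¹ =
      φ (Matrix.diagonal (fun i => (((c + h i)⁻¹ : ℝ) : ℂ))) := by
    intro c hc
    refine Matrix.inv_eq_right_inv ?_
    have e1 : (c : ℂ) • (1 : Matrix m m ℂ) + H =
        φ (Matrix.diagonal (fun i => ((c + h i : ℝ) : ℂ))) := by
      nth_rewrite 1 [hspec]
      rw [← map_one φ, ← map_smul, ← map_add]
      congr 1
      ext i j
      by_cases hij : i = j
      · subst hij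
        simp
      · simp [Matrix.one_apply_ne hij, Matrix.diagonal_apply_ne _ hij]
    rw [e1, ← map_mul, Matrix.diagonal_mul_diagonal]
    have : (fun i => ((c + h i : ℝ) : ℂ) * (((c + h i)⁻¹ : ℝ) : ℂ)) = fun _ => (1 : ℂ) := by
      ext i
      rw [← Complex.ofReal_mul, mul_inv_cancel₀ (by have := hh0 i; positivity), Complex.ofReal_one]
    rw [this, Matrix.diagonal_one, map_one]
  have hF : Fmat y d H = φ (Matrix.diagonal (fun i => ((ψ (h i) : ℝ) : ℂ))) := by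
    rw [Fmat]
    have : ∀ a ∈ Finset.range d, (((y * ((a : ℝ) + 1) ^ (3 / 2 : ℝ) : ℝ) : ℂ) • (1 : Matrix m m ℂ) + H)⁻¹ =
        φ (Matrix.diagonal (fun i => (((y * ((a : ℝ) + 1) ^ (3 / 2 : ℝ) + h i)⁻¹ : ℝ) : ℂ))) := by
      intro a _
      have hp : 0 < ((a : ℝ) + 1) ^ (3 / 2 : ℝ) := Real.rpow_pos_of_pos (by positivity) _
      exact hinv _ (by positivity)
    rw [Finset.sum_congr rfl this, ← map_sum]
    congr 1
    ext i j
    rw [Matrix.sum_apply]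
    by_cases hij : i = j
    · subst hij
      simp [hψ]
    · simp [Matrix.diagonal_apply_ne _ hij]
  have hFinv : (Fmat y d H)⁻¹ = φ (Matrix.diagonal (fun i => (((ψ (h i))⁻¹ : ℝ) : ℂ))) := by
    refine Matrix.inv_eq_right_inv ?_
    rw [hF, ← map_mul, Matrix.diagonal_mul_diagonal]
    have : (fun i => ((ψ (h i) : ℝ) : ℂ) * (((ψ (h i))⁻¹ : ℝ) : ℂ)) = fun _ => (1 : ℂ) := by
      ext i
      rw [← Complex.ofReal_mul, mul_inv_cancel₀ (hψpos _ (hh0 i)).ne', Complex.ofReal_one]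
    rw [this, Matrix.diagonal_one, map_one]
  have htr : ∀ X : Matrix m m ℂ, (φ X).trace = X.trace := by
    intro X
    rw [hφ, Unitary.conjStarAlgAut_apply, Matrix.mul_assoc, Matrix.trace_mul_comm, Matrix.mul_assoc]
    have : star (U : Matrix m m ℂ) * (U : Matrix m m ℂ) = 1 := Unitary.coe_star_mul_self U
    rw [this, Matrix.mul_one]
  refine ⟨fun i => Real.sqrt y * h i, fun i => mul_nonneg (Real.sqrt_nonneg _) (hh0 i), ?_, ?_⟩
  · rw [hsn, Real.sq_sqrt (by rw [hsq]; positivity), hsqB2_eq, hFinv]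
    have e2 : (φ (Matrix.diagonal (fun i => (((ψ (h i))⁻¹ : ℝ) : ℂ))))ᴴ =
        φ (Matrix.diagonal (fun i => (((ψ (h i))⁻¹ : ℝ) : ℂ))) := by
      rw [← Matrix.star_eq_conjTranspose, ← map_star, Matrix.star_eq_conjTranspose,
        Matrix.diagonal_conjTranspose]
      congr 2
      ext i
      simp
    rw [e2, ← map_mul, htr, Matrix.diagonal_mul_diagonal, Matrix.trace_diagonal, Complex.re_sum,
      Finset.mul_sum]
    refine Finset.sum_congr rfl fun i _ => ?_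
    rw [← Complex.ofReal_mul, Complex.ofReal_re, hψg _ (hh0 i)]
    have hg := gyB2_pos hy hd (mul_nonneg (Real.sqrt_nonneg y) (hh0 i))
    have hyy : Real.sqrt y * Real.sqrt y = y := Real.mul_self_sqrt hy.le
    have hsq : 0 < Real.sqrt y := Real.sqrt_pos.2 hy
    rw [inv_div, div_mul_div_comm, hyy, ← pow_two, div_eq_mul_inv]
  · nth_rewrite 1 [hspec]
    rw [hF, ← map_mul, htr, Matrix.diagonal_mul_diagonal, Matrix.trace_diagonal, Complex.re_sum,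
      Finset.mul_sum]
    refine Finset.sum_congr rfl fun i _ => ?_
    rw [← Complex.ofReal_mul, Complex.ofReal_re, hψg _ (hh0 i)]
    have hyy : Real.sqrt y * Real.sqrt y = y := Real.mul_self_sqrt hy.le
    have hsq : 0 < Real.sqrt y := Real.sqrt_pos.2 hy
    have hyy2 : Real.sqrt y ^ 2 = y := by rw [pow_two]; exact hyy
    field_simp
    rw [hyy2]; ring


omit [DecidableEq m] in
private lemma trace_sym (w : ι → Matrix m m ℂ) (A B : Matrix m m ℂ) :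
    (Hof' w B * A).trace = (Hof w A * B).trace := by
  rw [Hof, Hof', Finset.sum_mul, Finset.sum_mul, Matrix.trace_sum, Matrix.trace_sum]
  refine Finset.sum_congr rfl fun p _ => ?_
  rw [Matrix.mul_assoc, Matrix.mul_assoc, Matrix.mul_assoc, Matrix.trace_mul_comm, Matrix.mul_assoc,
    Matrix.trace_mul_comm]
  simp only [Matrix.mul_assoc]

omit [DecidableEq m] in
private lemma Hof_psd (w : ι → Matrix m m ℂ) {A : Matrix m m ℂ} (hA : A.PosDef) :
    (Hof w A).PosSemidef := by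
  rw [Hof]
  refine Matrix.posSemidef_sum _ fun p _ => ?_
  exact hA.posSemidef.mul_mul_conjTranspose_same _

omit [DecidableEq m] in
private lemma Hof'_psd (w : ι → Matrix m m ℂ) {B : Matrix m m ℂ} (hB : B.PosDef) :
    (Hof' w B).PosSemidef := by
  rw [Hof']
  refine Matrix.posSemidef_sum _ fun p _ => ?_
  exact hB.posSemidef.conjTranspose_mul_mul_same _

theorem solves_lower (w : ι → Matrix m m ℂ) : ∀ ε > 0, ∃ δ > 0, ∃ L : ℝ, ∀ (y : ℝ) (d : ℕ)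
    (A B : Matrix m m ℂ), 0 < y → y ≤ δ → L ≤ y * d → Solves w y d A B →
    C0 ^ (3 / 2 : ℝ) * dualNorm w - ε ≤ y * ((Hof w A * B).trace).re := by
  intro ε hε
  have hC := C0_pos
  have hD : 0 ≤ dualNorm w := by
    refine Real.sSup_nonneg ?_
    rintro r ⟨z, _, rfl⟩
    exact norm_nonneg _
  set D := dualNorm w with hDdef
  set Tu : ℝ := C0 ^ (3 / 2 : ℝ) * D with hTu
  have hTu0 : 0 ≤ Tu := by positivity
  set ε2 : ℝ := ε ^ 2 / (C0 ^ 3 * (Tu + 1) * (Fintype.card m + 1)) with hε2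
  have hε20 : 0 < ε2 := by positivity
  obtain ⟨M, hM, δ1, hδ1, L1, hap⟩ := gy_apriori hTu0
  obtain ⟨δ2, hδ2, L2, hkey⟩ := gy_key hM hε20
  refine ⟨min δ1 δ2, lt_min hδ1 hδ2, max 1 (max L1 L2), ?_⟩
  intro y d A B hy hyδ hL hS
  have hL0 : (1 : ℝ) ≤ y * d := (le_max_left _ _).trans hL
  have hL1 : L1 ≤ y * d := ((le_max_left _ _).trans (le_max_right _ _)).trans hL
  have hL2 : L2 ≤ y * d := ((le_max_right _ _).trans (le_max_right _ _)).trans hL
  have hy1 : y ≤ δ1 := hyδ.trans (min_le_left _ _)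
  have hy2 : y ≤ δ2 := hyδ.trans (min_le_right _ _)
  have hd : 1 ≤ d := by
    rcases Nat.eq_zero_or_pos d with h | h
    · rw [h] at hL0; simp at hL0; linarith
    · exact h
  set N := ((Hof w A * B).trace).re with hN
  have hup := solves_upper hy hS
  rw [← hN] at hup
  have hTle : y * N ≤ Tu := by
    have := mul_le_mul_of_nonneg_left hup hy.le
    calc y * N ≤ y * (C0 ^ (3 / 2 : ℝ) / y * D) := this
      _ = Tu := by rw [hTu]; field_simp
  -- common estimate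
  have main : ∀ (H X : Matrix m m ℂ), H.PosSemidef → X = Fmat y d H → ((H * X).trace).re = N →
      (hsn X⁻¹) ^ 2 ≤ y * ((C0 ^ 3)⁻¹ * (y * N) + Fintype.card m * ε2) ∧ 0 ≤ y * N := by
    intro H X hH hX hXN
    obtain ⟨t, ht0, h1, h2⟩ := diag_data hH hy hd
    rw [← hX] at h1 h2
    rw [hXN] at h2
    have hnn : ∀ i, 0 ≤ t i * gyB2 y d (t i) := fun i =>
      mul_nonneg (ht0 i) (gyB2_pos hy hd (ht0 i)).le
    refine ⟨?_, by rw [h2]; exact Finset.sum_nonneg fun i _ => hnn i⟩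
    rw [h1]
    refine mul_le_mul_of_nonneg_left ?_ hy.le
    have hi : ∀ i ∈ Finset.univ, ((gyB2 y d (t i)) ^ 2)⁻¹ ≤ (C0 ^ 3)⁻¹ * (t i * gyB2 y d (t i)) + ε2 := by
      intro i _
      refine hkey y d hy hy2 hL2 (t i) (ht0 i) ?_
      refine hap y d hy hy1 hL1 (t i) (ht0 i) ?_
      refine le_trans ?_ hTle
      rw [h2]
      exact Finset.single_le_sum (f := fun i => t i * gyB2 y d (t i)) (fun i _ => hnn i) (Finset.mem_univ i)
    calc ∑ i, ((gyB2 y d (t i)) ^ 2)⁻¹ ≤ ∑ i, ((C0 ^ 3)⁻¹ * (t i * gyB2 y d (t i)) + ε2) :=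
          Finset.sum_le_sum hi
      _ = (C0 ^ 3)⁻¹ * (y * N) + Fintype.card m * ε2 := by
          rw [Finset.sum_add_distrib, ← Finset.mul_sum, ← h2]
          simp
  obtain ⟨hBn, hTnn⟩ := main (Hof w A) B (Hof_psd w hS.posA) hS.eqB rfl
  obtain ⟨hAn, _⟩ := main (Hof' w B) A (Hof'_psd w hS.posB) hS.eqA (by rw [trace_sym])
  set Q : ℝ := y * ((C0 ^ 3)⁻¹ * (y * N) + Fintype.card m * ε2) with hQ
  have hQ0 : 0 ≤ Q := (sq_nonneg _).trans hAn
  have hAn' : hsn A⁻¹ ≤ Real.sqrt Q := Real.le_sqrt_of_sq_le hAn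
  have hBn' : hsn B⁻¹ ≤ Real.sqrt Q := Real.le_sqrt_of_sq_le hBn
  have hprod : hsn A⁻¹ * hsn B⁻¹ ≤ Q := by
    calc hsn A⁻¹ * hsn B⁻¹ ≤ Real.sqrt Q * Real.sqrt Q :=
          mul_le_mul hAn' hBn' (Real.sqrt_nonneg _) (Real.sqrt_nonneg _)
      _ = Q := Real.mul_self_sqrt hQ0
  have hNnn : 0 ≤ N := by
    by_contra hcon
    push Not at hcon
    have := mul_neg_of_pos_of_neg hy hcon
    linarith
  have hsq := dualNorm_sq_le (w := w) hS.posA hS.posB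
  rw [← hN, ← hDdef] at hsq
  have h1 : D ^ 2 ≤ N * Q := hsq.trans (mul_le_mul_of_nonneg_left hprod hNnn)
  set T : ℝ := y * N with hT
  have h2 : N * Q = T * ((C0 ^ 3)⁻¹ * T + Fintype.card m * ε2) := by
    rw [hQ, hT]; ring
  rw [h2] at h1
  have hE : (C0 ^ (3 / 2 : ℝ) * D) ^ 2 = C0 ^ 3 * D ^ 2 := by
    rw [mul_pow, ← Real.rpow_natCast (C0 ^ (3 / 2 : ℝ)) 2, ← Real.rpow_mul hC.le]
    norm_num
  have h3 : (C0 ^ (3 / 2 : ℝ) * D) ^ 2 ≤ T ^ 2 + ε ^ 2 := by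
    rw [hE]
    have h4 : C0 ^ 3 * D ^ 2 ≤ C0 ^ 3 * (T * ((C0 ^ 3)⁻¹ * T + Fintype.card m * ε2)) := by gcongr
    have h5 : C0 ^ 3 * (T * ((C0 ^ 3)⁻¹ * T + Fintype.card m * ε2)) =
        T ^ 2 + C0 ^ 3 * T * Fintype.card m * ε2 := by
      field_simp
    have h6 : C0 ^ 3 * T * Fintype.card m * ε2 ≤ ε ^ 2 := by
      have h7 : C0 ^ 3 * T * Fintype.card m * ε2 ≤ C0 ^ 3 * (Tu + 1) * (Fintype.card m + 1) * ε2 := by
        have hTT : T ≤ Tu + 1 := by linarith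
        gcongr
        linarith
      refine h7.trans (le_of_eq ?_)
      rw [hε2]; field_simp
    linarith
  have h8 : (C0 ^ (3 / 2 : ℝ) * D) ^ 2 ≤ (T + ε) ^ 2 := by
    have : 0 ≤ 2 * T * ε := by positivity
    nlinarith
  have h9 : C0 ^ (3 / 2 : ℝ) * D ≤ T + ε := by
    refine le_of_sq_le_sq ?_ (by positivity)
    exact h8
  linarith

end mat

end OH246
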