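import Pool.Agent.OH246.Defs
import Pool.Agent.OH246.Upper
import Pool.Agent.OH246.Lower

/-!
# Module B3: the limit of the normalised trace norms (Step 5)
-/

open scoped BigOperators ComplexOrder Matrix InnerProductSpace Topology ENNReal
open Filter MeasureTheory

noncomputable section

namespace OH246

variable {m ι : Type*} [Fintype m] [DecidableEq m] [Fintype ι]

open scoped MatrixOrder in
theorem b3_nonneg {w : ι → Matrix m m ℂ} {y : ℝ} {d : ℕ} {A B : Matrix m m ℂ}
    (h : Solves w y d A B) : 0 ≤ ((Hof w A * B).trace).re := by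
  have hA := h.posA.posSemidef
  have hB := h.posB.posSemidef
  have hH : (Hof w A).PosSemidef := by
    unfold Hof
    exact Matrix.posSemidef_sum _ (fun p _ => hA.mul_mul_conjTranspose_same (w p))
  obtain ⟨C, hC⟩ : ∃ C : Matrix m m ℂ, B = Cᴴ * C :=
    CStarAlgebra.nonneg_iff_eq_star_mul_self.mp hB.nonneg
  have h1 : (Hof w A * B).trace = (C * Hof w A * Cᴴ).trace := by
    rw [hC, ← Matrix.mul_assoc, Matrix.trace_mul_comm, ← Matrix.mul_assoc]
  rw [h1]
  have h2 := (hH.mul_mul_conjTranspose_same C).trace_nonneg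
  exact (Complex.le_def.1 h2).1

section real

variable {N : ℕ → ℝ → ℝ} {D c1 M K : ℝ}

/-- integrability -/
theorem b3_integrable (hc : ∀ d, ContinuousOn (N d) (Set.Ioi 0))
    (h0 : ∀ d y, 1 ≤ d → 0 < y → 0 ≤ N d y)
    (hM : ∀ d y, 1 ≤ d → 0 < y → N d y ≤ M * d)
    (hK : ∀ d y, 1 ≤ d → 0 < y → N d y ≤ K / y ^ 2) (d : ℕ) (hd : 1 ≤ d) :
    IntegrableOn (N d) (Set.Ioi 0) := by
  have hu : Set.Ioi (0:ℝ) = Set.Ioc 0 1 ∪ Set.Ioi 1 := (Set.Ioc_union_Ioi_eq_Ioi zero_le_one).symm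
  rw [hu]
  have hm : AEStronglyMeasurable (N d) (volume.restrict (Set.Ioi 0)) :=
    (hc d).aestronglyMeasurable measurableSet_Ioi
  refine IntegrableOn.union ?_ ?_
  · have hi : IntegrableOn (fun _ : ℝ => M * d) (Set.Ioc 0 1) := by
      exact integrableOn_const (by simp) (by finiteness)
    refine Integrable.mono' hi (hm.mono_measure (Measure.restrict_mono (fun x hx => hx.1) le_rfl)) ?_
    rw [ae_restrict_iff' measurableSet_Ioc]
    refine Eventually.of_forall (fun y hy => ?_)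
    rw [Real.norm_eq_abs, abs_of_nonneg (h0 d y hd hy.1)]
    exact hM d y hd hy.1
  · have hi : IntegrableOn (fun y : ℝ => K * y ^ (-2 : ℝ)) (Set.Ioi 1) :=
      (integrableOn_Ioi_rpow_of_lt (by norm_num) one_pos).const_mul K
    refine Integrable.mono' hi (hm.mono_measure (Measure.restrict_mono
      (Set.Ioi_subset_Ioi zero_le_one) le_rfl)) ?_
    rw [ae_restrict_iff' measurableSet_Ioi]
    refine Eventually.of_forall (fun y hy => ?_)
    have hy0 : (0:ℝ) < y := lt_trans one_pos hy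
    rw [Real.norm_eq_abs, abs_of_nonneg (h0 d y hd hy0)]
    refine (hK d y hd hy0).trans (le_of_eq ?_)
    rw [Real.rpow_neg hy0.le, div_eq_mul_inv]
    norm_num

/-- upper bound -/
theorem b3_upper (hc : ∀ d, ContinuousOn (N d) (Set.Ioi 0))
    (h0 : ∀ d y, 1 ≤ d → 0 < y → 0 ≤ N d y)
    (hM : ∀ d y, 1 ≤ d → 0 < y → N d y ≤ M * d)
    (hK : ∀ d y, 1 ≤ d → 0 < y → N d y ≤ K / y ^ 2)
    (hU : ∀ d y, 1 ≤ d → 0 < y → N d y ≤ c1 / y * D) (d : ℕ) (hd : 1 ≤ d) :
    ∫ y in Set.Ioi (0:ℝ), N d y ≤ M + c1 * D * Real.log d + K := by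
  have hint := b3_integrable hc h0 hM hK d hd
  have hd0 : (0:ℝ) < d := by exact_mod_cast hd
  have hd1 : (1:ℝ) / d ≤ 1 := by
    rw [div_le_one hd0]; exact_mod_cast hd
  have hdp : (0:ℝ) < 1 / d := by positivity
  have hu1 : Set.Ioi (0:ℝ) = Set.Ioc 0 1 ∪ Set.Ioi 1 := (Set.Ioc_union_Ioi_eq_Ioi zero_le_one).symm
  have hu2 : Set.Ioc (0:ℝ) 1 = Set.Ioc 0 (1 / (d:ℝ)) ∪ Set.Ioc (1 / (d:ℝ)) 1 :=
    (Set.Ioc_union_Ioc_eq_Ioc hdp.le hd1).symm
  have hintA : IntegrableOn (N d) (Set.Ioc 0 (1 / (d:ℝ))) := hint.mono_set (fun x hx => hx.1)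
  have hintB : IntegrableOn (N d) (Set.Ioc (1 / (d:ℝ)) 1) :=
    hint.mono_set (fun x hx => lt_trans hdp hx.1)
  have hintC : IntegrableOn (N d) (Set.Ioi 1) := hint.mono_set (Set.Ioi_subset_Ioi zero_le_one)
  have hintAB : IntegrableOn (N d) (Set.Ioc 0 1) := hint.mono_set (fun x hx => hx.1)
  have e1 : ∫ y in Set.Ioi (0:ℝ), N d y
      = (∫ y in Set.Ioc (0:ℝ) 1, N d y) + ∫ y in Set.Ioi (1:ℝ), N d y := by
    conv_lhs => rw [hu1]
    exact setIntegral_union (Set.Ioc_disjoint_Ioi le_rfl) measurableSet_Ioi hintAB hintC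
  have e2 : ∫ y in Set.Ioc (0:ℝ) 1, N d y
      = (∫ y in Set.Ioc (0:ℝ) (1 / (d:ℝ)), N d y) + ∫ y in Set.Ioc (1 / (d:ℝ)) 1, N d y := by
    conv_lhs => rw [hu2]
    exact setIntegral_union (Set.Ioc_disjoint_Ioc_of_le le_rfl) measurableSet_Ioc hintA hintB
  have b1 : ∫ y in Set.Ioc (0:ℝ) (1 / (d:ℝ)), N d y ≤ M := by
    calc ∫ y in Set.Ioc (0:ℝ) (1 / (d:ℝ)), N d y
        ≤ ∫ _ in Set.Ioc (0:ℝ) (1 / (d:ℝ)), M * d := by
          refine setIntegral_mono_on hintA ?_ measurableSet_Ioc (fun y hy => hM d y hd hy.1)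
          exact integrableOn_const (by simp) (by finiteness)
      _ = M := by
          rw [← intervalIntegral.integral_of_le hdp.le, intervalIntegral.integral_const]
          simp only [sub_zero, smul_eq_mul]
          field_simp
  have b2 : ∫ y in Set.Ioc (1 / (d:ℝ)) 1, N d y ≤ c1 * D * Real.log d := by
    have hii : IntervalIntegrable (fun y : ℝ => c1 * D * y⁻¹) volume (1 / (d:ℝ)) 1 := by
      apply ContinuousOn.intervalIntegrable
      apply ContinuousOn.mul continuousOn_const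
      apply ContinuousOn.inv₀ continuousOn_id
      intro x hx
      rw [Set.uIcc_of_le hd1] at hx
      exact (lt_of_lt_of_le hdp hx.1).ne'
    calc ∫ y in Set.Ioc (1 / (d:ℝ)) 1, N d y
        ≤ ∫ y in Set.Ioc (1 / (d:ℝ)) 1, c1 * D * y⁻¹ := by
          refine setIntegral_mono_on hintB ?_ measurableSet_Ioc (fun y hy => ?_)
          · exact (intervalIntegrable_iff_integrableOn_Ioc_of_le hd1).1 hii
          · refine (hU d y hd (lt_trans hdp hy.1)).trans (le_of_eq ?_)
            rw [div_eq_mul_inv]; ring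
      _ = ∫ y in (1 / (d:ℝ))..1, c1 * D * y⁻¹ := (intervalIntegral.integral_of_le hd1).symm
      _ = c1 * D * Real.log d := by
          rw [intervalIntegral.integral_const_mul, integral_inv_of_pos hdp one_pos]
          congr 2
          field_simp
  have b3 : ∫ y in Set.Ioi (1:ℝ), N d y ≤ K := by
    calc ∫ y in Set.Ioi (1:ℝ), N d y ≤ ∫ y in Set.Ioi (1:ℝ), K * y ^ (-2 : ℝ) := by
          refine setIntegral_mono_on hintC
            ((integrableOn_Ioi_rpow_of_lt (by norm_num) one_pos).const_mul K) measurableSet_Ioi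
            (fun y hy => ?_)
          have hy0 : (0:ℝ) < y := lt_trans one_pos hy
          refine (hK d y hd hy0).trans (le_of_eq ?_)
          rw [Real.rpow_neg hy0.le, div_eq_mul_inv]
          norm_num
      _ = K := by
          rw [integral_const_mul, integral_Ioi_rpow_of_lt (by norm_num) one_pos]
          norm_num
  rw [e1, e2]
  linarith

/-- lower bound -/
theorem b3_lower (hc : ∀ d, ContinuousOn (N d) (Set.Ioi 0))
    (h0 : ∀ d y, 1 ≤ d → 0 < y → 0 ≤ N d y)
    (hM : ∀ d y, 1 ≤ d → 0 < y → N d y ≤ M * d)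
    (hK : ∀ d y, 1 ≤ d → 0 < y → N d y ≤ K / y ^ 2) {δ L a : ℝ} (hδ : 0 < δ) (hL : 0 < L)
    (hlow : ∀ (d : ℕ) (y : ℝ), 1 ≤ d → 0 < y → y ≤ δ → L ≤ y * d → a ≤ y * N d y) (d : ℕ) (hd : 1 ≤ d)
    (hdL : L ≤ δ * d) :
    a * (Real.log d + (Real.log δ - Real.log L)) ≤ ∫ y in Set.Ioi (0:ℝ), N d y := by
  have hint := b3_integrable hc h0 hM hK d hd
  have hd0 : (0:ℝ) < d := by exact_mod_cast hd
  have hp : 0 < L / d := by positivity
  have hle : L / d ≤ δ := by
    rw [div_le_iff₀ hd0]; exact hdL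
  have hsub : Set.Ioc (L / (d:ℝ)) δ ⊆ Set.Ioi 0 := fun x hx => lt_trans hp hx.1
  have hii : IntervalIntegrable (fun y : ℝ => a * y⁻¹) volume (L / (d:ℝ)) δ := by
    apply ContinuousOn.intervalIntegrable
    apply ContinuousOn.mul continuousOn_const
    apply ContinuousOn.inv₀ continuousOn_id
    intro x hx
    rw [Set.uIcc_of_le hle] at hx
    exact (lt_of_lt_of_le hp hx.1).ne'
  calc a * (Real.log d + (Real.log δ - Real.log L))
      = ∫ y in (L / (d:ℝ))..δ, a * y⁻¹ := by
        rw [intervalIntegral.integral_const_mul, integral_inv_of_pos hp hδ]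
        congr 1
        rw [Real.log_div hδ.ne' hp.ne', Real.log_div hL.ne' hd0.ne']
        ring
    _ = ∫ y in Set.Ioc (L / (d:ℝ)) δ, a * y⁻¹ := intervalIntegral.integral_of_le hle
    _ ≤ ∫ y in Set.Ioc (L / (d:ℝ)) δ, N d y := by
        refine setIntegral_mono_on ?_ (hint.mono_set hsub) measurableSet_Ioc (fun y hy => ?_)
        · exact (intervalIntegrable_iff_integrableOn_Ioc_of_le hle).1 hii
        · have hy0 : 0 < y := lt_trans hp hy.1
          have h1 : L ≤ y * d := by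
            have := hy.1.le
            rwa [div_le_iff₀ hd0] at this
          have h2 := hlow d y hd hy0 hy.2 h1
          rw [← div_eq_mul_inv, div_le_iff₀ hy0]
          linarith
    _ ≤ ∫ y in Set.Ioi (0:ℝ), N d y := by
        refine setIntegral_mono_set hint ?_ (Filter.Eventually.of_forall hsub)
        rw [Filter.EventuallyLE, ae_restrict_iff' measurableSet_Ioi]
        exact Eventually.of_forall (fun y hy => h0 d y hd hy)

/-- the limit -/
theorem b3_tendsto (hc1 : 0 < c1) (I : ℕ → ℝ) (C : ℝ)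
    (hup : ∀ d : ℕ, 1 ≤ d → I d ≤ C + c1 * D * Real.log d)
    (hlow : ∀ ε > 0, ∃ C' : ℝ, ∀ᶠ d : ℕ in atTop, (c1 * D - ε) * (Real.log d + C') ≤ I d) :
    Tendsto (fun d : ℕ => I d / (c1 * Real.log d)) atTop (𝓝 D) := by
  have hlog : Tendsto (fun d : ℕ => Real.log d) atTop atTop :=
    Real.tendsto_log_atTop.comp tendsto_natCast_atTop_atTop
  have hpos : ∀ᶠ d : ℕ in atTop, 0 < Real.log d := hlog.eventually_gt_atTop 0
  have hinv : ∀ c : ℝ, Tendsto (fun d : ℕ => c / Real.log d) atTop (𝓝 0) :=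
    fun c => hlog.const_div_atTop c
  refine tendsto_order.2 ⟨fun a ha => ?_, fun b hb => ?_⟩
  · obtain ⟨C', hC'⟩ := hlow (c1 * ((D - a) / 2)) (by nlinarith)
    have ht : Tendsto (fun d : ℕ => ((D + a) / 2) * (1 + C' / Real.log d)) atTop
        (𝓝 (((D + a) / 2) * (1 + 0))) := ((hinv C').const_add 1).const_mul _
    have hlt : a < ((D + a) / 2) * (1 + 0) := by linarith
    filter_upwards [hC', hpos, ht.eventually_const_lt hlt, eventually_ge_atTop 1] with d h1 h2 h3 h4
    have h5 : ((D + a) / 2) * (1 + C' / Real.log d) ≤ I d / (c1 * Real.log d) := by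
      rw [le_div_iff₀ (by positivity)]
      have : (D + a) / 2 * (1 + C' / Real.log d) * (c1 * Real.log d)
          = (c1 * D - c1 * ((D - a) / 2)) * (Real.log d + C') := by
        field_simp
        ring
      rw [this]; exact h1
    linarith
  · have ht : Tendsto (fun d : ℕ => D + (C / c1) / Real.log d) atTop (𝓝 (D + 0)) :=
      (hinv (C / c1)).const_add D
    have hlt : D + 0 < b := by linarith
    filter_upwards [hpos, ht.eventually_lt_const hlt, eventually_ge_atTop 1] with d h2 h3 h4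
    have h5 : I d / (c1 * Real.log d) ≤ D + (C / c1) / Real.log d := by
      rw [div_le_iff₀ (by positivity)]
      have : (D + C / c1 / Real.log d) * (c1 * Real.log d) = C + c1 * D * Real.log d := by
        field_simp
        ring
      rw [this]; exact hup d h4
    linarith

end real

/-- MODULE B3 (file Limit.lean). -/
theorem analysis_limit (w : ι → Matrix m m ℂ) (N : ℕ → ℝ → ℝ)
    (hN : ∀ d y, 1 ≤ d → 0 < y → ∃ A B, Solves w y d A B ∧ N d y = ((Hof w A * B).trace).re)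
    (hc : ∀ d, ContinuousOn (N d) (Set.Ioi 0)) :
    Tendsto (fun d => (2 / Real.pi * ∫ y in Set.Ioi (0 : ℝ), N d y) / (cst * Real.log d)) atTop
      (𝓝 (dualNorm w)) := by
  have hC0 : 0 < C0 := C0_pos
  set c1 : ℝ := C0 ^ (3 / 2 : ℝ) with hc1
  have hc1p : 0 < c1 := Real.rpow_pos_of_pos hC0 _
  obtain ⟨K, hK0, hK⟩ := solves_tail w
  have h0 : ∀ d y, 1 ≤ d → 0 < y → 0 ≤ N d y := by
    intro d y hd hy
    obtain ⟨A, B, hS, hE⟩ := hN d y hd hy
    rw [hE]; exact b3_nonneg hS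
  have hM : ∀ d y, 1 ≤ d → 0 < y → N d y ≤ (Fintype.card m : ℝ) * d := by
    intro d y hd hy
    obtain ⟨A, B, hS, hE⟩ := hN d y hd hy
    rw [hE]; exact solves_card hy hS
  have hKK : ∀ d y, 1 ≤ d → 0 < y → N d y ≤ K / y ^ 2 := by
    intro d y hd hy
    obtain ⟨A, B, hS, hE⟩ := hN d y hd hy
    rw [hE]; exact hK y hy d A B hS
  have hU : ∀ d y, 1 ≤ d → 0 < y → N d y ≤ c1 / y * dualNorm w := by
    intro d y hd hy
    obtain ⟨A, B, hS, hE⟩ := hN d y hd hy
    rw [hE]; exact solves_upper hy hS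
  have key := b3_tendsto (D := dualNorm w) hc1p (fun d => ∫ y in Set.Ioi (0:ℝ), N d y)
    (Fintype.card m + K)
    (fun d hd => by
      have := b3_upper hc h0 hM hKK hU d hd
      linarith)
    (fun ε hε => by
      obtain ⟨δ, hδ, L, hL⟩ := solves_lower w ε hε
      refine ⟨Real.log δ - Real.log (max L 1), ?_⟩
      have hL1 : (0:ℝ) < max L 1 := lt_of_lt_of_le one_pos (le_max_right _ _)
      have hev : ∀ᶠ d : ℕ in atTop, max L 1 ≤ δ * d := by
        have : Tendsto (fun d : ℕ => δ * (d:ℝ)) atTop atTop :=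
          tendsto_natCast_atTop_atTop.const_mul_atTop hδ
        exact this.eventually_ge_atTop _
      filter_upwards [hev, eventually_ge_atTop 1] with d h1 h2
      refine b3_lower hc h0 hM hKK hδ hL1 (fun (d : ℕ) (y : ℝ) hd hy hyδ hyL => ?_) d h2 h1
      obtain ⟨A, B, hS, hE⟩ := hN d y hd hy
      rw [hE]
      exact hL y d A B hy hyδ ((le_max_left _ _).trans hyL) hS)
  refine key.congr (fun d => ?_)
  have hpi : (2 / Real.pi : ℝ) ≠ 0 := by positivity
  rw [cst, ← hc1, mul_assoc, mul_div_mul_left _ _ hpi]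

end OH246
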