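import Pool.Agent.OH246.Dyson

/-! Module F: the Dyson system for the weighted model. -/

open scoped BigOperators ComplexOrder Matrix InnerProductSpace Topology ENNReal
open Filter MeasureTheory

noncomputable section

namespace OH246

section F

variable {m n d : ℕ}

private lemma sum_sof {M : Type*} [AddCommMonoid M] (F : ℕ × ℕ × ℕ → M) :
    ∑ b ∈ sof n d, F b =
      ∑ p : Fin n, ∑ a : Fin d, ∑ b : Fin d, F ((p : ℕ), (a : ℕ), (b : ℕ)) := by
  rw [sof, Finset.sum_product, Finset.sum_range]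
  refine Finset.sum_congr rfl fun p _ => ?_
  rw [Finset.sum_product, Finset.sum_range]
  refine Finset.sum_congr rfl fun a _ => ?_
  rw [Finset.sum_range]

private lemma Vof_apply (w : Fin n → Matrix (Fin m) (Fin m) ℂ) (p : Fin n) (a b : Fin d)
    (x z : Fin m × Fin d) :
    Vof w d ((p : ℕ), (a : ℕ), (b : ℕ)) x z =
      if x.2 = a ∧ z.2 = b then ((Dw a * Dw b : ℝ) : ℂ) * w p x.1 z.1 else 0 := by
  simp only [Vof, Matrix.of_apply, p.isLt, dif_pos, Fin.val_inj]

/-- MODULE F: entries of `X = ∑ w_p ⊗ (D_a D_b c_{pab})`. -/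
theorem Xop_Vof {m n : ℕ} (w : Fin n → Matrix (Fin m) (Fin m) ℂ) (d : ℕ)
    (x z : Fin m × Fin d) :
    Xop (sof n d) (Vof w d) x z =
      ∑ p : Fin n, w p x.1 z.1 • (((Dw x.2 * Dw z.2 : ℝ) : ℂ) •
        circ (β := ℕ × ℕ × ℕ) ((p : ℕ), (x.2 : ℕ), (z.2 : ℕ))) := by
  simp only [Xop, Matrix.of_apply, sum_sof, Vof_apply]
  refine Finset.sum_congr rfl fun p _ => ?_
  rw [Finset.sum_eq_single x.2, Finset.sum_eq_single z.2]
  · simp only [and_self, if_true, smul_smul]
    rw [mul_comm]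
  · intro b _ hb
    rw [if_neg (by tauto), zero_smul]
  · intro h; exact absurd (Finset.mem_univ _) h
  · intro a _ ha
    refine Finset.sum_eq_zero fun b _ => ?_
    rw [if_neg (by tauto), zero_smul]
  · intro h; exact absurd (Finset.mem_univ _) h

/-- diagonal block -/
private def blk (g : Matrix (Fin m × Fin d) (Fin m × Fin d) ℂ) (a : Fin d) :
    Matrix (Fin m) (Fin m) ℂ := g.submatrix (fun i => (i, a)) (fun i => (i, a))

private lemma V_mul (w : Fin n → Matrix (Fin m) (Fin m) ℂ)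
    (g : Matrix (Fin m × Fin d) (Fin m × Fin d) ℂ) (p : Fin n) (a b : Fin d)
    (x v : Fin m × Fin d) :
    (Vof w d ((p : ℕ), (a : ℕ), (b : ℕ)) * g) x v =
      if x.2 = a then ((Dw a * Dw b : ℝ) : ℂ) * ∑ i, w p x.1 i * g (i, b) v else 0 := by
  simp only [Matrix.mul_apply, Vof_apply, Fintype.sum_prod_type]
  by_cases hx : x.2 = a
  · simp only [hx, true_and, if_true, Finset.mul_sum]
    refine Finset.sum_congr rfl fun i _ => ?_
    rw [Finset.sum_eq_single b]
    · simp only [if_true]; ring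
    · intro c _ hc; rw [if_neg hc, zero_mul]
    · intro h; exact absurd (Finset.mem_univ _) h
  · simp only [hx, false_and, if_false, zero_mul, Finset.sum_const_zero]

private lemma VH_mul (w : Fin n → Matrix (Fin m) (Fin m) ℂ)
    (g : Matrix (Fin m × Fin d) (Fin m × Fin d) ℂ) (p : Fin n) (a b : Fin d)
    (x v : Fin m × Fin d) :
    ((Vof w d ((p : ℕ), (a : ℕ), (b : ℕ)))ᴴ * g) x v =
      if x.2 = b then ((Dw a * Dw b : ℝ) : ℂ) * ∑ i, (w p)ᴴ x.1 i * g (i, a) v else 0 := by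
  simp only [Matrix.mul_apply, Matrix.conjTranspose_apply, Vof_apply, Fintype.sum_prod_type]
  by_cases hx : x.2 = b
  · simp only [hx, and_true, if_true, Finset.mul_sum]
    refine Finset.sum_congr rfl fun i _ => ?_
    rw [Finset.sum_eq_single a]
    · simp only [if_true, star_mul', Complex.star_def, Complex.conj_ofReal]; ring
    · intro c _ hc; rw [if_neg hc, star_zero, zero_mul]
    · intro h; exact absurd (Finset.mem_univ _) h
  · simp only [hx, and_false, if_false, star_zero, zero_mul, Finset.sum_const_zero]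

private lemma mul_VH (w : Fin n → Matrix (Fin m) (Fin m) ℂ)
    (g : Matrix (Fin m × Fin d) (Fin m × Fin d) ℂ) (p : Fin n) (a b : Fin d)
    (x v : Fin m × Fin d) :
    (g * (Vof w d ((p : ℕ), (a : ℕ), (b : ℕ)))ᴴ) v x =
      if x.2 = a then ((Dw a * Dw b : ℝ) : ℂ) * ∑ i, g v (i, b) * (w p)ᴴ i x.1 else 0 := by
  simp only [Matrix.mul_apply, Matrix.conjTranspose_apply, Vof_apply, Fintype.sum_prod_type]
  by_cases hx : x.2 = a
  · simp only [hx, true_and, if_true, Finset.mul_sum]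
    refine Finset.sum_congr rfl fun i _ => ?_
    rw [Finset.sum_eq_single b]
    · simp only [if_true, star_mul', Complex.star_def, Complex.conj_ofReal]; ring
    · intro c _ hc; rw [if_neg hc, star_zero, mul_zero]
    · intro h; exact absurd (Finset.mem_univ _) h
  · simp only [hx, false_and, if_false, star_zero, mul_zero, Finset.sum_const_zero]

private lemma mul_V (w : Fin n → Matrix (Fin m) (Fin m) ℂ)
    (g : Matrix (Fin m × Fin d) (Fin m × Fin d) ℂ) (p : Fin n) (a b : Fin d)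
    (x v : Fin m × Fin d) :
    (g * (Vof w d ((p : ℕ), (a : ℕ), (b : ℕ)))) v x =
      if x.2 = b then ((Dw a * Dw b : ℝ) : ℂ) * ∑ i, g v (i, a) * w p i x.1 else 0 := by
  simp only [Matrix.mul_apply, Vof_apply, Fintype.sum_prod_type]
  by_cases hx : x.2 = b
  · simp only [hx, and_true, if_true, Finset.mul_sum]
    refine Finset.sum_congr rfl fun i _ => ?_
    rw [Finset.sum_eq_single a]
    · simp only [if_true]; ring
    · intro c _ hc; rw [if_neg hc, mul_zero]
    · intro h; exact absurd (Finset.mem_univ _) h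
  · simp only [hx, and_false, if_false, mul_zero, Finset.sum_const_zero]

private lemma VgV (w : Fin n → Matrix (Fin m) (Fin m) ℂ)
    (g : Matrix (Fin m × Fin d) (Fin m × Fin d) ℂ) (p : Fin n) (a b : Fin d)
    (x z : Fin m × Fin d) :
    (Vof w d ((p : ℕ), (a : ℕ), (b : ℕ)) * g * (Vof w d ((p : ℕ), (a : ℕ), (b : ℕ)))ᴴ) x z =
      if x.2 = a ∧ z.2 = a then
        (((Dw a) ^ 2 * (Dw b) ^ 2 : ℝ) : ℂ) * (w p * blk g b * (w p)ᴴ) x.1 z.1 else 0 := by
  rw [mul_VH]
  by_cases hz : z.2 = a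
  · simp only [hz, if_true, V_mul, and_true]
    by_cases hx : x.2 = a
    · simp only [hx, if_true, Matrix.mul_apply, blk, Matrix.submatrix_apply, Finset.mul_sum,
        Finset.sum_mul]
      refine Finset.sum_congr rfl fun i _ => ?_
      refine Finset.sum_congr rfl fun j _ => ?_
      push_cast
      ring
    · simp only [hx, if_false, zero_mul, Finset.sum_const_zero, mul_zero]
  · simp only [hz, if_false, and_false]

private lemma VgV' (w : Fin n → Matrix (Fin m) (Fin m) ℂ)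
    (g : Matrix (Fin m × Fin d) (Fin m × Fin d) ℂ) (p : Fin n) (a b : Fin d)
    (x z : Fin m × Fin d) :
    ((Vof w d ((p : ℕ), (a : ℕ), (b : ℕ)))ᴴ * g * (Vof w d ((p : ℕ), (a : ℕ), (b : ℕ)))) x z =
      if x.2 = b ∧ z.2 = b then
        (((Dw a) ^ 2 * (Dw b) ^ 2 : ℝ) : ℂ) * ((w p)ᴴ * blk g a * (w p)) x.1 z.1 else 0 := by
  rw [mul_V]
  by_cases hz : z.2 = b
  · simp only [hz, if_true, VH_mul, and_true]
    by_cases hx : x.2 = b
    · simp only [hx, if_true, Matrix.mul_apply, blk, Matrix.submatrix_apply, Finset.mul_sum,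
        Finset.sum_mul]
      refine Finset.sum_congr rfl fun i _ => ?_
      refine Finset.sum_congr rfl fun j _ => ?_
      push_cast
      ring
    · simp only [hx, if_false, zero_mul, Finset.sum_const_zero, mul_zero]
  · simp only [hz, if_false, and_false]

/-- weighted sum of the diagonal blocks -/
private def wsum (g : Matrix (Fin m × Fin d) (Fin m × Fin d) ℂ) : Matrix (Fin m) (Fin m) ℂ :=
  ∑ b : Fin d, ((Dw b ^ 2 : ℝ) : ℂ) • blk g b

private lemma sum_VgV (w : Fin n → Matrix (Fin m) (Fin m) ℂ)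
    (g : Matrix (Fin m × Fin d) (Fin m × Fin d) ℂ) (x z : Fin m × Fin d) :
    (∑ b ∈ sof n d, Vof w d b * g * (Vof w d b)ᴴ) x z =
      if x.2 = z.2 then ((Dw x.2 ^ 2 : ℝ) : ℂ) * (Hof w (wsum g)) x.1 z.1 else 0 := by
  rw [sum_sof]
  simp only [Matrix.sum_apply, VgV]
  by_cases h : x.2 = z.2
  · simp only [h, and_self, if_true]
    rw [Hof, Matrix.sum_apply, Finset.mul_sum]
    refine Finset.sum_congr rfl fun p _ => ?_
    rw [Finset.sum_eq_single z.2]
    · simp only [if_true, wsum, Matrix.sum_mul, Matrix.sum_apply, Finset.mul_sum,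
        Matrix.mul_smul, Matrix.smul_mul, Matrix.smul_apply, smul_eq_mul]
      refine Finset.sum_congr rfl fun b _ => ?_
      push_cast
      ring
    · intro a _ ha
      refine Finset.sum_eq_zero fun b _ => ?_
      rw [if_neg (fun h' => ha h'.symm)]
    · intro h'; exact absurd (Finset.mem_univ _) h'
  · rw [if_neg h]
    refine Finset.sum_eq_zero fun p _ => Finset.sum_eq_zero fun a _ =>
      Finset.sum_eq_zero fun b _ => ?_
    rw [if_neg (fun h' => h (h'.1.trans h'.2.symm))]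

private lemma sum_VgV' (w : Fin n → Matrix (Fin m) (Fin m) ℂ)
    (g : Matrix (Fin m × Fin d) (Fin m × Fin d) ℂ) (x z : Fin m × Fin d) :
    (∑ b ∈ sof n d, (Vof w d b)ᴴ * g * (Vof w d b)) x z =
      if x.2 = z.2 then ((Dw x.2 ^ 2 : ℝ) : ℂ) * (Hof' w (wsum g)) x.1 z.1 else 0 := by
  rw [sum_sof]
  simp only [Matrix.sum_apply, VgV']
  by_cases h : x.2 = z.2
  · simp only [h, and_self, if_true]
    rw [Hof', Matrix.sum_apply, Finset.mul_sum]
    refine Finset.sum_congr rfl fun p _ => ?_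
    rw [Finset.sum_comm, Finset.sum_eq_single z.2]
    · simp only [if_true, wsum, Matrix.sum_mul, Matrix.sum_apply, Finset.mul_sum,
        Matrix.mul_smul, Matrix.smul_mul, Matrix.smul_apply, smul_eq_mul]
      refine Finset.sum_congr rfl fun b _ => ?_
      push_cast
      ring
    · intro a _ ha
      refine Finset.sum_eq_zero fun b _ => ?_
      rw [if_neg (fun h' => ha h'.symm)]
    · intro h'; exact absurd (Finset.mem_univ _) h'
  · rw [if_neg h]
    refine Finset.sum_eq_zero fun p _ => Finset.sum_eq_zero fun a _ =>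
      Finset.sum_eq_zero fun b _ => ?_
    rw [if_neg (fun h' => h (h'.1.trans h'.2.symm))]

private lemma Dw_pos (a : ℕ) : 0 < Dw a := by
  rw [Dw]; positivity

private lemma Dw_sq (a : ℕ) : Dw a ^ 2 * ((a : ℝ) + 1) ^ (3 / 2 : ℝ) = 1 := by
  have h : (0 : ℝ) < (a : ℝ) + 1 := by positivity
  rw [Dw, ← Real.rpow_natCast, ← Real.rpow_mul h.le, ← Real.rpow_add h]
  norm_num

/-- block structure of the solution -/
private lemma blk_eq {y : ℝ} {g S : Matrix (Fin m × Fin d) (Fin m × Fin d) ℂ}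
    {H : Matrix (Fin m) (Fin m) ℂ}
    (hS : ∀ x z, S x z = if x.2 = z.2 then ((Dw x.2 ^ 2 : ℝ) : ℂ) * H x.1 z.1 else 0)
    (h : ((y : ℂ) • (1 : Matrix (Fin m × Fin d) (Fin m × Fin d) ℂ) + S) * g = 1) (a : Fin d) :
    ((y : ℂ) • (1 : Matrix (Fin m) (Fin m) ℂ) + ((Dw a ^ 2 : ℝ) : ℂ) • H) * blk g a = 1 := by
  ext i j
  have h1 := congrFun (congrFun h (i, a)) (j, a)
  rw [Matrix.one_apply] at h1
  simp only [Prod.mk.injEq, and_true] at h1
  rw [Matrix.one_apply, ← h1, Matrix.mul_apply, Matrix.mul_apply, Fintype.sum_prod_type]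
  refine Finset.sum_congr rfl fun u _ => ?_
  rw [Finset.sum_eq_single a]
  · simp only [blk, Matrix.submatrix_apply, Matrix.add_apply, Matrix.smul_apply, smul_eq_mul, hS,
      if_true, Matrix.one_apply, Prod.mk.injEq, and_true]
  · intro b _ hb
    simp only [Matrix.add_apply, Matrix.smul_apply, smul_eq_mul, hS, Matrix.one_apply,
      Prod.mk.injEq, hb.symm, and_false, if_false, mul_zero, add_zero, zero_mul]
  · intro h'; exact absurd (Finset.mem_univ _) h'

private lemma blk_inv {y : ℝ} {g S : Matrix (Fin m × Fin d) (Fin m × Fin d) ℂ}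
    {H : Matrix (Fin m) (Fin m) ℂ}
    (hS : ∀ x z, S x z = if x.2 = z.2 then ((Dw x.2 ^ 2 : ℝ) : ℂ) * H x.1 z.1 else 0)
    (h : ((y : ℂ) • (1 : Matrix (Fin m × Fin d) (Fin m × Fin d) ℂ) + S) * g = 1) (a : Fin d) :
    (((y * (((a : ℕ) : ℝ) + 1) ^ (3 / 2 : ℝ) : ℝ) : ℂ) • (1 : Matrix (Fin m) (Fin m) ℂ) + H)⁻¹ =
      ((Dw a ^ 2 : ℝ) : ℂ) • blk g a := by
  apply Matrix.inv_eq_right_inv
  refine Eq.trans ?_ (blk_eq hS h a)
  rw [Matrix.mul_smul, ← Matrix.smul_mul]
  congr 1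
  rw [smul_add, smul_smul]
  congr 2
  rw [← Complex.ofReal_mul]
  congr 1
  rw [mul_left_comm, Dw_sq, mul_one]

private lemma Fmat_eq {y : ℝ} {g S : Matrix (Fin m × Fin d) (Fin m × Fin d) ℂ}
    {H : Matrix (Fin m) (Fin m) ℂ}
    (hS : ∀ x z, S x z = if x.2 = z.2 then ((Dw x.2 ^ 2 : ℝ) : ℂ) * H x.1 z.1 else 0)
    (h : ((y : ℂ) • (1 : Matrix (Fin m × Fin d) (Fin m × Fin d) ℂ) + S) * g = 1) :
    wsum g = Fmat y d H := by
  rw [Fmat, Finset.sum_range, wsum]
  exact Finset.sum_congr rfl fun a _ => (blk_inv hS h a).symm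

private lemma wsum_posDef {g M : Matrix (Fin m × Fin d) (Fin m × Fin d) ℂ} (hd : 1 ≤ d)
    (hg : g.PosSemidef) (h : M * g = 1) : (wsum g).PosDef := by
  have hg' : g.PosDef := (hg.posDef_iff_isUnit).2 (IsUnit.of_mul_eq_one_right M h)
  have : Nonempty (Fin d) := ⟨⟨0, hd⟩⟩
  refine Matrix.posDef_sum Finset.univ_nonempty fun a _ => ?_
  have h1 : (blk g a).PosDef := hg'.submatrix (fun i j hij => congrArg Prod.fst hij)
  have h2 : (0 : ℂ) < ((Dw a ^ 2 : ℝ) : ℂ) := by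
    exact_mod_cast pow_pos (Dw_pos a) 2
  exact h1.smul h2

private lemma trace_eq {y : ℝ} {g S : Matrix (Fin m × Fin d) (Fin m × Fin d) ℂ}
    {H : Matrix (Fin m) (Fin m) ℂ}
    (hS : ∀ x z, S x z = if x.2 = z.2 then ((Dw x.2 ^ 2 : ℝ) : ℂ) * H x.1 z.1 else 0)
    (h : ((y : ℂ) • (1 : Matrix (Fin m × Fin d) (Fin m × Fin d) ℂ) + S) * g = 1) :
    ∑ j, (1 - (y : ℂ) * g j j) = (H * wsum g).trace := by
  have h1 : ∀ a : Fin d, ∑ i : Fin m, (1 - (y : ℂ) * g (i, a) (i, a)) =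
      (H * (((Dw a ^ 2 : ℝ) : ℂ) • blk g a)).trace := by
    intro a
    rw [Matrix.trace]
    refine Finset.sum_congr rfl fun i _ => ?_
    have h2 := congrFun (congrFun (blk_eq hS h a) i) i
    rw [Matrix.one_apply_eq, Matrix.add_mul, Matrix.add_apply, Matrix.smul_mul, Matrix.one_mul,
      Matrix.smul_apply, smul_eq_mul, Matrix.smul_mul] at h2
    rw [Matrix.diag_apply, Matrix.mul_smul, ← h2]
    simp only [blk, Matrix.submatrix_apply]
    ring
  rw [Fintype.sum_prod_type_right, wsum, Matrix.mul_sum, Matrix.trace_sum]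
  exact Finset.sum_congr rfl fun a _ => h1 a

/-- MODULE F. -/
theorem solves_of_resolvent {m n : ℕ} (w : Fin n → Matrix (Fin m) (Fin m) ℂ) {d : ℕ} (hd : 1 ≤ d)
    {y : ℝ} (hy : 0 < y)
    {R₁ R₂ : Matrix (Fin m × Fin d) (Fin m × Fin d) (Fock (ℕ × ℕ × ℕ) →L[ℂ] Fock (ℕ × ℕ × ℕ))}
    (h1 : (((y : ℂ) ^ 2) • 1 + Xop (sof n d) (Vof w d) * (Xop (sof n d) (Vof w d))ᴴ) * R₁ = 1)
    (h1' : R₁ * (((y : ℂ) ^ 2) • 1 + Xop (sof n d) (Vof w d) * (Xop (sof n d) (Vof w d))ᴴ) = 1)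
    (h2 : (((y : ℂ) ^ 2) • 1 + (Xop (sof n d) (Vof w d))ᴴ * Xop (sof n d) (Vof w d)) * R₂ = 1)
    (h2' : R₂ * (((y : ℂ) ^ 2) • 1 + (Xop (sof n d) (Vof w d))ᴴ * Xop (sof n d) (Vof w d)) = 1) :
    ∃ A B, Solves w y d A B ∧
      ∑ j, (1 - (y : ℂ) ^ 2 * ⟪Om (ℕ × ℕ × ℕ), R₁ j j (Om (ℕ × ℕ × ℕ))⟫_ℂ) =
        (Hof w A * B).trace := by
  obtain ⟨e1, e2, p1, p2⟩ := dyson (sof n d) (Vof w d) hy h1 h1' h2 h2'
  refine ⟨wsum (gof y R₂), wsum (gof y R₁), ⟨wsum_posDef hd p2 e2, wsum_posDef hd p1 e1,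
    Fmat_eq (sum_VgV w _) e1, Fmat_eq (sum_VgV' w _) e2⟩, ?_⟩
  rw [← trace_eq (sum_VgV w _) e1]
  refine Finset.sum_congr rfl fun j _ => ?_
  rw [gof, Matrix.of_apply]
  ring

end F

end OH246
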