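import Pool.Agent.OH246.CStarTrace
import Pool.Agent.OH246.Limit
import Pool.Agent.OH246.Solves

open scoped BigOperators ComplexOrder Matrix InnerProductSpace Topology ENNReal
open Filter MeasureTheory

noncomputable section

namespace OH246

/-! ### flat to nested matrices -/

section nest
variable {𝒜 : Type*} {m d : ℕ}

/-- regroup a matrix over `Fin m × Fin d`. -/
def nest (Q : Matrix (Fin m × Fin d) (Fin m × Fin d) 𝒜) :
    Matrix (Fin m) (Fin m) (CStarMatrix (Fin d) (Fin d) 𝒜) :=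
  Matrix.of fun i j => CStarMatrix.ofMatrix (Matrix.of fun a b => Q (i, a) (j, b))

theorem nest_apply (Q : Matrix (Fin m × Fin d) (Fin m × Fin d) 𝒜) (i j : Fin m) (a b : Fin d) :
    nest Q i j a b = Q (i, a) (j, b) := rfl

variable [CStarAlgebra 𝒜]

theorem nest_mul (Q P : Matrix (Fin m × Fin d) (Fin m × Fin d) 𝒜) :
    nest (Q * P) = nest Q * nest P := by
  ext i j a b
  rw [nest_apply, Matrix.mul_apply, Matrix.mul_apply, Fintype.sum_prod_type]
  have : ∀ (f : Fin m → CStarMatrix (Fin d) (Fin d) 𝒜) (s : Finset (Fin m)),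
      (∑ x ∈ s, f x) a b = ∑ x ∈ s, f x a b := by
    intro f s
    classical
    induction s using Finset.induction_on with
    | empty => simp
    | insert x s hx ih => rw [Finset.sum_insert hx, Finset.sum_insert hx, ← ih]; rfl
  rw [this]
  refine Finset.sum_congr rfl fun x _ => ?_
  rw [CStarMatrix.mul_apply]
  rfl

theorem nest_conjTranspose (Q : Matrix (Fin m × Fin d) (Fin m × Fin d) 𝒜) :
    nest Qᴴ = (nest Q)ᴴ := by
  ext i j a b
  rw [nest_apply, Matrix.conjTranspose_apply, Matrix.conjTranspose_apply,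
    CStarMatrix.star_apply, nest_apply]

theorem nest_add (Q P : Matrix (Fin m × Fin d) (Fin m × Fin d) 𝒜) :
    nest (Q + P) = nest Q + nest P := rfl

theorem nest_one : nest (1 : Matrix (Fin m × Fin d) (Fin m × Fin d) 𝒜) = 1 := by
  ext i j a b
  rw [nest_apply, Matrix.one_apply, Matrix.one_apply]
  by_cases h : i = j
  · subst h
    by_cases h' : a = b
    · subst h'; simp
    · simp [h']
  · simp [h]

end nest

section model
variable {𝒜 : Type*} [CStarAlgebra 𝒜]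

/-- the flat trace `∑_j τ(x_jj)` -/
def flatTr {J : Type*} [Fintype J] (τ : 𝒜 →ₗ[ℂ] ℂ) : CStarMatrix J J 𝒜 →ₗ[ℂ] ℂ where
  toFun x := ∑ j, τ (x j j)
  map_add' x y := by
    rw [← Finset.sum_add_distrib]
    exact Finset.sum_congr rfl fun j _ => by rw [← map_add]; rfl
  map_smul' c x := by
    rw [RingHom.id_apply, smul_eq_mul, Finset.mul_sum]
    exact Finset.sum_congr rfl fun j _ => by rw [← smul_eq_mul, ← map_smul]; rfl

theorem flatTr_apply {J : Type*} [Fintype J] (τ : 𝒜 →ₗ[ℂ] ℂ) (x : CStarMatrix J J 𝒜) :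
    flatTr τ x = ∑ j, τ (x j j) := rfl

theorem flatTr_star_mul {J : Type*} [Fintype J] [DecidableEq J] (τ : 𝒜 →ₗ[ℂ] ℂ)
    (x : CStarMatrix J J 𝒜) : flatTr τ (star x * x) = ∑ j, ∑ i, τ (star (x i j) * x i j) := by
  rw [flatTr_apply]
  refine Finset.sum_congr rfl fun j _ => ?_
  rw [CStarMatrix.mul_apply, map_sum]
  rfl

theorem flatTr_pos {J : Type*} [Fintype J] [DecidableEq J] (τ : 𝒜 →ₗ[ℂ] ℂ)
    (hpos : ∀ x, 0 ≤ τ (star x * x)) (x : CStarMatrix J J 𝒜) : 0 ≤ flatTr τ (star x * x) := by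
  rw [flatTr_star_mul]
  exact Finset.sum_nonneg fun j _ => Finset.sum_nonneg fun i _ => hpos _

theorem flatTr_comm {J : Type*} [Fintype J] [DecidableEq J] (τ : 𝒜 →ₗ[ℂ] ℂ)
    (htr : ∀ x y, τ (x * y) = τ (y * x)) (x y : CStarMatrix J J 𝒜) :
    flatTr τ (x * y) = flatTr τ (y * x) := by
  rw [flatTr_apply, flatTr_apply]
  simp_rw [CStarMatrix.mul_apply, map_sum]
  rw [Finset.sum_comm]
  exact Finset.sum_congr rfl fun j _ => Finset.sum_congr rfl fun i _ => htr _ _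

/-- the matrix `X = ∑ w_p ⊗ (D_a D_b c_{pab})` over an algebra with elements `c`. -/
def XX (c : ℕ × ℕ × ℕ → 𝒜) {n m : ℕ} (w : Fin n → Matrix (Fin m) (Fin m) ℂ) (d : ℕ) :
    Matrix (Fin m × Fin d) (Fin m × Fin d) 𝒜 :=
  Matrix.of fun x z => ∑ p : Fin n, w p x.1 z.1 •
    (((Dw x.2 * Dw z.2 : ℝ) : ℂ) • c ((p : ℕ), (x.2 : ℕ), (z.2 : ℕ)))

/-- what is needed from the free probability side. -/
def ResHyp (τ : 𝒜 →ₗ[ℂ] ℂ) (c : ℕ × ℕ × ℕ → 𝒜) : Prop :=
  ∀ (n m : ℕ) (w : Fin n → Matrix (Fin m) (Fin m) ℂ) (d : ℕ), 1 ≤ d → ∀ y : ℝ, 0 < y →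
    ∀ R₁ R₂ : Matrix (Fin m × Fin d) (Fin m × Fin d) 𝒜,
    (((y : ℂ) ^ 2) • (1 : Matrix (Fin m × Fin d) (Fin m × Fin d) 𝒜) +
      XX c w d * (XX c w d)ᴴ) * R₁ = 1 →
    R₁ * (((y : ℂ) ^ 2) • (1 : Matrix (Fin m × Fin d) (Fin m × Fin d) 𝒜) +
      XX c w d * (XX c w d)ᴴ) = 1 →
    (((y : ℂ) ^ 2) • (1 : Matrix (Fin m × Fin d) (Fin m × Fin d) 𝒜) +
      (XX c w d)ᴴ * XX c w d) * R₂ = 1 →
    R₂ * (((y : ℂ) ^ 2) • (1 : Matrix (Fin m × Fin d) (Fin m × Fin d) 𝒜) +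
      (XX c w d)ᴴ * XX c w d) = 1 →
    ∃ A B, Solves w y d A B ∧
      ∑ j, (τ (1 - ((y : ℂ) ^ 2) • R₁ j j)) = (Hof w A * B).trace

end model

section build
variable {𝒜 : Type} [CStarAlgebra 𝒜] [PartialOrder 𝒜] [StarOrderedRing 𝒜]

theorem flat_data (τ : 𝒜 →ₗ[ℂ] ℂ) (hpos : ∀ x, 0 ≤ τ (star x * x)) (c : ℕ × ℕ × ℕ → 𝒜)
    (hres : ResHyp τ c) {n m : ℕ} (w : Fin n → Matrix (Fin m) (Fin m) ℂ) (d : ℕ) :
    ∃ N : ℝ → ℝ, ContinuousOn N (Set.Ioi 0) ∧
      (1 ≤ d → ∀ y, 0 < y → ∃ A B, Solves w y d A B ∧ N y = ((Hof w A * B).trace).re) ∧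
      ∀ e > 0, ∃ Q P b c' : Matrix (Fin m × Fin d) (Fin m × Fin d) 𝒜, Q * P = XX c w d ∧
        (∑ j, ∑ i, τ (star (Q i j) * Q i j)).re ≤
          2 / Real.pi * (∫ y in Set.Ioi (0 : ℝ), N y) + e ∧
        (∑ i, ∑ j, τ (P i j * star (P i j))).re ≤
          2 / Real.pi * (∫ y in Set.Ioi (0 : ℝ), N y) + e ∧
        bᴴ * b + c'ᴴ * c' = 1 ∧
        2 / Real.pi * (∫ y in Set.Ioi (0 : ℝ), N y) - e ≤ (∑ j, τ ((XX c w d * b) j j)).re := by
  classical
  let X : CStarMatrix (Fin m × Fin d) (Fin m × Fin d) 𝒜 := CStarMatrix.ofMatrix (XX c w d)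
  obtain ⟨R, hR, hcont, hQ⟩ := cstar_trace (flatTr τ) (flatTr_pos τ hpos) X
  obtain ⟨R', hR', -, -⟩ := cstar_trace (flatTr τ) (flatTr_pos τ hpos) (star X)
  refine ⟨_, hcont, ?_, ?_⟩
  · intro hd y hy
    obtain ⟨A, B, hS, hE⟩ := hres n m w d hd y hy (R y) (R' y) (hR y hy).1 (hR y hy).2
      (by have := (hR' y hy).1; rwa [star_star] at this)
      (by have := (hR' y hy).2; rwa [star_star] at this)
    refine ⟨A, B, hS, ?_⟩
    rw [← hE, flatTr_apply]
    congr 1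
    refine Finset.sum_congr rfl fun j _ => ?_
    have h1 : (1 - ((y : ℂ) ^ 2) • R y) j j =
        (1 : CStarMatrix (Fin m × Fin d) (Fin m × Fin d) 𝒜) j j - ((y : ℂ) ^ 2) • (R y j j) := rfl
    rw [h1, CStarMatrix.one_apply_eq]
  · intro e he
    obtain ⟨Q, P, b, c', h1, h2, h3, h4, h5⟩ := hQ e he
    refine ⟨Q, P, b, c', h1, ?_, ?_, h4, ?_⟩
    · rw [flatTr_star_mul] at h2
      exact h2
    · refine le_trans (le_of_eq ?_) h3
      rw [flatTr_apply]
      congr 1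
      refine Finset.sum_congr rfl fun i _ => ?_
      rw [CStarMatrix.mul_apply, map_sum]
      rfl
    · exact h5

/-- nested trace functional -/
def nestTr {d : ℕ} (r : ℝ) (τ : 𝒜 →ₗ[ℂ] ℂ) : CStarMatrix (Fin d) (Fin d) 𝒜 →ₗ[ℂ] ℂ :=
  (r : ℂ) • flatTr τ

theorem nestTr_apply {d : ℕ} (r : ℝ) (τ : 𝒜 →ₗ[ℂ] ℂ) (x : CStarMatrix (Fin d) (Fin d) 𝒜) :
    nestTr r τ x = (r : ℂ) * ∑ a, τ (x a a) := rfl

theorem model_of (τ : 𝒜 →ₗ[ℂ] ℂ) (hpos : ∀ x, 0 ≤ τ (star x * x))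
    (htr : ∀ x y, τ (x * y) = τ (y * x)) (c : ℕ × ℕ × ℕ → 𝒜) (hres : ResHyp τ c) :
    Nonempty Model := by
  classical
  -- positivity of the normalisation
  have hcst : 0 < cst := by
    unfold cst
    have := Real.rpow_pos_of_pos C0_pos (3 / 2)
    positivity
  have hlog : ∀ k : ℕ, 0 < Real.log ((k + 2 : ℕ) : ℝ) := fun k =>
    Real.log_pos (by push_cast; linarith [Nat.cast_nonneg (α := ℝ) k])
  have hnorm : ∀ k : ℕ, 0 < (cst * Real.log ((k + 2 : ℕ) : ℝ))⁻¹ := fun k =>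
    inv_pos.mpr (mul_pos hcst (hlog k))
  refine ⟨{
    A := fun k => CStarMatrix (Fin (k + 2)) (Fin (k + 2)) 𝒜
    inst := fun k => inferInstance
    t := fun k => nestTr ((cst * Real.log ((k + 2 : ℕ) : ℝ))⁻¹) τ
    t_pos := ?_
    t_tr := ?_
    Φ := fun k p => CStarMatrix.ofMatrix (Matrix.of fun a b =>
      (((Dw a * Dw b : ℝ) : ℂ) • c (p, (a : ℕ), (b : ℕ))))
    main := ?_ }⟩
  · intro k x
    have h := flatTr_pos τ hpos x
    have h2 : (0 : ℂ) ≤ (((cst * Real.log ((k + 2 : ℕ) : ℝ))⁻¹ : ℝ) : ℂ) := by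
      exact_mod_cast (hnorm k).le
    exact mul_nonneg h2 h
  · intro k x y
    exact congrArg (fun z => (((cst * Real.log ((k + 2 : ℕ) : ℝ))⁻¹ : ℝ) : ℂ) * z)
      (flatTr_comm τ htr x y)
  · intro n m w
    choose N hNc hNS hNQ using fun d => flat_data τ hpos c hres w d
    have hlim := analysis_limit w N (fun d y hd hy => hNS d hd y hy) hNc
    set I : ℕ → ℝ := fun d => 2 / Real.pi * ∫ y in Set.Ioi (0 : ℝ), N d y with hI
    set s : ℕ → ℝ := fun k => cst * Real.log ((k + 2 : ℕ) : ℝ) with hs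
    have hspos : ∀ k, 0 < s k := fun k => mul_pos hcst (hlog k)
    set e : ℕ → ℝ := fun k => s k / (2 * ((k : ℝ) + 1)) with he
    have hepos : ∀ k, 0 < e k := fun k => div_pos (hspos k) (by positivity)
    have hes : ∀ k, e k / s k = 1 / (2 * ((k : ℝ) + 1)) := fun k => by
      simp only [he]
      have := (hspos k).ne'
      field_simp
    refine ⟨fun k => (I (k + 2) + e k) / s k, ?_, ?_⟩
    · have h1 : Tendsto (fun k : ℕ => I (k + 2) / s k) atTop (𝓝 (dualNorm w)) := by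
        have := hlim.comp (tendsto_add_atTop_nat 2)
        exact this
      have h2 : Tendsto (fun k : ℕ => e k / s k) atTop (𝓝 0) := by
        simp_rw [hes]
        have : Tendsto (fun k : ℕ => (1 / 2 : ℝ) * (1 / ((k : ℝ) + 1))) atTop (𝓝 (1 / 2 * 0)) :=
          tendsto_one_div_add_atTop_nhds_zero_nat.const_mul _
        rw [mul_zero] at this
        refine this.congr fun k => ?_
        have : ((k : ℝ) + 1) ≠ 0 := by positivity
        field_simp
      have h3 := h1.add h2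
      rw [add_zero] at h3
      exact h3.congr fun k => by rw [add_div]
    · intro k
      obtain ⟨Q, P, b, c', h1, h2, h3, h4, h5⟩ := hNQ (k + 2) (e k) (hepos k)
      have hX : (Matrix.of fun i j => ∑ p : Fin n, w p i j •
          (CStarMatrix.ofMatrix (Matrix.of fun (a b : Fin (k + 2)) =>
            (((Dw a * Dw b : ℝ) : ℂ) • c ((p : ℕ), (a : ℕ), (b : ℕ)))) :
            CStarMatrix (Fin (k + 2)) (Fin (k + 2)) 𝒜)) = nest (XX c w (k + 2)) := by
        ext i j a b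
        rw [nest_apply]
        have hsum : ∀ (f : Fin n → CStarMatrix (Fin (k + 2)) (Fin (k + 2)) 𝒜) (s : Finset (Fin n)),
            (∑ x ∈ s, f x) a b = ∑ x ∈ s, f x a b := by
          intro f s
          induction s using Finset.induction_on with
          | empty => simp
          | insert x s hx ih => rw [Finset.sum_insert hx, Finset.sum_insert hx, ← ih]; rfl
        rw [Matrix.of_apply, hsum]
        rfl
      rw [hX]
      have key : ∀ f : Fin m → Fin m → CStarMatrix (Fin (k + 2)) (Fin (k + 2)) 𝒜,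
          ∑ i, ∑ j, (nestTr ((s k)⁻¹) τ (f i j)).re =
            (s k)⁻¹ * (∑ i, ∑ j, ∑ a, τ (f i j a a)).re := by
        intro f
        rw [Complex.re_sum, Finset.mul_sum]
        refine Finset.sum_congr rfl fun i _ => ?_
        rw [Complex.re_sum, Finset.mul_sum]
        refine Finset.sum_congr rfl fun j _ => ?_
        rw [nestTr_apply, Complex.re_ofReal_mul]
      have hle : ∀ (f : Fin m → Fin m → CStarMatrix (Fin (k + 2)) (Fin (k + 2)) 𝒜) (z : ℂ),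
          ∑ i, ∑ j, ∑ a, τ (f i j a a) = z → z.re ≤ I (k + 2) + e k →
          ∑ i, ∑ j, (nestTr ((s k)⁻¹) τ (f i j)).re ≤ (I (k + 2) + e k) / s k := by
        intro f z hz hz'
        rw [key, hz, div_eq_inv_mul]
        exact mul_le_mul_of_nonneg_left hz' (inv_pos.mpr (hspos k)).le
      refine ⟨nest Q, nest P, nest b, nest c', by rw [← nest_mul, h1], ?_, ?_, ?_, ?_⟩
      · refine hle (fun i j => star (nest Q i j) * nest Q i j) _ ?_ h2
        have hin : ∀ (i j : Fin m) (a : Fin (k + 2)),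
            τ ((star (nest Q i j) * nest Q i j) a a) =
              ∑ b, τ (star (Q (i, b) (j, a)) * Q (i, b) (j, a)) := by
          intro i j a
          rw [CStarMatrix.mul_apply, map_sum]
          rfl
        simp_rw [hin, Fintype.sum_prod_type]
        rw [Finset.sum_comm]
        refine Finset.sum_congr rfl fun j _ => ?_
        rw [Finset.sum_comm]
      · refine hle (fun i j => nest P i j * star (nest P i j)) _ ?_ h3
        have hin : ∀ (i j : Fin m) (a : Fin (k + 2)),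
            τ ((nest P i j * star (nest P i j)) a a) =
              ∑ b, τ (P (i, a) (j, b) * star (P (i, a) (j, b))) := by
          intro i j a
          rw [CStarMatrix.mul_apply, map_sum]
          rfl
        simp_rw [hin, Fintype.sum_prod_type]
        refine Finset.sum_congr rfl fun i _ => ?_
        rw [Finset.sum_comm]
      · rw [← nest_conjTranspose, ← nest_conjTranspose, ← nest_mul, ← nest_mul, ← nest_add, h4,
          nest_one]
      · rw [← nest_mul]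
        have h6 : (∑ i, nestTr ((s k)⁻¹) τ (nest (XX c w (k + 2) * b) i i)).re =
            (s k)⁻¹ * (∑ j, τ ((XX c w (k + 2) * b) j j)).re := by
          rw [Fintype.sum_prod_type, Complex.re_sum, Complex.re_sum, Finset.mul_sum]
          refine Finset.sum_congr rfl fun i _ => ?_
          rw [nestTr_apply, Complex.re_ofReal_mul]
          rfl
        refine le_of_le_of_eq ?_ h6.symm
        have h7 : (I (k + 2) + e k) / s k - 1 / ((k : ℝ) + 1) = (s k)⁻¹ * (I (k + 2) - e k) := by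
          have h8 : 1 / ((k : ℝ) + 1) = 2 * (e k / s k) := by
            rw [hes]
            have : ((k : ℝ) + 1) ≠ 0 := by positivity
            field_simp
          rw [h8]
          ring
        refine le_of_eq_of_le h7 ?_
        exact mul_le_mul_of_nonneg_left h5 (inv_pos.mpr (hspos k)).le

end build

section final

instance instClosedAC : IsClosed (AC (ℕ × ℕ × ℕ) : Set (Fock (ℕ × ℕ × ℕ) →L[ℂ] Fock (ℕ × ℕ × ℕ))) :=
  StarSubalgebra.isClosed_topologicalClosure _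

/-- the vacuum state on `AC` -/
def tauAC : AC (ℕ × ℕ × ℕ) →ₗ[ℂ] ℂ where
  toFun x := ⟪Om (ℕ × ℕ × ℕ), (x : Fock (ℕ × ℕ × ℕ) →L[ℂ] Fock (ℕ × ℕ × ℕ)) (Om (ℕ × ℕ × ℕ))⟫_ℂ
  map_add' x y := by
    show ⟪_, ((x : Fock (ℕ × ℕ × ℕ) →L[ℂ] Fock (ℕ × ℕ × ℕ)) + y) _⟫_ℂ = _
    rw [add_apply, inner_add_right]
  map_smul' c x := by
    show ⟪_, (c • (x : Fock (ℕ × ℕ × ℕ) →L[ℂ] Fock (ℕ × ℕ × ℕ))) _⟫_ℂ = _
    rw [smul_apply, inner_smul_right]
    rfl

theorem tauAC_apply (x : AC (ℕ × ℕ × ℕ)) : tauAC x = ⟪Om (ℕ × ℕ × ℕ),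
    (x : Fock (ℕ × ℕ × ℕ) →L[ℂ] Fock (ℕ × ℕ × ℕ)) (Om (ℕ × ℕ × ℕ))⟫_ℂ := rfl

theorem tauAC_pos (x : AC (ℕ × ℕ × ℕ)) : 0 ≤ tauAC (star x * x) := by
  rw [tauAC_apply]
  have h : ((star x * x : AC (ℕ × ℕ × ℕ)) : Fock (ℕ × ℕ × ℕ) →L[ℂ] Fock (ℕ × ℕ × ℕ)) =
      ContinuousLinearMap.adjoint (x : Fock (ℕ × ℕ × ℕ) →L[ℂ] Fock (ℕ × ℕ × ℕ)) * x := rfl
  rw [h, ContinuousLinearMap.mul_apply, ContinuousLinearMap.adjoint_inner_right,
    inner_self_eq_norm_sq_to_K]
  have h2 : (0 : ℝ) ≤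
      ‖(x : Fock (ℕ × ℕ × ℕ) →L[ℂ] Fock (ℕ × ℕ × ℕ)) (Om (ℕ × ℕ × ℕ))‖ ^ 2 := sq_nonneg _
  have h3 := Complex.zero_le_real.mpr h2
  rwa [Complex.ofReal_pow] at h3

/-- entries of matrices over `AC` as operators -/
def coeMat {J : Type*} (R : Matrix J J (AC (ℕ × ℕ × ℕ))) :
    Matrix J J (Fock (ℕ × ℕ × ℕ) →L[ℂ] Fock (ℕ × ℕ × ℕ)) := R.map Subtype.val

theorem coeMat_mul {J : Type*} [Fintype J] (R S : Matrix J J (AC (ℕ × ℕ × ℕ))) :
    coeMat (R * S) = coeMat R * coeMat S := by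
  ext1 i j
  simp only [coeMat, Matrix.map_apply, Matrix.mul_apply]
  exact map_sum (AC (ℕ × ℕ × ℕ)).subtype _ _

theorem coeMat_add {J : Type*} (R S : Matrix J J (AC (ℕ × ℕ × ℕ))) :
    coeMat (R + S) = coeMat R + coeMat S := rfl

theorem coeMat_smul {J : Type*} (c : ℂ) (R : Matrix J J (AC (ℕ × ℕ × ℕ))) :
    coeMat (c • R) = c • coeMat R := rfl

theorem coeMat_conjTranspose {J : Type*} (R : Matrix J J (AC (ℕ × ℕ × ℕ))) :
    coeMat Rᴴ = (coeMat R)ᴴ := rfl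

theorem coeMat_one {J : Type*} [DecidableEq J] :
    coeMat (1 : Matrix J J (AC (ℕ × ℕ × ℕ))) = 1 := by
  ext1 i j
  simp only [coeMat, Matrix.map_apply, Matrix.one_apply]
  split <;> rfl

theorem coeMat_XX {n m : ℕ} (w : Fin n → Matrix (Fin m) (Fin m) ℂ) (d : ℕ) :
    coeMat (XX (fun b => (⟨circ b, circ_mem b⟩ : AC (ℕ × ℕ × ℕ))) w d) =
      Xop (sof n d) (Vof w d) := by
  ext1 x z
  rw [Xop_Vof]
  simp only [coeMat, XX, Matrix.map_apply, Matrix.of_apply]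
  exact map_sum (AC (ℕ × ℕ × ℕ)).subtype _ _

theorem resHyp_AC : ResHyp tauAC (fun b => (⟨circ b, circ_mem b⟩ : AC (ℕ × ℕ × ℕ))) := by
  intro n m w d hd y hy R₁ R₂ h1 h1' h2 h2'
  have conv : ∀ {M N : Matrix (Fin m × Fin d) (Fin m × Fin d) (AC (ℕ × ℕ × ℕ))},
      M = N → coeMat M = coeMat N := fun h => by rw [h]
  have k1 := conv h1
  have k1' := conv h1'
  have k2 := conv h2
  have k2' := conv h2'
  simp only [coeMat_mul, coeMat_add, coeMat_smul, coeMat_one, coeMat_conjTranspose,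
    coeMat_XX] at k1 k1' k2 k2'
  obtain ⟨A, B, hS, hE⟩ := solves_of_resolvent w hd hy k1 k1' k2 k2'
  refine ⟨A, B, hS, ?_⟩
  rw [← hE]
  refine Finset.sum_congr rfl fun j _ => ?_
  rw [map_sub, map_smul, tauAC_apply, tauAC_apply]
  have h1 : ((1 : AC (ℕ × ℕ × ℕ)) : Fock (ℕ × ℕ × ℕ) →L[ℂ] Fock (ℕ × ℕ × ℕ)) = 1 := rfl
  rw [h1, ContinuousLinearMap.one_apply, inner_self_eq_norm_sq_to_K, norm_Om]
  simp [coeMat]

theorem model_exists : Nonempty Model := by
  letI : PartialOrder (AC (ℕ × ℕ × ℕ)) := CStarAlgebra.spectralOrder _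
  haveI : StarOrderedRing (AC (ℕ × ℕ × ℕ)) := CStarAlgebra.spectralOrderedRing _
  exact model_of tauAC tauAC_pos (fun x y => tau_tr x.2 y.2) _ resHyp_AC

end final

end OH246
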